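import Mathlib

/-! # MP_971d29_gt, module FINAL: iteration of the round. -/

open MeasureTheory Set

namespace ZonoLin

/-- `N_a(z) = ∑ |⟨a_i, z⟩|`. -/
noncomputable def fnN {d n : ℕ} (a : Fin n → EuclideanSpace ℝ (Fin d))
    (z : EuclideanSpace ℝ (Fin d)) : ℝ := ∑ i, abs (inner ℝ (a i) z : ℝ)

theorem fnN_nonneg {d n : ℕ} (a : Fin n → EuclideanSpace ℝ (Fin d))
    (z : EuclideanSpace ℝ (Fin d)) : 0 ≤ fnN a z :=
  Finset.sum_nonneg fun _ _ => abs_nonneg _

/-- one step: `|N₁ - N| ≤ δ N` gives multiplicative bounds. -/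
theorem fn_step {δ N N₁ : ℝ} (hδ0 : 0 ≤ δ) (hδ : δ ≤ 1 / 2) (hN : 0 ≤ N)
    (h : |N₁ - N| ≤ δ * N) : Real.exp (-(2 * δ)) * N ≤ N₁ ∧ N₁ ≤ Real.exp (2 * δ) * N := by
  obtain ⟨h1, h2⟩ := abs_le.1 h
  constructor
  · have k1 : Real.exp (-(2 * δ)) ≤ 1 - δ := by
      rw [Real.exp_neg]
      have k2 : 1 + 2 * δ ≤ Real.exp (2 * δ) := by linarith [Real.add_one_le_exp (2 * δ)]
      have k3 : (Real.exp (2 * δ))⁻¹ ≤ (1 + 2 * δ)⁻¹ := inv_anti₀ (by linarith) k2
      refine k3.trans ?_
      rw [inv_le_iff_one_le_mul₀ (by linarith)]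
      nlinarith
    have := mul_le_mul_of_nonneg_right k1 hN
    linarith
  · have k1 : 1 + δ ≤ Real.exp (2 * δ) := by linarith [Real.add_one_le_exp (2 * δ)]
    have := mul_le_mul_of_nonneg_right k1 hN
    linarith

theorem fn_iter {d : ℕ} (hd : 0 < d)
    (hround : ∀ (m : ℕ) (a : Fin m → EuclideanSpace ℝ (Fin d)),
      500 * (d : ℝ) ≤ m →
      ∃ (n : ℕ) (b : Fin n → EuclideanSpace ℝ (Fin d)),
        (n : ℝ) ≤ 495 / 512 * m ∧
        ∀ z : EuclideanSpace ℝ (Fin d),
          |∑ j, abs (inner ℝ (b j) z : ℝ) - ∑ i, abs (inner ℝ (a i) z : ℝ)| ≤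
            8000 * Real.sqrt ((d : ℝ) / m) * ∑ i, abs (inner ℝ (a i) z : ℝ))
    (K : ℝ) (hK : 256000000 ≤ K) (m : ℕ) :
    ∀ (a : Fin m → EuclideanSpace ℝ (Fin d)),
    ∃ (n : ℕ) (b : Fin n → EuclideanSpace ℝ (Fin d)) (E : ℝ),
      (n : ℝ) ≤ K * d ∧
      (E ≤ 0 ∧ (m : ℝ) ≤ K * d ∨
        K * d < m ∧ E ≤ Real.sqrt d * (976000 / Real.sqrt (K * d) - 960000 / Real.sqrt m)) ∧
      ∀ z, Real.exp (-E) * fnN a z ≤ fnN b z ∧ fnN b z ≤ Real.exp E * fnN a z := by
  have hd' : (1 : ℝ) ≤ d := by exact_mod_cast hd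
  have hd0 : (0 : ℝ) < d := by linarith
  have hK0 : (0 : ℝ) < K := by linarith
  induction m using Nat.strong_induction_on with
  | _ m ih =>
    intro a
    by_cases hm : (m : ℝ) ≤ K * d
    · exact ⟨m, a, 0, hm, Or.inl ⟨le_rfl, hm⟩, fun z => by simp⟩
    · push Not at hm
      have hm500 : 500 * (d : ℝ) ≤ m := by nlinarith
      have hm0 : (0 : ℝ) < m := by nlinarith
      obtain ⟨n₁, b₁, hn₁, hb₁⟩ := hround m a hm500
      have hn₁m : n₁ < m := by
        have : (n₁ : ℝ) < m := by linarith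
        exact_mod_cast this
      obtain ⟨n, b, E₁, hn, hE₁, hb⟩ := ih n₁ hn₁m b₁
      set δ : ℝ := 8000 * Real.sqrt ((d : ℝ) / m) with hδ
      have hδ0 : 0 ≤ δ := by positivity
      have hδe : δ = 8000 * Real.sqrt d / Real.sqrt m := by
        rw [hδ, Real.sqrt_div hd0.le]; ring
      have hδ2 : δ ≤ 1 / 2 := by
        have h1 : Real.sqrt ((d : ℝ) / m) ≤ 1 / 16000 := by
          rw [Real.sqrt_le_left (by norm_num)]
          rw [div_le_iff₀ hm0]
          nlinarith
        rw [hδ]; linarith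
      refine ⟨n, b, 2 * δ + E₁, hn, Or.inr ⟨hm, ?_⟩, ?_⟩
      · have hsm : 0 < Real.sqrt m := Real.sqrt_pos.2 hm0
        have hsKd : 0 < Real.sqrt (K * d) := Real.sqrt_pos.2 (by positivity)
        have hsd : 0 < Real.sqrt d := Real.sqrt_pos.2 hd0
        have h2δ : 2 * δ = Real.sqrt d * (16000 / Real.sqrt m) := by rw [hδe]; ring
        rcases hE₁ with ⟨hE, _⟩ | ⟨hn₁K, hE⟩
        · have h1 : (1 : ℝ) / Real.sqrt m ≤ 1 / Real.sqrt (K * d) :=
            one_div_le_one_div_of_le hsKd (Real.sqrt_le_sqrt hm.le)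
          have h2 : 16000 / Real.sqrt m ≤
              976000 / Real.sqrt (K * d) - 960000 / Real.sqrt m := by
            have e1 : 16000 / Real.sqrt m = 16000 * (1 / Real.sqrt m) := by ring
            have e2 : 960000 / Real.sqrt m = 960000 * (1 / Real.sqrt m) := by ring
            have e3 : 976000 / Real.sqrt (K * d) = 976000 * (1 / Real.sqrt (K * d)) := by ring
            rw [e1, e2, e3]; linarith
          have h3 := mul_le_mul_of_nonneg_left h2 hsd.le
          rw [h2δ]; linarith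
        · have hn₁0 : (0 : ℝ) < n₁ := lt_trans (by positivity) hn₁K
          have hsn : 0 < Real.sqrt n₁ := Real.sqrt_pos.2 hn₁0
          have h1 : Real.sqrt n₁ ≤ 60 / 61 * Real.sqrt m := by
            have : Real.sqrt n₁ ≤ Real.sqrt ((60 / 61) ^ 2 * m) := by
              refine Real.sqrt_le_sqrt ?_
              nlinarith
            rwa [Real.sqrt_mul (by positivity), Real.sqrt_sq (by norm_num)] at this
          have h2 : 61 / 60 * (1 / Real.sqrt m) ≤ 1 / Real.sqrt n₁ := by
            rw [mul_one_div, div_le_div_iff₀ hsm hsn]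
            linarith
          have h3 : 16000 / Real.sqrt m +
              (976000 / Real.sqrt (K * d) - 960000 / Real.sqrt n₁) ≤
              976000 / Real.sqrt (K * d) - 960000 / Real.sqrt m := by
            have e1 : 16000 / Real.sqrt m = 16000 * (1 / Real.sqrt m) := by ring
            have e2 : 960000 / Real.sqrt m = 960000 * (1 / Real.sqrt m) := by ring
            have e3 : 960000 / Real.sqrt n₁ = 960000 * (1 / Real.sqrt n₁) := by ring
            rw [e1, e2, e3]; linarith
          have h4 := mul_le_mul_of_nonneg_left h3 hsd.le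
          rw [mul_add] at h4
          rw [h2δ]; linarith
      · intro z
        obtain ⟨s1, s2⟩ := fn_step hδ0 hδ2 (fnN_nonneg a z) (hb₁ z)
        obtain ⟨t1, t2⟩ := hb z
        change Real.exp (-(2 * δ)) * fnN a z ≤ fnN b₁ z at s1
        change fnN b₁ z ≤ Real.exp (2 * δ) * fnN a z at s2
        constructor
        · calc Real.exp (-(2 * δ + E₁)) * fnN a z
              = Real.exp (-E₁) * (Real.exp (-(2 * δ)) * fnN a z) := by
                rw [← mul_assoc (Real.exp (-E₁)), ← Real.exp_add]; congr 2; ring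
            _ ≤ Real.exp (-E₁) * fnN b₁ z :=
                mul_le_mul_of_nonneg_left s1 (Real.exp_pos _).le
            _ ≤ _ := t1
        · calc fnN b z ≤ Real.exp E₁ * fnN b₁ z := t2
            _ ≤ Real.exp E₁ * (Real.exp (2 * δ) * fnN a z) :=
                mul_le_mul_of_nonneg_left s2 (Real.exp_pos _).le
            _ = Real.exp (2 * δ + E₁) * fnN a z := by
                rw [← mul_assoc (Real.exp E₁), ← Real.exp_add]; congr 2; ring

/-- M11: iteration and the frozen statement. -/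
theorem final_of_round
    (hround : ∀ (d : ℕ), 0 < d → ∀ (m : ℕ) (a : Fin m → EuclideanSpace ℝ (Fin d)),
      500 * (d : ℝ) ≤ m →
      ∃ (n : ℕ) (b : Fin n → EuclideanSpace ℝ (Fin d)),
        (n : ℝ) ≤ 495 / 512 * m ∧
        ∀ z : EuclideanSpace ℝ (Fin d),
          |∑ j, abs (inner ℝ (b j) z : ℝ) - ∑ i, abs (inner ℝ (a i) z : ℝ)| ≤
            8000 * Real.sqrt ((d : ℝ) / m) * ∑ i, abs (inner ℝ (a i) z : ℝ)) :
    ∃ C : ℝ, 0 < C ∧
      ∀ (d m : ℕ), d ≤ m →
        ∀ A : Matrix (Fin m) (Fin d) ℝ,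
          ∀ ε : ℝ, 0 < ε → ε ≤ 1 / 2 →
            ∃ n : ℕ, (n : ℝ) ≤ C * (d : ℝ) / ε ^ 2 ∧
              ∃ B : Matrix (Fin n) (Fin d) ℝ,
                ∀ x : Fin d → ℝ,
                  (∑ i, |(Matrix.mulVec B x) i|) ≤ ∑ i, |(Matrix.mulVec A x) i| ∧
                  (∑ i, |(Matrix.mulVec A x) i|) ≤ (1 + ε) * ∑ i, |(Matrix.mulVec B x) i| := by
  refine ⟨4000000 ^ 2, by norm_num, ?_⟩
  intro d m _ A ε hε hε2
  rcases Nat.eq_zero_or_pos d with hd | hd
  · subst hd
    refine ⟨0, by simp, Matrix.of fun i => i.elim0, fun x => ?_⟩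
    have : ∀ i, (Matrix.mulVec A x) i = 0 := fun i => by simp [Matrix.mulVec, dotProduct]
    simp [this]
  · have hd' : (1 : ℝ) ≤ d := by exact_mod_cast hd
    have hd0 : (0 : ℝ) < d := by linarith
    set K : ℝ := (4000000 / ε) ^ 2 with hKdef
    have hKε : (8000000 : ℝ) ≤ 4000000 / ε := by
      rw [le_div_iff₀ hε]; linarith
    have hK : 256000000 ≤ K := by nlinarith
    have hK0 : 0 < K := by linarith
    set a : Fin m → EuclideanSpace ℝ (Fin d) := fun i => WithLp.toLp 2 (A i) with ha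
    obtain ⟨n, b, E, hn, hE, hb⟩ := fn_iter hd (hround d hd) K hK m a
    have hE4 : E ≤ ε / 4 := by
      rcases hE with ⟨h, _⟩ | ⟨_, h⟩
      · linarith
      · refine h.trans ?_
        have e0 : 0 ≤ 960000 / Real.sqrt m := by positivity
        have e1 : Real.sqrt (K * d) = (4000000 / ε) * Real.sqrt d := by
          rw [Real.sqrt_mul hK0.le, hKdef, Real.sqrt_sq (by positivity)]
        have hsd : 0 < Real.sqrt d := Real.sqrt_pos.2 hd0
        have e2 : Real.sqrt d * (976000 / Real.sqrt (K * d)) = 976000 / 4000000 * ε := by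
          rw [e1]; field_simp
        have e3 : Real.sqrt d * (976000 / Real.sqrt (K * d) - 960000 / Real.sqrt m) ≤
            Real.sqrt d * (976000 / Real.sqrt (K * d)) :=
          mul_le_mul_of_nonneg_left (by linarith) hsd.le
        rw [e2] at e3
        linarith
    have hexp : Real.exp (ε / 2) ≤ 1 + ε := by
      have h1 := Real.abs_exp_sub_one_sub_id_le (x := ε / 2) (by
        rw [abs_of_nonneg (by linarith)]; linarith)
      have h2 := (abs_le.1 h1).2
      nlinarith
    refine ⟨n, ?_, Matrix.of fun i j => Real.exp (-(ε / 4)) * b i j, ?_⟩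
    · calc (n : ℝ) ≤ K * d := hn
        _ = 4000000 ^ 2 * (d : ℝ) / ε ^ 2 := by rw [hKdef]; ring
    · intro x
      set z : EuclideanSpace ℝ (Fin d) := WithLp.toLp 2 x with hz
      have hA : ∑ i, |(Matrix.mulVec A x) i| = fnN a z := by
        unfold fnN
        refine Finset.sum_congr rfl fun i _ => ?_
        congr 1
        rw [PiLp.inner_apply, Matrix.mulVec, dotProduct]
        refine Finset.sum_congr rfl fun j _ => ?_
        simp [ha, hz, mul_comm]
      have hB : ∑ i, |(Matrix.mulVec (Matrix.of fun i j => Real.exp (-(ε / 4)) * b i j) x) i| =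
          Real.exp (-(ε / 4)) * fnN b z := by
        unfold fnN
        rw [Finset.mul_sum]
        refine Finset.sum_congr rfl fun i _ => ?_
        rw [← abs_of_pos (Real.exp_pos (-(ε / 4))), ← abs_mul, abs_of_pos (Real.exp_pos _)]
        congr 1
        rw [PiLp.inner_apply, Matrix.mulVec, dotProduct, Finset.mul_sum]
        refine Finset.sum_congr rfl fun j _ => ?_
        simp [hz, mul_comm, mul_left_comm]
      rw [hA, hB]
      obtain ⟨h1, h2⟩ := hb z
      have hN := fnN_nonneg a z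
      constructor
      · calc Real.exp (-(ε / 4)) * fnN b z ≤ Real.exp (-(ε / 4)) * (Real.exp E * fnN a z) :=
              mul_le_mul_of_nonneg_left h2 (Real.exp_pos _).le
          _ = Real.exp (-(ε / 4) + E) * fnN a z := by rw [← mul_assoc, ← Real.exp_add]
          _ ≤ 1 * fnN a z := by
              refine mul_le_mul_of_nonneg_right ?_ hN
              rw [Real.exp_le_one_iff]; linarith
          _ = fnN a z := one_mul _
      · have h3 : fnN a z ≤ Real.exp E * fnN b z := by
          have := mul_le_mul_of_nonneg_left h1 (Real.exp_pos E).le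
          rw [← mul_assoc, ← Real.exp_add, add_neg_cancel, Real.exp_zero, one_mul] at this
          exact this
        have hNb := fnN_nonneg b z
        calc fnN a z ≤ Real.exp E * fnN b z := h3
          _ ≤ Real.exp (ε / 4) * fnN b z :=
              mul_le_mul_of_nonneg_right (Real.exp_le_exp.2 hE4) hNb
          _ = Real.exp (ε / 2) * (Real.exp (-(ε / 4)) * fnN b z) := by
              rw [← mul_assoc, ← Real.exp_add]; congr 2; ring
          _ ≤ (1 + ε) * (Real.exp (-(ε / 4)) * fnN b z) :=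
              mul_le_mul_of_nonneg_right hexp (mul_nonneg (Real.exp_pos _).le hNb)

end ZonoLin
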