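import Mathlib

/-! # MP_971d29_gt: from the matrix form (norms) to zonotopes (Minkowski sums of segments)

Polarity: inclusions of zonotopes are inequalities between their support functions
`∑ |f (a i)|` (Hahn-Banach). -/

set_option autoImplicit false

namespace Pool.Agent.ZonoLin.Own

open Pointwise

/-- The zonotope generated by the vectors `a i`: the Minkowski sum of the segments
`[-a i, a i]`. -/
def zonotope {d m : ℕ} (a : Fin m → EuclideanSpace ℝ (Fin d)) :
    Set (EuclideanSpace ℝ (Fin d)) :=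
  ∑ i, segment ℝ (-a i) (a i)

theorem mem_zonotope {d m : ℕ} (a : Fin m → EuclideanSpace ℝ (Fin d))
    (x : EuclideanSpace ℝ (Fin d)) :
    x ∈ zonotope a ↔ ∃ c : Fin m → ℝ, (∀ i, |c i| ≤ 1) ∧ x = ∑ i, c i • a i := by
  unfold zonotope
  rw [Set.mem_fintype_sum]
  constructor
  · rintro ⟨g, hg, rfl⟩
    have : ∀ i, ∃ c : ℝ, |c| ≤ 1 ∧ g i = c • a i := by
      intro i
      obtain ⟨s, t, hs, ht, hst, h⟩ := hg i
      refine ⟨t - s, ?_, ?_⟩
      · rw [abs_le]; constructor <;> linarith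
      · rw [← h]; simp only [smul_neg, sub_smul]; abel
    choose c hc1 hc2 using this
    exact ⟨c, hc1, Finset.sum_congr rfl fun i _ => hc2 i⟩
  · rintro ⟨c, hc, rfl⟩
    refine ⟨fun i => c i • a i, fun i => ?_, rfl⟩
    have h := abs_le.mp (hc i)
    refine ⟨(1 - c i) / 2, (1 + c i) / 2, by linarith, by linarith, by ring, ?_⟩
    rw [smul_neg, ← sub_eq_neg_add, ← sub_smul]
    congr 1; ring

theorem isCompact_zonotope {d m : ℕ} (a : Fin m → EuclideanSpace ℝ (Fin d)) :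
    IsCompact (zonotope a) := by
  have h : zonotope a = (fun c : Fin m → ℝ => ∑ i, c i • a i) ''
      Set.pi Set.univ (fun _ => Set.Icc (-1 : ℝ) 1) := by
    ext x
    rw [mem_zonotope]
    constructor
    · rintro ⟨c, hc, rfl⟩
      exact ⟨c, fun i _ => abs_le.mp (hc i), rfl⟩
    · rintro ⟨c, hc, rfl⟩
      exact ⟨c, fun i => abs_le.mpr (hc i trivial), rfl⟩
  rw [h]
  refine (isCompact_univ_pi fun _ => isCompact_Icc).image ?_
  fun_prop

theorem convex_zonotope {d m : ℕ} (a : Fin m → EuclideanSpace ℝ (Fin d)) :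
    Convex ℝ (zonotope a) := by
  intro x hx y hy s t hs ht hst
  rw [mem_zonotope] at hx hy ⊢
  obtain ⟨c, hc, rfl⟩ := hx
  obtain ⟨e, he, rfl⟩ := hy
  refine ⟨fun i => s * c i + t * e i, fun i => ?_, ?_⟩
  · have h1 := abs_le.mp (hc i)
    have h2 := abs_le.mp (he i)
    rw [abs_le]
    constructor <;> nlinarith
  · rw [Finset.smul_sum, Finset.smul_sum, ← Finset.sum_add_distrib]
    refine Finset.sum_congr rfl fun i _ => ?_
    rw [add_smul, mul_smul, mul_smul]

theorem subset_of_support {d m n : ℕ} (a : Fin m → EuclideanSpace ℝ (Fin d))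
    (b : Fin n → EuclideanSpace ℝ (Fin d))
    (h : ∀ f : EuclideanSpace ℝ (Fin d) →L[ℝ] ℝ, ∑ i, |f (b i)| ≤ ∑ i, |f (a i)|) :
    zonotope b ⊆ zonotope a := by
  intro x hx
  by_contra hxa
  obtain ⟨f, u, hf, hu⟩ := geometric_hahn_banach_closed_point (convex_zonotope a)
    (isCompact_zonotope a).isClosed hxa
  obtain ⟨c, hc, rfl⟩ := (mem_zonotope b x).mp hx
  have h1 : f (∑ i, c i • b i) ≤ ∑ i, |f (b i)| := by
    rw [map_sum]
    refine Finset.sum_le_sum fun i _ => ?_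
    rw [map_smul, smul_eq_mul]
    calc c i * f (b i) ≤ |c i * f (b i)| := le_abs_self _
      _ = |c i| * |f (b i)| := abs_mul _ _
      _ ≤ 1 * |f (b i)| := mul_le_mul_of_nonneg_right (hc i) (abs_nonneg _)
      _ = |f (b i)| := one_mul _
  have h2 := hf (∑ i, (SignType.sign (f (a i)) : ℝ) • a i) ((mem_zonotope a _).mpr
    ⟨fun i => (SignType.sign (f (a i)) : ℝ), fun i => by
      rcases lt_trichotomy (f (a i)) 0 with h | h | h <;> simp [h], rfl⟩)
  have h3 : f (∑ i, (SignType.sign (f (a i)) : ℝ) • a i) = ∑ i, |f (a i)| := by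
    rw [map_sum]
    refine Finset.sum_congr rfl fun i _ => ?_
    rw [map_smul, smul_eq_mul, sign_mul_self]
  have h4 := h f
  linarith

theorem smul_zonotope {d m : ℕ} (r : ℝ) (a : Fin m → EuclideanSpace ℝ (Fin d)) :
    r • zonotope a = zonotope (fun i => r • a i) := by
  ext x
  rw [Set.mem_smul_set, mem_zonotope]
  constructor
  · rintro ⟨y, hy, rfl⟩
    obtain ⟨c, hc, rfl⟩ := (mem_zonotope a y).mp hy
    exact ⟨c, hc, by rw [Finset.smul_sum]; exact Finset.sum_congr rfl fun i _ => smul_comm _ _ _⟩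
  · rintro ⟨c, hc, rfl⟩
    refine ⟨∑ i, c i • a i, (mem_zonotope a _).mpr ⟨c, hc, rfl⟩, ?_⟩
    rw [Finset.smul_sum]; exact Finset.sum_congr rfl fun i _ => smul_comm _ _ _

theorem apply_eq_mulVec {d m : ℕ} (a : Fin m → EuclideanSpace ℝ (Fin d))
    (f : EuclideanSpace ℝ (Fin d) →L[ℝ] ℝ) (i : Fin m) :
    f (a i) = Matrix.mulVec (Matrix.of fun i j => (a i) j)
      (fun j => f (EuclideanSpace.single j (1 : ℝ))) i := by
  have h : a i = ∑ j, (a i) j • EuclideanSpace.single j (1 : ℝ) := by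
    ext k
    simp [Pi.single_apply]
  conv_lhs => rw [h]
  rw [map_sum]
  simp only [map_smul, smul_eq_mul, Matrix.mulVec, dotProduct, Matrix.of_apply]

theorem of_matrix
    (H : ∃ C : ℝ, 0 < C ∧
      ∀ (d m : ℕ), d ≤ m →
        ∀ A : Matrix (Fin m) (Fin d) ℝ,
          ∀ ε : ℝ, 0 < ε → ε ≤ 1 / 2 →
            ∃ n : ℕ, (n : ℝ) ≤ C * (d : ℝ) / ε ^ 2 ∧
              ∃ B : Matrix (Fin n) (Fin d) ℝ,
                ∀ x : Fin d → ℝ,
                  (∑ i, |(Matrix.mulVec B x) i|) ≤ ∑ i, |(Matrix.mulVec A x) i| ∧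
                  (∑ i, |(Matrix.mulVec A x) i|) ≤ (1 + ε) * ∑ i, |(Matrix.mulVec B x) i|) :
    ∃ C : ℝ, 0 < C ∧ ∀ (d m : ℕ) (a : Fin m → EuclideanSpace ℝ (Fin d)) (ε : ℝ),
      0 < ε → ε ≤ 1 / 2 →
      ∃ (n : ℕ) (b : Fin n → EuclideanSpace ℝ (Fin d)), (n : ℝ) ≤ C * d / ε ^ 2 ∧
        ∑ i, segment ℝ (-b i) (b i) ⊆ ∑ i, segment ℝ (-a i) (a i) ∧
        ∑ i, segment ℝ (-a i) (a i) ⊆ (1 + ε) • ∑ i, segment ℝ (-b i) (b i) := by
  change ∃ C : ℝ, 0 < C ∧ ∀ (d m : ℕ) (a : Fin m → EuclideanSpace ℝ (Fin d)) (ε : ℝ),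
      0 < ε → ε ≤ 1 / 2 →
      ∃ (n : ℕ) (b : Fin n → EuclideanSpace ℝ (Fin d)), (n : ℝ) ≤ C * d / ε ^ 2 ∧
        zonotope b ⊆ zonotope a ∧ zonotope a ⊆ (1 + ε) • zonotope b
  obtain ⟨C, hC, H⟩ := H
  refine ⟨C + 1, by linarith, fun d m a ε hε hε2 => ?_⟩
  have hd0 : (0 : ℝ) ≤ d := Nat.cast_nonneg d
  by_cases hm : d ≤ m
  · obtain ⟨n, hn, B, hB⟩ := H d m hm (Matrix.of fun i j => (a i) j) ε hε hε2
    have key : ∀ (f : EuclideanSpace ℝ (Fin d) →L[ℝ] ℝ) (i : Fin n),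
        f (WithLp.toLp 2 (B i)) =
          Matrix.mulVec B (fun j => f (EuclideanSpace.single j (1 : ℝ))) i :=
      fun f i => apply_eq_mulVec (fun i => WithLp.toLp 2 (B i)) f i
    refine ⟨n, fun i => WithLp.toLp 2 (B i), hn.trans ?_, ?_, ?_⟩
    · refine div_le_div_of_nonneg_right ?_ (by positivity)
      nlinarith
    · refine subset_of_support a _ fun f => ?_
      have h := (hB (fun j => f (EuclideanSpace.single j (1 : ℝ)))).1
      simp only [apply_eq_mulVec a f, key]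
      exact h
    · rw [smul_zonotope]
      refine subset_of_support _ a fun f => ?_
      have h := (hB (fun j => f (EuclideanSpace.single j (1 : ℝ)))).2
      simp only [map_smul, smul_eq_mul, abs_mul, ← Finset.mul_sum]
      rw [abs_of_pos (by linarith : (0 : ℝ) < 1 + ε)]
      simp only [apply_eq_mulVec a f, key]
      exact h
  · have hmd : (m : ℝ) ≤ d := by exact_mod_cast (not_le.mp hm).le
    refine ⟨m, a, ?_, subset_rfl, ?_⟩
    · rw [le_div_iff₀ (by positivity)]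
      have : ε ^ 2 ≤ 1 := by nlinarith
      have hm0 : (0 : ℝ) ≤ m := Nat.cast_nonneg m
      nlinarith
    · rw [smul_zonotope]
      refine subset_of_support _ a fun f => ?_
      simp only [map_smul, smul_eq_mul, abs_mul, ← Finset.mul_sum]
      rw [abs_of_pos (by linarith : (0 : ℝ) < 1 + ε)]
      have : (0 : ℝ) ≤ ∑ i, |f (a i)| := Finset.sum_nonneg fun i _ => abs_nonneg _
      nlinarith

end Pool.Agent.ZonoLin.Own
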