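import Mathlib

/-! Module ONESIDED for MP_971d29_gt: the one-sided comparison (reflection in one coordinate at a
time). -/

set_option autoImplicit false

open MeasureTheory Set

namespace ZonoLin

/-- the set of points of the cube with `∑ u i t i y ≤ L y` for all `y` -/
def osSet {ι : Type*} [Fintype ι] {Y : Type*} (t : ι → Y → ℝ) (L : Y → ℝ) : Set (ι → ℝ) :=
  {u : ι → ℝ | (∀ i, |u i| ≤ 1) ∧ ∀ y, ∑ i, u i * t i y ≤ L y}

theorem osSet_closed {ι : Type*} [Fintype ι] {Y : Type*} (t : ι → Y → ℝ) (L : Y → ℝ) :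
    IsClosed (osSet t L) := by
  have e : osSet t L = (⋂ i, {u : ι → ℝ | |u i| ≤ 1}) ∩ ⋂ y, {u : ι → ℝ | ∑ i, u i * t i y ≤ L y} := by
    ext u
    simp only [osSet, mem_ofPred_eq, mem_inter_iff, mem_iInter]
  rw [e]
  refine (isClosed_iInter fun i => ?_).inter (isClosed_iInter fun y => ?_)
  · exact isClosed_le (by fun_prop) continuous_const
  · exact isClosed_le (by fun_prop) continuous_const

/-- reflection in the coordinate `k` -/
def osRefl {ι : Type*} [DecidableEq ι] (k : ι) (u : ι → ℝ) : ι → ℝ :=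
  fun i => (if i = k then Neg.neg else id) (u i)

theorem osRefl_self {ι : Type*} [DecidableEq ι] (k : ι) (u : ι → ℝ) : osRefl k u k = - u k := by
  simp [osRefl]

theorem osRefl_ne {ι : Type*} [DecidableEq ι] {k i : ι} (h : i ≠ k) (u : ι → ℝ) :
    osRefl k u i = u i := by
  simp [osRefl, h]

theorem osRefl_mp {ι : Type*} [DecidableEq ι] [Fintype ι] (k : ι) :
    MeasurePreserving (osRefl k : (ι → ℝ) → (ι → ℝ)) := by
  refine volume_preserving_pi (f := fun i => (if i = k then Neg.neg else id : ℝ → ℝ)) fun i => ?_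
  split_ifs
  · exact Measure.measurePreserving_neg volume
  · exact MeasurePreserving.id volume

theorem os_step {ι : Type*} [Fintype ι] [DecidableEq ι] {Y : Type*} (t t' : ι → Y → ℝ)
    (L : Y → ℝ) (k : ι) (hk : ∀ y, t' k y = |t k y|) (hne : ∀ i ≠ k, ∀ y, t' i y = t i y) :
    (volume : Measure (ι → ℝ)) (osSet t L) ≤ volume (osSet t' L) := by
  have hsum : ∀ (u : ι → ℝ) (y : Y), ∑ i, u i * t i y =
      u k * t k y + ∑ i ∈ Finset.univ.erase k, u i * t i y := fun u y =>
    (Finset.add_sum_erase _ (fun i => u i * t i y) (Finset.mem_univ k)).symm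
  have hsum' : ∀ (u : ι → ℝ) (y : Y), ∑ i, u i * t' i y =
      u k * |t k y| + ∑ i ∈ Finset.univ.erase k, u i * t i y := by
    intro u y
    rw [← Finset.add_sum_erase _ (fun i => u i * t' i y) (Finset.mem_univ k)]
    simp only [hk]
    congr 1
    refine Finset.sum_congr rfl fun i hi => ?_
    rw [hne i (Finset.ne_of_mem_erase hi)]
  have hsumR : ∀ (u : ι → ℝ) (y : Y), ∑ i, osRefl k u i * t i y =
      - u k * t k y + ∑ i ∈ Finset.univ.erase k, u i * t i y := by
    intro u y
    rw [hsum, osRefl_self]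
    congr 1
    refine Finset.sum_congr rfl fun i hi => ?_
    rw [osRefl_ne (Finset.ne_of_mem_erase hi)]
  have hcube : ∀ u : ι → ℝ, (∀ i, |osRefl k u i| ≤ 1) ↔ ∀ i, |u i| ≤ 1 := by
    intro u
    refine forall_congr' fun i => ?_
    by_cases h : i = k
    · subst h; rw [osRefl_self, abs_neg]
    · rw [osRefl_ne h]
  set A := osSet t L with hA
  set B := osSet t' L with hB
  set A' := osRefl k ⁻¹' A with hA'
  have mA : MeasurableSet A := (osSet_closed t L).measurableSet
  have mA' : MeasurableSet A' := (osRefl_mp k).measurable mA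
  set P : Set (ι → ℝ) := {u | 0 < u k} with hP
  set N : Set (ι → ℝ) := {u | u k < 0} with hN
  set Z : Set (ι → ℝ) := {u | u k = 0} with hZ
  have mP : MeasurableSet P := measurableSet_lt measurable_const (measurable_pi_apply k)
  have mN : MeasurableSet N := measurableSet_lt (measurable_pi_apply k) measurable_const
  have mZ : MeasurableSet Z := (measurable_pi_apply k) (measurableSet_singleton 0)
  have vZ : (volume : Measure (ι → ℝ)) Z = 0 := by
    rw [hZ, volume_pi]
    exact Measure.pi_hyperplane _ k 0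
  -- membership
  have iA : ∀ u, u ∈ A ↔ (∀ i, |u i| ≤ 1) ∧
      ∀ y, u k * t k y + ∑ i ∈ Finset.univ.erase k, u i * t i y ≤ L y := by
    intro u
    simp only [hA, osSet, mem_ofPred_eq, hsum]
  have iA' : ∀ u, u ∈ A' ↔ (∀ i, |u i| ≤ 1) ∧
      ∀ y, - u k * t k y + ∑ i ∈ Finset.univ.erase k, u i * t i y ≤ L y := by
    intro u
    simp only [hA', mem_preimage, hA, osSet, mem_ofPred_eq, hsumR, hcube]
  have iB : ∀ u, u ∈ B ↔ (∀ i, |u i| ≤ 1) ∧
      ∀ y, u k * |t k y| + ∑ i ∈ Finset.univ.erase k, u i * t i y ≤ L y := by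
    intro u
    simp only [hB, osSet, mem_ofPred_eq, hsum']
  have sub1 : (A ∩ A') ∩ P ⊆ B := by
    rintro u ⟨⟨h1, h2⟩, h3⟩
    rw [iA] at h1
    rw [iA'] at h2
    rw [iB]
    refine ⟨h1.1, fun y => ?_⟩
    have e1 := h1.2 y
    have e2 := h2.2 y
    rcases abs_choice (t k y) with h | h <;> rw [h]
    · exact e1
    · linarith
  have sub2 : (A ∪ A') ∩ N ⊆ B := by
    rintro u ⟨h1, h3⟩
    have h3' : u k < 0 := h3
    rw [iB]
    have e3 : ∀ y, u k * |t k y| ≤ u k * t k y := fun y =>
      mul_le_mul_of_nonpos_left (le_abs_self _) h3'.le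
    have e4 : ∀ y, u k * |t k y| ≤ - u k * t k y := fun y => by
      have := mul_le_mul_of_nonpos_left (neg_le_abs (t k y)) h3'.le
      linarith
    rcases h1 with h1 | h1
    · rw [iA] at h1
      exact ⟨h1.1, fun y => by linarith [h1.2 y, e3 y]⟩
    · rw [iA'] at h1
      exact ⟨h1.1, fun y => by linarith [h1.2 y, e4 y]⟩
  have hinv : ∀ u, osRefl k (osRefl k u) = u := by
    intro u
    funext i
    by_cases h : i = k
    · subst h; rw [osRefl_self, osRefl_self, neg_neg]
    · rw [osRefl_ne h, osRefl_ne h]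
  -- volumes
  have v1 : volume (A ∩ N) = volume (A' ∩ P) := by
    rw [← (osRefl_mp k).measure_preimage (mA.inter mN).nullMeasurableSet]
    congr 1
    ext u
    simp only [mem_preimage, mem_inter_iff, hA', hN, hP, mem_ofPred_eq, osRefl_self, neg_lt_zero]
  have v2 : volume ((A ∪ A') ∩ N) = volume ((A ∪ A') ∩ P) := by
    rw [← (osRefl_mp k).measure_preimage ((mA.union mA').inter mN).nullMeasurableSet]
    congr 1
    ext u
    simp only [mem_preimage, mem_inter_iff, mem_union, hA', hN, hP, mem_ofPred_eq, osRefl_self,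
      neg_lt_zero, hinv]
    tauto
  have v3 : volume A ≤ volume (A ∩ P) + volume (A ∩ N) := by
    have : A ⊆ ((A ∩ P) ∪ (A ∩ N)) ∪ Z := by
      intro u hu
      rcases lt_trichotomy (u k) 0 with h | h | h
      · exact Or.inl (Or.inr ⟨hu, h⟩)
      · exact Or.inr h
      · exact Or.inl (Or.inl ⟨hu, h⟩)
    calc volume A ≤ volume (((A ∩ P) ∪ (A ∩ N)) ∪ Z) := measure_mono this
      _ ≤ volume ((A ∩ P) ∪ (A ∩ N)) + volume Z := measure_union_le _ _
      _ = volume ((A ∩ P) ∪ (A ∩ N)) := by rw [vZ, add_zero]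
      _ ≤ _ := measure_union_le _ _
  have v4 : volume (A ∩ P) + volume (A' ∩ P) =
      volume ((A ∪ A') ∩ P) + volume ((A ∩ A') ∩ P) := by
    rw [← measure_union_add_inter (A ∩ P) (mA'.inter mP)]
    congr 2
    · exact (union_inter_distrib_right _ _ _).symm
    · ext u
      simp only [mem_inter_iff]
      tauto
  have v5 : volume ((A ∪ A') ∩ N) + volume ((A ∩ A') ∩ P) ≤ volume B := by
    rw [← measure_union _ ((mA.inter mA').inter mP)]
    · exact measure_mono (union_subset sub2 sub1)
    · rw [Set.disjoint_left]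
      rintro u ⟨-, h1⟩ ⟨-, h2⟩
      exact lt_asymm (show u k < 0 from h1) (show 0 < u k from h2)
  calc volume A ≤ volume (A ∩ P) + volume (A ∩ N) := v3
    _ = volume (A ∩ P) + volume (A' ∩ P) := by rw [v1]
    _ = volume ((A ∪ A') ∩ P) + volume ((A ∩ A') ∩ P) := v4
    _ = volume ((A ∪ A') ∩ N) + volume ((A ∩ A') ∩ P) := by rw [v2]
    _ ≤ volume B := v5

/-- M4: one-sided comparison. -/
theorem one_sided {ι : Type*} [Fintype ι] {Y : Type*} (t : ι → Y → ℝ) (L : Y → ℝ) :
    (volume : Measure (ι → ℝ)).real {u : ι → ℝ | (∀ i, |u i| ≤ 1) ∧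
        ∀ y, ∑ i, u i * t i y ≤ L y} ≤
      (volume : Measure (ι → ℝ)).real {u : ι → ℝ | (∀ i, |u i| ≤ 1) ∧
        ∀ y, ∑ i, u i * |t i y| ≤ L y} := by
  classical
  have key : ∀ J : Finset ι, (volume : Measure (ι → ℝ)) (osSet t L) ≤
      volume (osSet (fun i y => if i ∈ J then |t i y| else t i y) L) := by
    intro J
    induction J using Finset.induction_on with
    | empty => simp
    | insert k J hk ih =>
      refine ih.trans (os_step _ _ L k ?_ ?_)
      · intro y
        simp [hk]
      · intro i hi y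
        simp [Finset.mem_insert, hi]
  have h := key Finset.univ
  simp only [Finset.mem_univ, if_true] at h
  have hfin : volume (osSet (fun i y => |t i y|) L) ≠ ⊤ := by
    have hsub : osSet (fun i y => |t i y|) L ⊆ Set.univ.pi fun _ : ι => Set.Icc (-1 : ℝ) 1 := by
      rintro u ⟨hu, -⟩ i -
      exact abs_le.1 (hu i)
    refine ne_of_lt (lt_of_le_of_lt (measure_mono hsub) ?_)
    exact (isCompact_univ_pi fun _ => isCompact_Icc).measure_lt_top
  exact ENNReal.toReal_mono hfin h

end ZonoLin
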