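import Mathlib

/-! Module OPTTILT for MP_971d29_gt: the optimal tilt. -/

open MeasureTheory Set

namespace ZonoLin

namespace OptTiltAux

variable {ι : Type*} [Fintype ι]

/-- the polar cone of the polar of `G` -/
def Th (G : Set (ι → ℝ)) : Set (ι → ℝ) :=
  {θ | ∀ x : ι → ℝ, (∀ g ∈ G, ∑ i, g i * x i ≤ 0) → ∑ i, θ i * x i ≤ 0}

lemma isClosed_Th (G : Set (ι → ℝ)) : IsClosed (Th G) := by
  have : Th G = ⋂ x : ι → ℝ, ⋂ (_ : ∀ g ∈ G, ∑ i, g i * x i ≤ 0),
      {θ : ι → ℝ | ∑ i, θ i * x i ≤ 0} := by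
    ext θ
    simp [Th]
  rw [this]
  refine isClosed_iInter fun x => isClosed_iInter fun _ => ?_
  exact isClosed_le (by fun_prop) continuous_const

lemma Th_nonneg {G : Set (ι → ℝ)} (hG : ∀ g ∈ G, ∀ i, 0 ≤ g i) {θ : ι → ℝ} (hθ : θ ∈ Th G)
    (i : ι) : 0 ≤ θ i := by
  classical
  have h := hθ (fun j => if j = i then -1 else 0) (by
    intro g hg
    simp only [mul_ite, mul_neg, mul_one, mul_zero, Finset.sum_ite_eq', Finset.mem_univ, if_true]
    have := hG g hg i
    linarith)
  simp only [mul_ite, mul_neg, mul_one, mul_zero, Finset.sum_ite_eq', Finset.mem_univ,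
    if_true] at h
  linarith

lemma zero_mem_Th (G : Set (ι → ℝ)) : (0 : ι → ℝ) ∈ Th G := by
  intro x _
  simp

lemma add_mem_Th {G : Set (ι → ℝ)} {θ g : ι → ℝ} (hθ : θ ∈ Th G) (hg : g ∈ G) {ε : ℝ}
    (hε : 0 ≤ ε) : (fun i => θ i + ε * g i) ∈ Th G := by
  intro x hx
  have h1 := hθ x hx
  have h2 := hx g hg
  have : ∑ i, (θ i + ε * g i) * x i = ∑ i, θ i * x i + ε * ∑ i, g i * x i := by
    rw [Finset.mul_sum, ← Finset.sum_add_distrib]
    exact Finset.sum_congr rfl fun i _ => by ring
  rw [this]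
  nlinarith [mul_nonneg hε (neg_nonneg.mpr h2)]

lemma volume_Q_le {Q : Set (ι → ℝ)} (hQc : ∀ x ∈ Q, ∀ i, |x i| ≤ 1) :
    (volume : Measure (ι → ℝ)).real Q ≤ (2 : ℝ) ^ Fintype.card ι := by
  have hsub : Q ⊆ Set.Icc (fun _ => (-1 : ℝ)) (fun _ => (1 : ℝ)) := by
    intro x hx
    exact ⟨fun i => (abs_le.mp (hQc x hx i)).1, fun i => (abs_le.mp (hQc x hx i)).2⟩
  have h1 : (volume : Measure (ι → ℝ)).real (Set.Icc (fun _ => (-1 : ℝ)) (fun _ => (1 : ℝ)))
      = (2 : ℝ) ^ Fintype.card ι := by
    rw [Measure.real, Real.volume_Icc_pi_toReal (fun i => by norm_num)]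
    simp only [Finset.prod_const, Finset.card_univ]
    norm_num
  rw [← h1]
  exact measureReal_mono hsub (by
    exact (isCompact_Icc (a := (fun _ : ι => (-1 : ℝ))) (b := fun _ : ι => (1 : ℝ))).measure_ne_top)

end OptTiltAux

open OptTiltAux

/-- M6: the optimal tilt. -/
theorem optimal_tilt {ι : Type*} [Fintype ι] (Q : Set (ι → ℝ)) (hQ : IsCompact Q)
    (hQc : ∀ x ∈ Q, ∀ i, |x i| ≤ 1) (G : Set (ι → ℝ)) (hG : ∀ g ∈ G, ∀ i, 0 ≤ g i)
    (A β : ℝ) (hβ : 0 < β)
    (hF : ∀ θ : ι → ℝ, (∀ i, 0 ≤ θ i) →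
      (2 : ℝ) ^ Fintype.card ι * Real.exp (-A + β / 2 * ∑ i, θ i) ≤
        ∫ x in Q, Real.exp (∑ i, θ i * (x i + β))) :
    ∃ θ : ι → ℝ, (∀ i, 0 ≤ θ i) ∧
      (∀ x : ι → ℝ, (∀ g ∈ G, ∑ i, g i * x i ≤ 0) → ∑ i, θ i * x i ≤ 0) ∧
      β / 2 * ∑ i, θ i ≤ A ∧
      (2 : ℝ) ^ Fintype.card ι * Real.exp (-(2 * A)) ≤
        ∫ x in Q, Real.exp (∑ i, θ i * x i) ∧
      ∀ g ∈ G, 0 ≤ ∫ x in Q, Real.exp (∑ i, θ i * x i) * ∑ i, g i * (x i + β) := by
  classical
  set F : (ι → ℝ) → ℝ := fun θ => ∫ x in Q, Real.exp (∑ i, θ i * (x i + β)) with hFdef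
  have hFcont : Continuous F := by
    have hc : Continuous (Function.uncurry
        (fun (θ : ι → ℝ) (x : ι → ℝ) => Real.exp (∑ i, θ i * (x i + β)))) := by
      simp only [Function.uncurry_def]
      fun_prop
    exact continuous_parametric_integral_of_continuous hc hQ
  have hF0 : F 0 = (volume : Measure (ι → ℝ)).real Q := by
    simp [hFdef]
  have hF0le : F 0 ≤ (2 : ℝ) ^ Fintype.card ι := by
    rw [hF0]; exact volume_Q_le hQc
  have h2pos : (0 : ℝ) < (2 : ℝ) ^ Fintype.card ι := by positivity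
  have hA : 0 ≤ A := by
    have h := hF 0 (fun i => le_refl _)
    have h' : (2 : ℝ) ^ Fintype.card ι * Real.exp (-A) ≤ (2 : ℝ) ^ Fintype.card ι := by
      have h3 : (2 : ℝ) ^ Fintype.card ι * Real.exp (-A + β / 2 * ∑ i : ι, (0 : ι → ℝ) i) ≤ F 0 := h
      simp only [Pi.zero_apply, Finset.sum_const_zero, mul_zero, add_zero] at h3
      exact h3.trans hF0le
    have h4 : Real.exp (-A) ≤ 1 := by
      by_contra hcon
      push Not at hcon
      nlinarith
    have := Real.exp_le_one_iff.mp h4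
    linarith
  -- the compact set
  set K : Set (ι → ℝ) := Th G ∩ {θ | β / 2 * ∑ i, θ i ≤ A} with hKdef
  have hKclosed : IsClosed K :=
    (isClosed_Th G).inter (isClosed_le (by fun_prop) continuous_const)
  have hKsub : K ⊆ Set.Icc (fun _ => (0 : ℝ)) (fun _ => 2 * A / β) := by
    intro θ hθ
    have hnn := Th_nonneg hG hθ.1
    refine ⟨hnn, fun i => ?_⟩
    have h1 : θ i ≤ ∑ j, θ j := Finset.single_le_sum (fun j _ => hnn j) (Finset.mem_univ i)
    have h2 : β / 2 * ∑ j, θ j ≤ A := hθ.2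
    rw [le_div_iff₀ hβ]
    nlinarith
  have hKcomp : IsCompact K := isCompact_Icc.of_isClosed_subset hKclosed hKsub
  have hKne : K.Nonempty := ⟨0, zero_mem_Th G, by simpa using hA⟩
  obtain ⟨th, hthK, hthmin⟩ := hKcomp.exists_isMinOn hKne hFcont.continuousOn
  have hthnn := Th_nonneg hG hthK.1
  have hthA : β / 2 * ∑ i, th i ≤ A := hthK.2
  have hmin : ∀ θ ∈ Th G, F th ≤ F θ := by
    intro θ hθ
    by_cases hc : β / 2 * ∑ i, θ i ≤ A
    · exact hthmin (⟨hθ, hc⟩ : θ ∈ K)
    · push Not at hc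
      have h0K : (0 : ι → ℝ) ∈ K := ⟨zero_mem_Th G, by simpa using hA⟩
      have h1 : F th ≤ F 0 := hthmin h0K
      have h2 := hF θ (Th_nonneg hG hθ)
      have h3 : (1 : ℝ) ≤ Real.exp (-A + β / 2 * ∑ i, θ i) := Real.one_le_exp (by linarith)
      have h4 : (2 : ℝ) ^ Fintype.card ι ≤ F θ := by
        refine le_trans ?_ h2
        nlinarith
      linarith
  have hsplit : ∀ x : ι → ℝ, ∑ i, th i * (x i + β) = ∑ i, th i * x i + β * ∑ i, th i := by
    intro x
    rw [Finset.mul_sum, ← Finset.sum_add_distrib]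
    exact Finset.sum_congr rfl fun i _ => by ring
  have hFth : F th = (∫ x in Q, Real.exp (∑ i, th i * x i)) * Real.exp (β * ∑ i, th i) := by
    rw [hFdef, ← integral_mul_const]
    refine integral_congr_ae (Filter.Eventually.of_forall fun x => ?_)
    simp only
    rw [hsplit, Real.exp_add]
  refine ⟨th, hthnn, hthK.1, hthA, ?_, ?_⟩
  · have h1 := hF th hthnn
    have h1' : (2 : ℝ) ^ Fintype.card ι * Real.exp (-A + β / 2 * ∑ i, th i) ≤ F th := h1
    rw [hFth] at h1'
    have h2 : (∫ x in Q, Real.exp (∑ i, th i * x i)) =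
        (∫ x in Q, Real.exp (∑ i, th i * x i)) * Real.exp (β * ∑ i, th i) *
          Real.exp (-(β * ∑ i, th i)) := by
      rw [mul_assoc, ← Real.exp_add, add_neg_cancel, Real.exp_zero, mul_one]
    rw [h2]
    have h3 : (2 : ℝ) ^ Fintype.card ι * Real.exp (-A + β / 2 * ∑ i, th i) *
        Real.exp (-(β * ∑ i, th i)) ≤
        (∫ x in Q, Real.exp (∑ i, th i * x i)) * Real.exp (β * ∑ i, th i) *
          Real.exp (-(β * ∑ i, th i)) :=
      mul_le_mul_of_nonneg_right h1' (Real.exp_pos _).le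
    refine le_trans ?_ h3
    rw [mul_assoc, ← Real.exp_add]
    refine mul_le_mul_of_nonneg_left (Real.exp_le_exp.mpr ?_) h2pos.le
    linarith
  · intro g hg
    have hgnn := hG g hg
    -- the weight
    set w : (ι → ℝ) → ℝ := fun x => ∑ i, g i * (x i + β) with hw
    have hwcont : Continuous w := by rw [hw]; fun_prop
    set E : (ι → ℝ) → ℝ := fun x => Real.exp (∑ i, th i * (x i + β)) with hE
    have hEcont : Continuous E := by rw [hE]; fun_prop
    set W : ℝ := (∑ i, g i * (1 + β)) + 1 with hW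
    have hWpos : 0 < W := by
      have : 0 ≤ ∑ i, g i * (1 + β) :=
        Finset.sum_nonneg fun i _ => mul_nonneg (hgnn i) (by linarith)
      linarith
    have hwle : ∀ x ∈ Q, |w x| ≤ W := by
      intro x hx
      calc |w x| ≤ ∑ i, |g i * (x i + β)| := Finset.abs_sum_le_sum_abs _ _
        _ ≤ ∑ i, g i * (1 + β) := by
            refine Finset.sum_le_sum fun i _ => ?_
            rw [abs_mul, abs_of_nonneg (hgnn i)]
            refine mul_le_mul_of_nonneg_left ?_ (hgnn i)
            calc |x i + β| ≤ |x i| + |β| := abs_add_le _ _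
              _ ≤ 1 + β := by rw [abs_of_pos hβ]; linarith [hQc x hx i]
        _ ≤ W := by linarith
    have hIE : IntegrableOn E Q := hEcont.continuousOn.integrableOn_compact hQ
    have hIEw : IntegrableOn (fun x => E x * w x) Q :=
      (hEcont.mul hwcont).continuousOn.integrableOn_compact hQ
    have key : ∀ ε : ℝ, 0 < ε → ε * W ≤ 1 →
        -(ε * W ^ 2 * F th) ≤ ∫ x in Q, E x * w x := by
      intro ε hε hεW
      have hmem := add_mem_Th hthK.1 hg hε.le
      have h1 := hmin _ hmem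
      have h2 : F (fun i => th i + ε * g i) = ∫ x in Q, E x * Real.exp (ε * w x) := by
        rw [hFdef]
        refine integral_congr_ae (Filter.Eventually.of_forall fun x => ?_)
        simp only [hE, hw]
        rw [← Real.exp_add]
        congr 1
        rw [Finset.mul_sum, ← Finset.sum_add_distrib]
        exact Finset.sum_congr rfl fun i _ => by ring
      have h3 : ∫ x in Q, E x * Real.exp (ε * w x) ≤
          ∫ x in Q, (E x + ε * (E x * w x) + ε ^ 2 * W ^ 2 * E x) := by
        refine setIntegral_mono_on ?_ ?_ hQ.measurableSet ?_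
        · exact (hEcont.mul (by fun_prop)).continuousOn.integrableOn_compact hQ
        · exact (by fun_prop : Continuous fun x =>
            (E x + ε * (E x * w x) + ε ^ 2 * W ^ 2 * E x)).continuousOn.integrableOn_compact hQ
        · intro x hx
          have hwx := hwle x hx
          have habs : |ε * w x| ≤ 1 := by
            rw [abs_mul, abs_of_pos hε]
            exact (mul_le_mul_of_nonneg_left hwx hε.le).trans hεW
          have hexp := (abs_le.mp (Real.abs_exp_sub_one_sub_id_le habs)).2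
          have hsq : (ε * w x) ^ 2 ≤ ε ^ 2 * W ^ 2 := by
            rw [mul_pow]
            refine mul_le_mul_of_nonneg_left ?_ (by positivity)
            exact sq_le_sq' (by linarith [(abs_le.mp hwx).1]) (abs_le.mp hwx).2
          have hEpos : 0 < E x := Real.exp_pos _
          have : Real.exp (ε * w x) ≤ 1 + ε * w x + ε ^ 2 * W ^ 2 := by linarith
          calc E x * Real.exp (ε * w x) ≤ E x * (1 + ε * w x + ε ^ 2 * W ^ 2) :=
                mul_le_mul_of_nonneg_left this hEpos.le
            _ = E x + ε * (E x * w x) + ε ^ 2 * W ^ 2 * E x := by ring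
      have h4 : ∫ x in Q, (E x + ε * (E x * w x) + ε ^ 2 * W ^ 2 * E x) =
          F th + ε * (∫ x in Q, E x * w x) + ε ^ 2 * W ^ 2 * F th := by
        rw [integral_add (f := fun x => E x + ε * (E x * w x)) (hIE.add (hIEw.const_mul ε))
          (hIE.const_mul _), integral_add hIE (hIEw.const_mul ε),
          integral_const_mul, integral_const_mul]
      rw [h2] at h1
      have h5 := (h1.trans h3).trans_eq h4
      have h6 : 0 ≤ ε * ((∫ x in Q, E x * w x) + ε * W ^ 2 * F th) := by nlinarith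
      have h7 := nonneg_of_mul_nonneg_right h6 hε
      linarith
    have hfin : 0 ≤ ∫ x in Q, E x * w x := by
      have hFnn : 0 ≤ F th := setIntegral_nonneg hQ.measurableSet fun x _ => (Real.exp_pos _).le
      by_contra hcon
      push Not at hcon
      set J := ∫ x in Q, E x * w x with hJ
      set M := W ^ 2 * F th + 1 with hM
      have hMpos : 0 < M := by positivity
      set ε := min (1 / W) (-J / (2 * M)) with hεdef
      have hεpos : 0 < ε := lt_min (by positivity) (by
        apply div_pos <;> linarith)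
      have hεW : ε * W ≤ 1 := by
        have : ε ≤ 1 / W := min_le_left _ _
        calc ε * W ≤ 1 / W * W := mul_le_mul_of_nonneg_right this hWpos.le
          _ = 1 := by field_simp
      have hk := key ε hεpos hεW
      have h8 : ε ≤ -J / (2 * M) := min_le_right _ _
      have h9 : ε * (2 * M) ≤ -J := by
        rwa [le_div_iff₀ (by linarith)] at h8
      have h10 : ε * W ^ 2 * F th ≤ ε * M := by
        rw [hM]; nlinarith
      nlinarith
    have hconv : ∫ x in Q, E x * w x =
        (∫ x in Q, Real.exp (∑ i, th i * x i) * ∑ i, g i * (x i + β)) *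
          Real.exp (β * ∑ i, th i) := by
      rw [← integral_mul_const]
      refine integral_congr_ae (Filter.Eventually.of_forall fun x => ?_)
      simp only [hE, hw]
      rw [hsplit, Real.exp_add]
      ring
    rw [hconv] at hfin
    exact nonneg_of_mul_nonneg_left hfin (Real.exp_pos _)

end ZonoLin
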