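import Mathlib

/-! Step 7 of the proof for MP_971d29_gt: the volume pigeonhole. -/

open MeasureTheory Set

namespace ZonoLin

/-- the number of finsets with `8 * card < m` is at most `(1.28)^m (8/7)^m`. -/
theorem pigeon_ball_count {ι : Type*} [Fintype ι] [DecidableEq ι] :
    ((Finset.univ.filter (fun s : Finset ι => 8 * s.card < Fintype.card ι)).card : ℝ) ≤
      (128 / 100 * (8 / 7)) ^ Fintype.card ι := by
  classical
  have h1 : ∑ s : Finset ι, ((1 : ℝ) / 7) ^ s.card * 1 ^ (Fintype.card ι - s.card) =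
      (1 / 7 + 1) ^ Fintype.card ι := Fintype.sum_pow_mul_eq_add_pow ι (1 / 7 : ℝ) 1
  have h2 : ∑ s ∈ Finset.univ.filter (fun s : Finset ι => 8 * s.card < Fintype.card ι),
      ((100 : ℝ) / 128) ^ Fintype.card ι ≤
      ∑ s : Finset ι, ((1 : ℝ) / 7) ^ s.card * 1 ^ (Fintype.card ι - s.card) := by
    refine le_trans (Finset.sum_le_sum ?_)
      (Finset.sum_le_sum_of_subset_of_nonneg (Finset.filter_subset _ _) ?_)
    · intro s hs
      have hs' : 8 * s.card < Fintype.card ι := (Finset.mem_filter.mp hs).2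
      rw [one_pow, mul_one]
      calc ((100 : ℝ) / 128) ^ Fintype.card ι ≤ ((100 : ℝ) / 128) ^ (8 * s.card) :=
            pow_le_pow_of_le_one (by norm_num) (by norm_num) hs'.le
        _ = (((100 : ℝ) / 128) ^ 8) ^ s.card := by rw [pow_mul]
        _ ≤ ((1 : ℝ) / 7) ^ s.card := by
            apply pow_le_pow_left₀ (by positivity)
            norm_num
    · intro s _ _
      positivity
  rw [Finset.sum_const, nsmul_eq_mul, h1] at h2
  have hpos : (0 : ℝ) < (100 / 128) ^ Fintype.card ι := by positivity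
  rw [← le_div_iff₀ hpos, ← div_pow] at h2
  refine h2.trans (le_of_eq ?_)
  congr 1
  norm_num

/-- Some point lies in many translates. -/
theorem pigeon_point {ι : Type*} [Fintype ι] [DecidableEq ι] (hι : 0 < Fintype.card ι)
    (M : Set (ι → ℝ)) (hM : MeasurableSet M) (hMc : ∀ x ∈ M, ∀ i, |x i| ≤ 1)
    (hvol : (2 : ℝ) ^ Fintype.card ι * (10 / 11) ^ Fintype.card ι *
      Real.exp (-(8 / 100) * Fintype.card ι) ≤ (volume : Measure (ι → ℝ)).real M) :
    ∃ p : ι → ℝ, ∃ T : Finset (Finset ι),
      (∀ s ∈ T, (fun i => (p i - (if i ∈ s then 1 else 0)) / 10) ∈ M) ∧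
      (128 / 100 * (8 / 7) : ℝ) ^ Fintype.card ι < T.card := by
  classical
  set m := Fintype.card ι with hm
  set B : ℝ := (128 / 100 * (8 / 7)) ^ m with hB
  have hBnn : 0 ≤ B := by positivity
  -- the sets
  let S : Finset ι → Set (ι → ℝ) := fun s =>
    {p | (fun i => (p i - (if i ∈ s then 1 else 0)) / 10) ∈ M}
  let f : Finset ι → (ι → ℝ) → (ι → ℝ) := fun s p i => (p i - (if i ∈ s then 1 else 0)) / 10
  have hSf : ∀ s, S s = (f s) ⁻¹' M := fun s => rfl
  have hfm : ∀ s, Measurable (f s) := by
    intro s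
    apply measurable_pi_lambda
    intro i
    exact ((measurable_pi_apply i).sub_const _).div_const _
  have hSm : ∀ s, MeasurableSet (S s) := fun s => hfm s hM
  have hSvol : ∀ s, volume (S s) = ENNReal.ofReal (10 ^ m) * volume M := by
    intro s
    have e1 : S s = (fun p : ι → ℝ => p - (fun i => if i ∈ s then (1 : ℝ) else 0)) ⁻¹'
        ((fun p : ι → ℝ => ((1 : ℝ) / 10) • p) ⁻¹' M) := by
      ext p
      simp only [S, Set.mem_ofPred_eq, Set.mem_preimage]
      have : (fun i => (p i - (if i ∈ s then (1 : ℝ) else 0)) / 10) =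
          ((1 : ℝ) / 10) • (p - (fun i => if i ∈ s then (1 : ℝ) else 0)) := by
        funext i
        simp only [Pi.smul_apply, Pi.sub_apply, smul_eq_mul]
        ring
      rw [this]
    rw [e1]
    simp only [sub_eq_add_neg]
    rw [measure_preimage_add_right, Measure.addHaar_preimage_smul _ (by norm_num)]
    congr 2
    rw [Module.finrank_pi, ← hm]
    rw [← inv_pow, abs_of_pos (by positivity)]
    norm_num
  have hbox : ∀ s, S s ⊆ Set.Icc (fun _ => (-10 : ℝ)) (fun _ => (11 : ℝ)) := by
    intro s p hp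
    have hp' := hMc _ hp
    constructor
    · intro i
      have := abs_le.mp (hp' i)
      by_cases his : i ∈ s
      · simp only [his, if_true] at this
        show (-10 : ℝ) ≤ p i
        linarith [this.1]
      · simp only [his, if_false] at this
        show (-10 : ℝ) ≤ p i
        linarith [this.1]
    · intro i
      have := abs_le.mp (hp' i)
      by_cases his : i ∈ s
      · simp only [his, if_true] at this
        show p i ≤ (11 : ℝ)
        linarith [this.2]
      · simp only [his, if_false] at this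
        show p i ≤ (11 : ℝ)
        linarith [this.2]
  have hboxvol : volume (Set.Icc (fun _ : ι => (-10 : ℝ)) (fun _ => (11 : ℝ))) =
      ENNReal.ofReal (21 ^ m) := by
    rw [Real.volume_Icc_pi]
    simp only [Finset.prod_const, Finset.card_univ]
    rw [← hm, ← ENNReal.ofReal_pow (by norm_num)]
    norm_num
  by_contra hcon
  push Not at hcon
  -- pointwise bound
  have hpt : ∀ p : ι → ℝ, (∑ s : Finset ι, (S s).indicator (fun _ => (1 : ENNReal)) p) ≤
      (Set.Icc (fun _ : ι => (-10 : ℝ)) (fun _ => (11 : ℝ))).indicator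
        (fun _ => ENNReal.ofReal B) p := by
    intro p
    by_cases hp : p ∈ Set.Icc (fun _ : ι => (-10 : ℝ)) (fun _ => (11 : ℝ))
    · rw [Set.indicator_of_mem hp]
      have hT := hcon p (Finset.univ.filter (fun s => p ∈ S s)) (by
        intro s hs
        exact (Finset.mem_filter.mp hs).2)
      have h3 : (∑ s : Finset ι, (S s).indicator (fun _ => (1 : ENNReal)) p) =
          ((Finset.univ.filter (fun s => p ∈ S s)).card : ENNReal) := by
        simp only [Set.indicator_apply]
        rw [Finset.sum_ite, Finset.sum_const_zero, add_zero, Finset.sum_const, nsmul_eq_mul,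
          mul_one]
      rw [h3, ← ENNReal.ofReal_natCast]
      exact ENNReal.ofReal_le_ofReal hT
    · rw [Set.indicator_of_notMem hp]
      have : ∀ s, (S s).indicator (fun _ => (1 : ENNReal)) p = 0 := by
        intro s
        rw [Set.indicator_of_notMem]
        intro h
        exact hp (hbox s h)
      simp only [this, Finset.sum_const_zero, le_refl]
  have hint := lintegral_mono (μ := (volume : Measure (ι → ℝ))) hpt
  rw [lintegral_finsetSum _ (fun s _ => measurable_const.indicator (hSm s)),
    lintegral_indicator_const measurableSet_Icc] at hint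
  simp only [lintegral_indicator_const (hSm _), one_mul, hSvol] at hint
  rw [hboxvol, Finset.sum_const, nsmul_eq_mul, Finset.card_univ, Fintype.card_finset, ← hm]
    at hint
  have hMfin : volume M ≠ ⊤ := by
    have : M ⊆ Set.Icc (fun _ : ι => (-1 : ℝ)) (fun _ => (1 : ℝ)) := by
      intro x hx
      exact ⟨fun i => (abs_le.mp (hMc x hx i)).1, fun i => (abs_le.mp (hMc x hx i)).2⟩
    refine ne_top_of_le_ne_top ?_ (measure_mono this)
    rw [Real.volume_Icc_pi]
    exact ENNReal.prod_ne_top (fun _ _ => ENNReal.ofReal_ne_top)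
  have hreal : (2 : ℝ) ^ m * (10 ^ m * (volume : Measure (ι → ℝ)).real M) ≤ B * 21 ^ m := by
    have h4 := ENNReal.toReal_mono (by
      exact ENNReal.mul_ne_top ENNReal.ofReal_ne_top ENNReal.ofReal_ne_top) hint
    rw [ENNReal.toReal_mul, ENNReal.toReal_mul, ENNReal.toReal_mul,
      ENNReal.toReal_ofReal (by positivity), ENNReal.toReal_ofReal hBnn,
      ENNReal.toReal_ofReal (by positivity)] at h4
    simpa [Measure.real] using h4
  have hexp : Real.exp (-(8 / 100) * (m : ℝ)) = (Real.exp (-(8 / 100))) ^ m := by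
    rw [← Real.exp_nat_mul]
    congr 1
    ring
  rw [hexp] at hvol
  have h5 : (2 : ℝ) ^ m * (10 ^ m * (2 ^ m * (10 / 11) ^ m * (Real.exp (-(8 / 100))) ^ m)) ≤
      B * 21 ^ m := by
    refine le_trans ?_ hreal
    gcongr
  rw [← mul_pow, ← mul_pow, ← mul_pow, ← mul_pow, hB, ← mul_pow] at h5
  have h6 : (92 : ℝ) / 100 ≤ Real.exp (-(8 / 100)) := by
    have := Real.add_one_le_exp (-(8 / 100) : ℝ)
    linarith
  have h7 : (128 / 100 * (8 / 7) * 21 : ℝ) <
      2 * (10 * (2 * (10 / 11) * Real.exp (-(8 / 100)))) := by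
    nlinarith [h6]
  have h8 := pow_lt_pow_left₀ h7 (by positivity) (by omega : m ≠ 0)
  linarith

/-- M8: volume pigeonhole. -/
theorem pigeonhole_colouring {ι : Type*} [Fintype ι] (hι : 0 < Fintype.card ι)
    (M : Set (ι → ℝ)) (hM : MeasurableSet M) (hMc : ∀ x ∈ M, ∀ i, |x i| ≤ 1)
    (hvol : (2 : ℝ) ^ Fintype.card ι * (10 / 11) ^ Fintype.card ι *
      Real.exp (-(8 / 100) * Fintype.card ι) ≤ (volume : Measure (ι → ℝ)).real M) :
    ∃ y : ι → ℤ, (∀ i, y i = -1 ∨ y i = 0 ∨ y i = 1) ∧
      (Fintype.card ι : ℝ) / 16 ≤ ((Finset.univ.filter (fun i => y i = -1)).card : ℝ) ∧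
      ∃ x ∈ M, ∃ x' ∈ M, ∀ i, (y i : ℝ) = 10 * (x' i - x i) := by
  classical
  obtain ⟨p, T, hT, hcard⟩ := pigeon_point hι M hM hMc hvol
  have hBpos : (0 : ℝ) < (128 / 100 * (8 / 7)) ^ Fintype.card ι := by positivity
  have hTne : T.Nonempty := by
    rw [← Finset.card_pos]
    exact_mod_cast hBpos.trans hcard
  obtain ⟨s0, hs0⟩ := hTne
  -- some s1 in T far away from s0
  have hex : ∃ s1 ∈ T, Fintype.card ι ≤ 8 * (symmDiff s0 s1).card := by
    by_contra hno
    push Not at hno
    have hinj : T.card ≤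
        (Finset.univ.filter (fun s : Finset ι => 8 * s.card < Fintype.card ι)).card := by
      apply Finset.card_le_card_of_injOn (fun s => symmDiff s0 s)
      · intro s hs
        simp only [Finset.coe_filter, Finset.mem_univ, true_and, Set.mem_ofPred_eq]
        exact hno s hs
      · intro a _ b _ hab
        exact symmDiff_right_injective s0 hab
    have hc := pigeon_ball_count (ι := ι)
    have : (T.card : ℝ) ≤
        ((Finset.univ.filter (fun s : Finset ι => 8 * s.card < Fintype.card ι)).card : ℝ) := by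
      exact_mod_cast hinj
    linarith
  obtain ⟨s1, hs1, hfar⟩ := hex
  -- general construction
  have key : ∀ a b : Finset ι, a ∈ T → b ∈ T → Fintype.card ι ≤ 16 * (b \ a).card →
      ∃ y : ι → ℤ, (∀ i, y i = -1 ∨ y i = 0 ∨ y i = 1) ∧
      (Fintype.card ι : ℝ) / 16 ≤ ((Finset.univ.filter (fun i => y i = -1)).card : ℝ) ∧
      ∃ x ∈ M, ∃ x' ∈ M, ∀ i, (y i : ℝ) = 10 * (x' i - x i) := by
    intro a b ha hb hab
    refine ⟨fun i => (if i ∈ a then 1 else 0) - (if i ∈ b then 1 else 0), ?_, ?_,
      _, hT a ha, _, hT b hb, ?_⟩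
    · intro i
      by_cases h1 : i ∈ a <;> by_cases h2 : i ∈ b <;> simp [h1, h2]
    · have hfil : Finset.univ.filter (fun i : ι =>
          ((if i ∈ a then (1 : ℤ) else 0) - (if i ∈ b then 1 else 0)) = -1) = b \ a := by
        ext i
        simp only [Finset.mem_filter, Finset.mem_univ, true_and, Finset.mem_sdiff]
        by_cases h1 : i ∈ a <;> by_cases h2 : i ∈ b <;> simp [h1, h2]
      rw [hfil]
      have : (Fintype.card ι : ℝ) ≤ 16 * ((b \ a).card : ℝ) := by exact_mod_cast hab
      linarith
    · intro i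
      push_cast
      ring
  have hsum : (symmDiff s0 s1).card = (s0 \ s1).card + (s1 \ s0).card := by
    rw [symmDiff_def, Finset.sup_eq_union, Finset.card_union_of_disjoint]
    exact disjoint_sdiff_sdiff
  rcases le_or_gt (s0 \ s1).card (s1 \ s0).card with hle | hlt
  · exact key s0 s1 hs0 hs1 (by omega)
  · exact key s1 s0 hs1 hs0 (by omega)

end ZonoLin
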