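import Mathlib

/-! Module SIGNED for MP_971d29_gt: the signed event (Fubini with a Gaussian weight). -/

set_option autoImplicit false

open MeasureTheory Set
open scoped Pointwise

namespace ZonoLin

/-- reflection in the coordinate `k` -/
def sgRefl {ι : Type*} [DecidableEq ι] (k : ι) (u : ι → ℝ) : ι → ℝ :=
  fun i => (if i = k then Neg.neg else id) (u i)

theorem sgRefl_self {ι : Type*} [DecidableEq ι] (k : ι) (u : ι → ℝ) : sgRefl k u k = - u k := by
  simp [sgRefl]

theorem sgRefl_ne {ι : Type*} [DecidableEq ι] {k i : ι} (h : i ≠ k) (u : ι → ℝ) :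
    sgRefl k u i = u i := by
  simp [sgRefl, h]

theorem sgRefl_mp {ι : Type*} [DecidableEq ι] [Fintype ι] (k : ι) :
    MeasurePreserving (sgRefl k : (ι → ℝ) → (ι → ℝ)) := by
  refine volume_preserving_pi (f := fun i => (if i = k then Neg.neg else id : ℝ → ℝ)) fun i => ?_
  split_ifs
  · exact Measure.measurePreserving_neg volume
  · exact MeasurePreserving.id volume

/-- the cube -/
def sgCube (ι : Type*) : Set (ι → ℝ) := {u : ι → ℝ | ∀ i, |u i| ≤ 1}

theorem sgCube_eq (ι : Type*) : sgCube ι = Set.univ.pi fun _ : ι => Set.Icc (-1 : ℝ) 1 := by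
  ext u
  simp only [sgCube, mem_ofPred_eq, mem_univ_pi, mem_Icc, abs_le]

theorem sgCube_compact (ι : Type*) : IsCompact (sgCube ι) := by
  rw [sgCube_eq]
  exact isCompact_univ_pi fun _ => isCompact_Icc

theorem sgCube_vol (ι : Type*) [Fintype ι] :
    (volume : Measure (ι → ℝ)) (sgCube ι) = ENNReal.ofReal (2 ^ Fintype.card ι) := by
  rw [sgCube_eq, volume_pi, Measure.pi_pi]
  simp only [Real.volume_Icc, Finset.prod_const, Finset.card_univ]
  rw [ENNReal.ofReal_pow (by norm_num)]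
  norm_num

theorem sgCube_cross {ι : Type*} [Fintype ι] {i j : ι} (h : i ≠ j) :
    ∫ u in sgCube ι, u i * u j = 0 := by
  classical
  have hinv : Function.Involutive (sgRefl i : (ι → ℝ) → (ι → ℝ)) := by
    intro u
    funext k
    by_cases hk : k = i
    · subst hk; rw [sgRefl_self, sgRefl_self, neg_neg]
    · rw [sgRefl_ne hk, sgRefl_ne hk]
  have hemb : MeasurableEmbedding (sgRefl i : (ι → ℝ) → (ι → ℝ)) :=
    (MeasurableEquiv.ofInvolutive _ hinv (sgRefl_mp i).measurable).measurableEmbedding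
  have h1 := (sgRefl_mp i).setIntegral_preimage_emb hemb (fun u => u i * u j) (sgCube ι)
  have h2 : sgRefl i ⁻¹' sgCube ι = sgCube ι := by
    ext u
    simp only [mem_preimage, sgCube, mem_ofPred_eq]
    refine forall_congr' fun k => ?_
    by_cases hk : k = i
    · subst hk; rw [sgRefl_self, abs_neg]
    · rw [sgRefl_ne hk]
  rw [h2] at h1
  have h3 : ∀ u : ι → ℝ, sgRefl i u i * sgRefl i u j = -(u i * u j) := by
    intro u
    rw [sgRefl_self, sgRefl_ne h.symm]; ring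
  simp only [h3] at h1
  rw [integral_neg] at h1
  linarith

theorem sgCube_sq {ι : Type*} [Fintype ι] (i : ι) :
    ∫ u in sgCube ι, u i * u i ≤ 2 ^ Fintype.card ι := by
  have hC := sgCube_compact ι
  have h1 : ∫ u in sgCube ι, u i * u i ≤ ∫ _u in sgCube ι, (1 : ℝ) := by
    refine setIntegral_mono_on ?_ ?_ hC.measurableSet ?_
    · exact (Continuous.continuousOn (by fun_prop)).integrableOn_compact hC
    · exact continuousOn_const.integrableOn_compact hC
    · intro u hu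
      have := hu i
      rw [← abs_mul_abs_self]
      have h0 := abs_nonneg (u i)
      nlinarith
  refine h1.trans (le_of_eq ?_)
  rw [setIntegral_const, smul_eq_mul, mul_one, Measure.real, sgCube_vol, ENNReal.toReal_ofReal]
  positivity

theorem sg_moment {d : ℕ} {ι : Type*} [Fintype ι] (v : ι → EuclideanSpace ℝ (Fin d))
    (s : ι → ℝ) (hs : ∀ i, 0 ≤ s i ∧ s i ≤ 1) :
    ∫ u in sgCube ι, ‖∑ i, (s i * u i) • v i‖ ^ 2 ≤
      2 ^ Fintype.card ι * ∑ i, ‖v i‖ ^ 2 := by
  have hC := sgCube_compact ι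
  have e : ∀ u : ι → ℝ, ‖∑ i, (s i * u i) • v i‖ ^ 2 =
      ∑ i, ∑ j, (s i * s j * inner ℝ (v i) (v j)) * (u i * u j) := by
    intro u
    rw [← real_inner_self_eq_norm_sq, sum_inner]
    refine Finset.sum_congr rfl fun i _ => ?_
    rw [inner_sum]
    refine Finset.sum_congr rfl fun j _ => ?_
    rw [real_inner_smul_left, real_inner_smul_right]
    ring
  simp only [e]
  have hint : ∀ i j, IntegrableOn
      (fun u : ι → ℝ => (s i * s j * inner ℝ (v i) (v j)) * (u i * u j)) (sgCube ι) := by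
    intro i j
    exact (Continuous.continuousOn (by fun_prop)).integrableOn_compact hC
  rw [integral_finset_sum _ fun i _ => integrable_finset_sum _ fun j _ => hint i j]
  rw [Finset.mul_sum]
  refine Finset.sum_le_sum fun i _ => ?_
  rw [integral_finset_sum _ fun j _ => hint i j]
  rw [Finset.sum_eq_single i]
  · rw [integral_const_mul, real_inner_self_eq_norm_sq]
    have h1 := sgCube_sq i
    have h2 : s i * s i ≤ 1 := by nlinarith [hs i]
    have h3 : 0 ≤ s i * s i := mul_self_nonneg _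
    have h4 : 0 ≤ ∫ u in sgCube ι, u i * u i :=
      setIntegral_nonneg hC.measurableSet fun u _ => mul_self_nonneg _
    calc s i * s i * ‖v i‖ ^ 2 * ∫ u in sgCube ι, u i * u i
        ≤ 1 * ‖v i‖ ^ 2 * 2 ^ Fintype.card ι := by gcongr
      _ = _ := by ring
  · intro j _ hj
    rw [integral_const_mul, sgCube_cross hj.symm, mul_zero]
  · intro h; exact absurd (Finset.mem_univ i) h

/-- the scaled zonotope -/
def sgK {d : ℕ} {ι : Type*} [Fintype ι] (v : ι → EuclideanSpace ℝ (Fin d)) (r : ℝ) :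
    Set (EuclideanSpace ℝ (Fin d)) :=
  {z | ∃ ξ : ι → ℝ, (∀ i, |ξ i| ≤ r) ∧ z = ∑ i, ξ i • v i}

theorem sgK_compact {d : ℕ} {ι : Type*} [Fintype ι] (v : ι → EuclideanSpace ℝ (Fin d)) (r : ℝ) :
    IsCompact (sgK v r) := by
  have : sgK v r = (fun ξ : ι → ℝ => ∑ i, ξ i • v i) ''
      (Set.univ.pi fun _ : ι => Set.Icc (-r) r) := by
    ext z
    simp only [sgK, mem_ofPred_eq, mem_image, mem_univ_pi, mem_Icc, abs_le]
    constructor
    · rintro ⟨ξ, h1, h2⟩
      exact ⟨ξ, h1, h2.symm⟩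
    · rintro ⟨ξ, h1, h2⟩
      exact ⟨ξ, h1, h2.symm⟩
  rw [this]
  exact (isCompact_univ_pi fun _ => isCompact_Icc).image (by fun_prop)

theorem sgK_vol {d : ℕ} {ι : Type*} [Fintype ι] (v : ι → EuclideanSpace ℝ (Fin d)) (r : ℝ)
    (hr : 0 < r) : volume (sgK v r) = ENNReal.ofReal (r ^ d) * volume (sgK v 1) := by
  have : sgK v r = r • sgK v 1 := by
    ext z
    simp only [sgK, mem_smul_set, mem_ofPred_eq]
    constructor
    · rintro ⟨ξ, h1, rfl⟩
      refine ⟨∑ i, (ξ i / r) • v i, ⟨fun i => ξ i / r, fun i => ?_, rfl⟩, ?_⟩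
      · rw [abs_div, abs_of_pos hr]
        exact (div_le_one hr).2 (h1 i)
      · rw [Finset.smul_sum]
        refine Finset.sum_congr rfl fun i _ => ?_
        rw [smul_smul, mul_div_cancel₀ _ hr.ne']
    · rintro ⟨y, ⟨ξ, h1, rfl⟩, rfl⟩
      refine ⟨fun i => r * ξ i, fun i => ?_, ?_⟩
      · rw [abs_mul, abs_of_pos hr]
        have := mul_le_mul_of_nonneg_left (h1 i) hr.le
        linarith
      · rw [Finset.smul_sum]
        refine Finset.sum_congr rfl fun i _ => ?_
        rw [smul_smul]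
  rw [this, Measure.addHaar_smul, finrank_euclideanSpace, Fintype.card_fin,
    abs_of_pos (pow_pos hr d)]

theorem sgK_norm {d : ℕ} {ι : Type*} [Fintype ι] (v : ι → EuclideanSpace ℝ (Fin d))
    (hv : ∀ i, v i ≠ 0)
    (hL : ∀ z : EuclideanSpace ℝ (Fin d), ∑ i, (inner ℝ (v i) z) ^ 2 / ‖v i‖ = ‖z‖ ^ 2)
    (hsum : ∑ i, ‖v i‖ = (d : ℝ)) (h : ℝ) (hh : 0 < h) {z : EuclideanSpace ℝ (Fin d)}
    (hz : z ∈ sgK v (Real.sqrt h)) : ‖z‖ ^ 2 ≤ h * d := by
  obtain ⟨ξ, h1, hz⟩ := hz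
  have e1 : ‖z‖ ^ 2 = ∑ i, ξ i * inner ℝ (v i) z := by
    rw [← real_inner_self_eq_norm_sq]
    conv_lhs => rw [hz]
    rw [sum_inner]
    simp only [real_inner_smul_left]
    rw [hz]
  have hpos : ∀ i, 0 < ‖v i‖ := fun i => norm_pos_iff.2 (hv i)
  have h2 := Finset.sum_sq_le_sum_mul_sum_of_sq_eq_mul Finset.univ
    (r := fun i => ξ i * inner ℝ (v i) z) (f := fun i => ξ i ^ 2 * ‖v i‖)
    (g := fun i => (inner ℝ (v i) z) ^ 2 / ‖v i‖)
    (fun i _ => mul_nonneg (sq_nonneg _) (hpos i).le)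
    (fun i _ => div_nonneg (sq_nonneg _) (hpos i).le)
    (fun i _ => by have := (hpos i).ne'; field_simp)
  rw [← e1, hL] at h2
  have h3 : ∑ i, ξ i ^ 2 * ‖v i‖ ≤ h * d := by
    rw [← hsum, Finset.mul_sum]
    refine Finset.sum_le_sum fun i _ => mul_le_mul_of_nonneg_right ?_ (hpos i).le
    have := h1 i
    calc ξ i ^ 2 = |ξ i| ^ 2 := (sq_abs _).symm
      _ ≤ Real.sqrt h ^ 2 := pow_le_pow_left₀ (abs_nonneg _) this 2
      _ = h := Real.sq_sqrt hh.le
  rcases eq_or_ne (‖z‖ ^ 2) 0 with h0 | h0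
  · rw [h0]; positivity
  · have h4 : 0 < ‖z‖ ^ 2 := lt_of_le_of_ne (sq_nonneg _) (Ne.symm h0)
    have h5 : ‖z‖ ^ 2 * ‖z‖ ^ 2 ≤ (h * d) * ‖z‖ ^ 2 := by
      calc ‖z‖ ^ 2 * ‖z‖ ^ 2 = (‖z‖ ^ 2) ^ 2 := by ring
        _ ≤ _ := h2
        _ ≤ _ := mul_le_mul_of_nonneg_right h3 h4.le
    exact le_of_mul_le_mul_right h5 h4

theorem sg_real_lower {d : ℕ} {ι : Type*} [Fintype ι] (v : ι → EuclideanSpace ℝ (Fin d))
    (hsum : ∑ i, ‖v i‖ = (d : ℝ)) (h : ℝ) (hh : 0 < h) (hvh : ∀ i, ‖v i‖ ≤ h)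
    (s : ι → ℝ) (hs : ∀ i, 0 ≤ s i ∧ s i ≤ 1) :
    2 ^ Fintype.card ι * Real.exp (-(d / 2 : ℝ)) ≤
      ∫ u in sgCube ι, Real.exp (-((‖∑ i, (s i * u i) • v i‖ ^ 2 + h * d) / (4 * h))) := by
  have hC := sgCube_compact ι
  have hcont : Continuous fun u : ι → ℝ => ‖∑ i, (s i * u i) • v i‖ ^ 2 := by fun_prop
  have hm := sg_moment v s hs
  have hn : ∑ i, ‖v i‖ ^ 2 ≤ h * d := by
    rw [← hsum, Finset.mul_sum]
    refine Finset.sum_le_sum fun i _ => ?_
    rw [sq]
    exact mul_le_mul_of_nonneg_right (hvh i) (norm_nonneg _)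
  have h1 : ∫ u in sgCube ι, Real.exp (-(d / 2 : ℝ)) *
      ((1 + d / 4 : ℝ) - (4 * h)⁻¹ * ‖∑ i, (s i * u i) • v i‖ ^ 2) ≤
      ∫ u in sgCube ι, Real.exp (-((‖∑ i, (s i * u i) • v i‖ ^ 2 + h * d) / (4 * h))) := by
    refine setIntegral_mono_on ?_ ?_ hC.measurableSet ?_
    · exact (Continuous.continuousOn (by fun_prop)).integrableOn_compact hC
    · exact (Continuous.continuousOn (by fun_prop)).integrableOn_compact hC
    · intro u _
      have e : -((‖∑ i, (s i * u i) • v i‖ ^ 2 + h * d) / (4 * h)) =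
          -(d / 2 : ℝ) + ((d / 4 : ℝ) - (4 * h)⁻¹ * ‖∑ i, (s i * u i) • v i‖ ^ 2) := by
        field_simp
        ring
      rw [e, Real.exp_add]
      refine mul_le_mul_of_nonneg_left ?_ (Real.exp_pos _).le
      have := Real.add_one_le_exp ((d / 4 : ℝ) - (4 * h)⁻¹ * ‖∑ i, (s i * u i) • v i‖ ^ 2)
      linarith
  refine le_trans ?_ h1
  have i1 : IntegrableOn (fun _ : ι → ℝ => (1 + d / 4 : ℝ)) (sgCube ι) :=
    continuousOn_const.integrableOn_compact hC
  have i2 : IntegrableOn (fun u : ι → ℝ => (4 * h)⁻¹ * ‖∑ i, (s i * u i) • v i‖ ^ 2) (sgCube ι) :=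
    (Continuous.continuousOn (by fun_prop)).integrableOn_compact hC
  rw [integral_const_mul, integral_sub i1 i2, integral_const_mul, setIntegral_const, smul_eq_mul,
    Measure.real, sgCube_vol, ENNReal.toReal_ofReal (by positivity)]
  have h5 : (4 * h)⁻¹ * ∫ u in sgCube ι, ‖∑ i, (s i * u i) • v i‖ ^ 2 ≤
      2 ^ Fintype.card ι * (d / 4 : ℝ) := by
    calc (4 * h)⁻¹ * ∫ u in sgCube ι, ‖∑ i, (s i * u i) • v i‖ ^ 2
        ≤ (4 * h)⁻¹ * (2 ^ Fintype.card ι * (h * d)) := by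
          refine mul_le_mul_of_nonneg_left (hm.trans ?_) (by positivity)
          exact mul_le_mul_of_nonneg_left hn (by positivity)
      _ = _ := by field_simp
  have h6 : (2 : ℝ) ^ Fintype.card ι ≤ 2 ^ Fintype.card ι * (1 + d / 4 : ℝ) -
      (4 * h)⁻¹ * ∫ u in sgCube ι, ‖∑ i, (s i * u i) • v i‖ ^ 2 := by
    linarith
  calc 2 ^ Fintype.card ι * Real.exp (-(d / 2 : ℝ))
      = Real.exp (-(d / 2 : ℝ)) * 2 ^ Fintype.card ι := mul_comm _ _
    _ ≤ _ := mul_le_mul_of_nonneg_left h6 (Real.exp_pos _).le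


/-- M3: the signed event. -/
theorem signed_event {d : ℕ} (hd : 0 < d) {ι : Type*} [Fintype ι]
    (v : ι → EuclideanSpace ℝ (Fin d)) (hv : ∀ i, v i ≠ 0)
    (hL : ∀ z : EuclideanSpace ℝ (Fin d), ∑ i, (inner ℝ (v i) z) ^ 2 / ‖v i‖ = ‖z‖ ^ 2)
    (hsum : ∑ i, ‖v i‖ = (d : ℝ))
    (hvol : ENNReal.ofReal (2 ^ d) ≤
      volume {z : EuclideanSpace ℝ (Fin d) | ∃ ξ : ι → ℝ, (∀ i, |ξ i| ≤ 1) ∧
        z = ∑ i, ξ i • v i})
    (h : ℝ) (hh : 0 < h) (hvh : ∀ i, ‖v i‖ ≤ h)
    (s : ι → ℝ) (hs : ∀ i, 0 ≤ s i ∧ s i ≤ 1) :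
    ∃ z0 : EuclideanSpace ℝ (Fin d),
      (2 : ℝ) ^ Fintype.card ι * Real.exp (-(2 * (d : ℝ))) ≤
        (volume : Measure (ι → ℝ)).real {u : ι → ℝ | (∀ i, |u i| ≤ 1) ∧
          ∃ ξ : ι → ℝ, (∀ i, |ξ i| ≤ Real.sqrt h) ∧
            ∑ i, (s i * u i) • v i = z0 + ∑ i, ξ i • v i} := by
  by_contra hcon
  push Not at hcon
  set K := sgK v (Real.sqrt h) with hK
  have hKc : IsCompact K := sgK_compact v _
  have hC := sgCube_compact ι
  have hsh : 0 < Real.sqrt h := Real.sqrt_pos.2 hh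
  let X : (ι → ℝ) → EuclideanSpace ℝ (Fin d) := fun u => ∑ i, (s i * u i) • v i
  have hX : Continuous X := by fun_prop
  set c : ℝ := (2 : ℝ) ^ Fintype.card ι * Real.exp (-(2 * (d : ℝ))) with hc
  -- the sets of the statement
  have hE : ∀ w : EuclideanSpace ℝ (Fin d), {u : ι → ℝ | (∀ i, |u i| ≤ 1) ∧
          ∃ ξ : ι → ℝ, (∀ i, |ξ i| ≤ Real.sqrt h) ∧
            ∑ i, (s i * u i) • v i = w + ∑ i, ξ i • v i} = sgCube ι ∩ {u | X u - w ∈ K} := by
    intro w
    ext u
    simp only [sgCube, hK, sgK, mem_inter_iff, mem_ofPred_eq, X]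
    refine and_congr_right fun _ => exists_congr fun ξ => and_congr_right fun _ => ?_
    rw [sub_eq_iff_eq_add, add_comm w]
  simp only [hE] at hcon
  have hcon' : ∀ w : EuclideanSpace ℝ (Fin d),
      volume (sgCube ι ∩ {u | X u - w ∈ K}) ≤ ENNReal.ofReal c := by
    intro w
    have hfin : volume (sgCube ι ∩ {u | X u - w ∈ K}) ≠ ⊤ :=
      ne_of_lt (lt_of_le_of_lt (measure_mono inter_subset_left) hC.measure_lt_top)
    rw [← ENNReal.ofReal_toReal hfin]
    exact ENNReal.ofReal_le_ofReal (hcon w).le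
  let b : ℝ := 1 / (8 * h)
  have hb : 0 < b := by positivity
  let g : EuclideanSpace ℝ (Fin d) → ℝ := fun w => Real.exp (-b * ‖w‖ ^ 2)
  have hgc : Continuous g := by fun_prop
  have hgi : ∫ w, g w = (Real.pi / b) ^ ((d : ℝ) / 2) := by
    have := GaussianFourier.integral_rexp_neg_mul_sq_norm (V := EuclideanSpace ℝ (Fin d)) hb
    rw [finrank_euclideanSpace, Fintype.card_fin] at this
    exact this
  have hgint : Integrable g := by
    by_contra hni
    rw [integral_undef hni] at hgi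
    have : 0 < (Real.pi / b) ^ ((d : ℝ) / 2) := Real.rpow_pos_of_pos (by positivity) _
    linarith
  have hgl : ∫⁻ w, ENNReal.ofReal (g w) = ENNReal.ofReal ((Real.pi / b) ^ ((d : ℝ) / 2)) := by
    rw [← hgi, ofReal_integral_eq_lintegral_ofReal hgint]
    exact Filter.Eventually.of_forall fun w => (Real.exp_pos _).le
  -- the joint set
  set S : Set (EuclideanSpace ℝ (Fin d) × (ι → ℝ)) := {p | p.2 ∈ sgCube ι ∧ X p.2 - p.1 ∈ K}
    with hS
  have hSc : IsClosed S := by
    refine (hC.isClosed.preimage continuous_snd).inter (hKc.isClosed.preimage ?_)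
    exact (hX.comp continuous_snd).sub continuous_fst
  have hSm : MeasurableSet S := hSc.measurableSet
  let F : EuclideanSpace ℝ (Fin d) → (ι → ℝ) → ENNReal := fun w u =>
    S.indicator (fun p => ENNReal.ofReal (g p.1)) (w, u)
  have hFm : Measurable (Function.uncurry F) := by
    have : Function.uncurry F = S.indicator (fun p => ENNReal.ofReal (g p.1)) := by
      funext p; rfl
    rw [this]
    exact ((hgc.measurable.comp measurable_fst).ennreal_ofReal).indicator hSm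
  have hswap : ∫⁻ w, ∫⁻ u, F w u = ∫⁻ u, ∫⁻ w, F w u :=
    lintegral_lintegral_swap hFm.aemeasurable
  have hup : ∫⁻ w, ∫⁻ u, F w u ≤ ENNReal.ofReal c *
      ENNReal.ofReal ((Real.pi / b) ^ ((d : ℝ) / 2)) := by
    rw [← hgl, ← lintegral_const_mul _ hgc.measurable.ennreal_ofReal]
    refine lintegral_mono fun w => ?_
    have e : ∀ u, F w u = (sgCube ι ∩ {u | X u - w ∈ K}).indicator
        (fun _ => ENNReal.ofReal (g w)) u := by
      intro u
      simp only [F]
      by_cases hu : u ∈ sgCube ι ∩ {u | X u - w ∈ K}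
      · have hu' : (w, u) ∈ S := hu
        rw [indicator_of_mem hu, indicator_of_mem hu']
      · have hu' : (w, u) ∉ S := hu
        rw [indicator_of_notMem hu, indicator_of_notMem hu']
    simp only [e]
    have hm : MeasurableSet (sgCube ι ∩ {u | X u - w ∈ K}) :=
      (hC.isClosed.inter (hKc.isClosed.preimage (hX.sub continuous_const))).measurableSet
    rw [lintegral_indicator_const hm, mul_comm]
    exact mul_le_mul_left (hcon' w) _
  have hlow : ∀ u ∈ sgCube ι, ENNReal.ofReal (Real.exp (-((‖X u‖ ^ 2 + h * d) / (4 * h)))) *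
      volume K ≤ ∫⁻ w, F w u := by
    intro u hu
    have hm : MeasurableSet {w | X u - w ∈ K} :=
      (hKc.isClosed.preimage (continuous_const.sub continuous_id)).measurableSet
    have hvK : volume {w | X u - w ∈ K} = volume K := by
      have := (Measure.measurePreserving_sub_left volume (X u)).measure_preimage
        hKc.isClosed.measurableSet.nullMeasurableSet
      exact this
    rw [← hvK, ← lintegral_indicator_const hm]
    refine lintegral_mono fun w => ?_
    by_cases hw : X u - w ∈ K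
    · have h1 : (w, u) ∈ S := ⟨hu, hw⟩
      have h2 : w ∈ {w | X u - w ∈ K} := hw
      simp only [F]
      rw [indicator_of_mem h1, indicator_of_mem h2]
      refine ENNReal.ofReal_le_ofReal (Real.exp_le_exp.2 ?_)
      have h3 := sgK_norm v hv hL hsum h hh hw
      have h4 : ‖w‖ ^ 2 ≤ 2 * ‖X u‖ ^ 2 + 2 * ‖X u - w‖ ^ 2 := by
        have h5 : ‖w‖ ≤ ‖X u‖ + ‖X u - w‖ := by
          calc ‖w‖ = ‖X u - (X u - w)‖ := by rw [sub_sub_cancel]
            _ ≤ _ := norm_sub_le _ _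
        have h6 := norm_nonneg w
        nlinarith [sq_nonneg (‖X u‖ - ‖X u - w‖), norm_nonneg (X u), norm_nonneg (X u - w)]
      have h5 : b * ‖w‖ ^ 2 ≤ b * (2 * ‖X u‖ ^ 2 + 2 * (h * d)) :=
        mul_le_mul_of_nonneg_left (by linarith) hb.le
      have h6 : b * (2 * ‖X u‖ ^ 2 + 2 * (h * d)) = (‖X u‖ ^ 2 + h * d) / (4 * h) := by
        simp only [b]
        field_simp
        ring
      linarith
    · have h2 : w ∉ {w | X u - w ∈ K} := hw
      rw [indicator_of_notMem h2]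
      exact zero_le
  have htot : ENNReal.ofReal (2 ^ Fintype.card ι * Real.exp (-(d / 2 : ℝ))) * volume K ≤
      ∫⁻ u, ∫⁻ w, F w u := by
    have hcont : Continuous fun u : ι → ℝ => Real.exp (-((‖X u‖ ^ 2 + h * d) / (4 * h))) := by
      fun_prop
    calc ENNReal.ofReal (2 ^ Fintype.card ι * Real.exp (-(d / 2 : ℝ))) * volume K
        ≤ ENNReal.ofReal (∫ u in sgCube ι, Real.exp (-((‖X u‖ ^ 2 + h * d) / (4 * h)))) *
            volume K := by
          gcongr
          exact sg_real_lower v hsum h hh hvh s hs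
      _ = (∫⁻ u in sgCube ι, ENNReal.ofReal (Real.exp (-((‖X u‖ ^ 2 + h * d) / (4 * h))))) *
            volume K := by
          rw [ofReal_integral_eq_lintegral_ofReal]
          · exact hcont.continuousOn.integrableOn_compact hC
          · exact Filter.Eventually.of_forall fun w => (Real.exp_pos _).le
      _ = ∫⁻ u in sgCube ι, ENNReal.ofReal (Real.exp (-((‖X u‖ ^ 2 + h * d) / (4 * h)))) *
            volume K := by
          rw [lintegral_mul_const _ hcont.measurable.ennreal_ofReal]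
      _ ≤ ∫⁻ u in sgCube ι, ∫⁻ w, F w u :=
          setLIntegral_mono' hC.measurableSet fun u hu => hlow u hu
      _ ≤ ∫⁻ u, ∫⁻ w, F w u := setLIntegral_le_lintegral _ _
  have hKv : ENNReal.ofReal (Real.sqrt h ^ d) * ENNReal.ofReal (2 ^ d) ≤ volume K := by
    rw [hK, sgK_vol v _ hsh]
    gcongr
    exact hvol
  have hfinal : ENNReal.ofReal (2 ^ Fintype.card ι * Real.exp (-(d / 2 : ℝ))) *
      (ENNReal.ofReal (Real.sqrt h ^ d) * ENNReal.ofReal (2 ^ d)) ≤
      ENNReal.ofReal c * ENNReal.ofReal ((Real.pi / b) ^ ((d : ℝ) / 2)) := by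
    calc _ ≤ ENNReal.ofReal (2 ^ Fintype.card ι * Real.exp (-(d / 2 : ℝ))) * volume K := by
          gcongr
      _ ≤ ∫⁻ u, ∫⁻ w, F w u := htot
      _ = ∫⁻ w, ∫⁻ u, F w u := hswap.symm
      _ ≤ _ := hup
  rw [← ENNReal.ofReal_mul (by positivity), ← ENNReal.ofReal_mul (by positivity),
    ← ENNReal.ofReal_mul (by positivity), ENNReal.ofReal_le_ofReal_iff (by positivity)] at hfinal
  -- numerical contradiction
  have e1 : (Real.pi / b) ^ ((d : ℝ) / 2) = Real.sqrt (Real.pi / b) ^ d := by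
    rw [Real.sqrt_eq_rpow, ← Real.rpow_natCast, ← Real.rpow_mul (by positivity)]
    congr 1
    ring
  have e2 : Real.sqrt (Real.pi / b) = Real.sqrt (8 * Real.pi) * Real.sqrt h := by
    rw [← Real.sqrt_mul (by positivity)]
    congr 1
    simp only [b]
    field_simp
  have e3 : Real.sqrt (8 * Real.pi) < 5.2 := by
    rw [Real.sqrt_lt' (by norm_num)]
    have := Real.pi_lt_d2
    nlinarith
  have e4 : (2.7 : ℝ) < Real.exp (3 / 2) := by
    have h1 := Real.exp_one_gt_d9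
    have h2 : Real.exp 1 ≤ Real.exp (3 / 2) := Real.exp_le_exp.2 (by norm_num)
    linarith
  have e5 : Real.exp (-(2 * (d : ℝ))) = Real.exp (-2) ^ d := by
    rw [← Real.exp_nat_mul]
    congr 1
    ring
  have e6 : Real.exp (-(d / 2 : ℝ)) = Real.exp (-(1 / 2)) ^ d := by
    rw [← Real.exp_nat_mul]
    congr 1
    ring
  rw [hc, e1, e2, e5, e6] at hfinal
  have e7 : Real.exp (-2) * (Real.sqrt (8 * Real.pi) * Real.sqrt h) <
      Real.exp (-(1 / 2)) * (Real.sqrt h * 2) := by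
    have h1 : Real.exp (-(1 / 2)) = Real.exp (-2) * Real.exp (3 / 2) := by
      rw [← Real.exp_add]
      congr 1
      norm_num
    rw [h1]
    have h2 : Real.sqrt (8 * Real.pi) < Real.exp (3 / 2) * 2 := by linarith
    have h3 : Real.sqrt (8 * Real.pi) * Real.sqrt h < Real.exp (3 / 2) * 2 * Real.sqrt h :=
      mul_lt_mul_of_pos_right h2 hsh
    have h4 := mul_lt_mul_of_pos_left h3 (Real.exp_pos (-2))
    linarith
  have e8 := pow_lt_pow_left₀ e7 (by positivity) hd.ne'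
  rw [mul_pow, mul_pow, mul_pow, mul_pow] at e8
  have e9 : (0 : ℝ) < 2 ^ Fintype.card ι := by positivity
  have e10 := mul_lt_mul_of_pos_left e8 e9
  rw [mul_pow] at hfinal
  linarith

end ZonoLin
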