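import Mathlib

/-! Step 4: lower bound for the tilted integral. -/

open MeasureTheory Set

namespace ZonoLin

lemma tl_one_dim (c : ℝ) :
    ∫ x in Icc (-1 : ℝ) 1, Real.exp (c * x) ≤ 2 * Real.exp (c ^ 2 / 2) := by
  rw [integral_Icc_eq_integral_Ioc, ← intervalIntegral.integral_of_le (by norm_num)]
  have hcont : ∀ c : ℝ, Continuous fun x : ℝ => Real.exp (c * x) := fun c => by fun_prop
  have h1 : ∫ x in (-1 : ℝ)..1, Real.exp (c * x) = ∫ x in (-1 : ℝ)..1, Real.exp (-c * x) := by
    have := intervalIntegral.integral_comp_neg (a := (-1 : ℝ)) (b := 1)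
      (fun x => Real.exp (c * x))
    simp only [neg_neg] at this
    rw [← this]
    congr 1
    ext x
    ring_nf
  have h2 : ∫ x in (-1 : ℝ)..1, Real.cosh (c * x) = ∫ x in (-1 : ℝ)..1, Real.exp (c * x) := by
    have e : ∀ x : ℝ, Real.cosh (c * x) = (1 / 2) * (Real.exp (c * x) + Real.exp (-c * x)) := by
      intro x
      rw [Real.cosh_eq]
      ring_nf
    simp_rw [e]
    rw [intervalIntegral.integral_const_mul, intervalIntegral.integral_add
      ((hcont c).intervalIntegrable _ _) ((hcont (-c)).intervalIntegrable _ _), ← h1]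
    ring
  rw [← h2]
  have h3 : ∫ x in (-1 : ℝ)..1, Real.cosh (c * x) ≤ ∫ x in (-1 : ℝ)..1, Real.exp (c ^ 2 / 2) := by
    refine intervalIntegral.integral_mono_on (by norm_num) ?_ ?_ ?_
    · exact (Real.continuous_cosh.comp (by fun_prop)).intervalIntegrable _ _
    · exact intervalIntegrable_const
    · intro x hx
      refine (Real.cosh_le_exp_half_sq _).trans ?_
      apply Real.exp_le_exp.mpr
      have hx2 : x ^ 2 ≤ 1 := by nlinarith [hx.1, hx.2]
      have : (c * x) ^ 2 ≤ c ^ 2 := by
        rw [mul_pow]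
        nlinarith [sq_nonneg c]
      linarith
  refine h3.trans (le_of_eq ?_)
  rw [intervalIntegral.integral_const]
  norm_num

lemma tl_cube_eq {ι : Type*} [Fintype ι] :
    {u : ι → ℝ | ∀ i, |u i| ≤ 1} = Set.pi univ fun _ : ι => Icc (-1 : ℝ) 1 := by
  ext u
  simp only [Set.mem_ofPred_eq, Set.mem_univ_pi, Set.mem_Icc, abs_le]

lemma tl_cube_compact {ι : Type*} [Fintype ι] : IsCompact {u : ι → ℝ | ∀ i, |u i| ≤ 1} := by
  rw [tl_cube_eq]
  exact isCompact_univ_pi fun _ => isCompact_Icc

lemma tl_cube {ι : Type*} [Fintype ι] (c : ι → ℝ) :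
    ∫ u in {u : ι → ℝ | ∀ i, |u i| ≤ 1}, Real.exp (∑ i, c i * u i) ≤
      (2 : ℝ) ^ Fintype.card ι * Real.exp (∑ i, (c i) ^ 2 / 2) := by
  have hm : MeasurableSet {u : ι → ℝ | ∀ i, |u i| ≤ 1} := tl_cube_compact.measurableSet
  rw [← integral_indicator hm]
  have e : ∀ u : ι → ℝ, ({u : ι → ℝ | ∀ i, |u i| ≤ 1}).indicator
      (fun u => Real.exp (∑ i, c i * u i)) u =
      ∏ i, (Icc (-1 : ℝ) 1).indicator (fun x => Real.exp (c i * x)) (u i) := by
    intro u
    by_cases h : ∀ i, |u i| ≤ 1
    · rw [indicator_of_mem (by exact h), Real.exp_sum]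
      refine Finset.prod_congr rfl fun i _ => ?_
      rw [indicator_of_mem (by simpa [abs_le] using h i)]
    · rw [indicator_of_notMem (by exact h)]
      push Not at h
      obtain ⟨i, hi⟩ := h
      symm
      apply Finset.prod_eq_zero (Finset.mem_univ i)
      rw [indicator_of_notMem]
      intro h2
      have := abs_le.mpr h2
      linarith
  simp_rw [e]
  rw [integral_fintype_prod_volume_eq_prod
    (f := fun (i : ι) (x : ℝ) => (Icc (-1 : ℝ) 1).indicator (fun x => Real.exp (c i * x)) x)]
  have h2 : (2 : ℝ) ^ Fintype.card ι * Real.exp (∑ i, (c i) ^ 2 / 2) =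
      ∏ i, (2 * Real.exp ((c i) ^ 2 / 2)) := by
    rw [Finset.prod_mul_distrib, Real.exp_sum]
    simp
  rw [h2]
  refine Finset.prod_le_prod ?_ ?_
  · intro i _
    exact integral_nonneg fun x => indicator_nonneg (fun _ _ => (Real.exp_pos _).le) _
  · intro i _
    rw [integral_indicator measurableSet_Icc]
    exact tl_one_dim (c i)

lemma tl_change {ι : Type*} [Fintype ι] (s : ι → ℝ) (hs : ∀ i, 0 < s i)
    (Q : Set (ι → ℝ)) (hQ : MeasurableSet Q) (f : (ι → ℝ) → ℝ) (hf : Continuous f) :
    ∫ x in Q, f x = (∏ i, s i) * ∫ u in {u : ι → ℝ | (fun i => s i * u i) ∈ Q},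
      f (fun i => s i * u i) := by
  classical
  have hdet : (Matrix.diagonal s).det ≠ 0 := by
    rw [Matrix.det_diagonal]
    exact Finset.prod_ne_zero_iff.mpr fun i _ => (hs i).ne'
  have hvol := Real.smul_map_diagonal_volume_pi hdet
  have hT : ∀ u : ι → ℝ, Matrix.toLin' (Matrix.diagonal s) u = fun i => s i * u i := by
    intro u
    ext i
    simp [Matrix.toLin'_apply, Matrix.mulVec_diagonal]
  have hTc : Continuous (Matrix.toLin' (Matrix.diagonal s) : (ι → ℝ) → (ι → ℝ)) :=
    LinearMap.continuous_on_pi _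
  have hpos : 0 < ∏ i, s i := Finset.prod_pos fun i _ => hs i
  calc ∫ x in Q, f x = ∫ x, Q.indicator f x := (integral_indicator hQ).symm
    _ = ∫ x, Q.indicator f x ∂(ENNReal.ofReal (abs (Matrix.diagonal s).det) •
          Measure.map (Matrix.toLin' (Matrix.diagonal s)) volume) := by rw [hvol]
    _ = (∏ i, s i) * ∫ x, Q.indicator f x ∂(Measure.map (Matrix.toLin' (Matrix.diagonal s))
          (volume : Measure (ι → ℝ))) := by
        rw [integral_smul_measure, ENNReal.toReal_ofReal (abs_nonneg _), Matrix.det_diagonal,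
          abs_of_pos hpos, smul_eq_mul]
    _ = (∏ i, s i) * ∫ u, Q.indicator f (Matrix.toLin' (Matrix.diagonal s) u) := by
        rw [integral_map hTc.measurable.aemeasurable]
        exact (hf.stronglyMeasurable.indicator hQ).aestronglyMeasurable
    _ = (∏ i, s i) * ∫ u in {u : ι → ℝ | (fun i => s i * u i) ∈ Q},
          f (fun i => s i * u i) := by
        congr 1
        have hm : MeasurableSet {u : ι → ℝ | (fun i => s i * u i) ∈ Q} := by
          have : Continuous fun u : ι → ℝ => fun i => s i * u i := by fun_prop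
          exact this.measurable hQ
        rw [← integral_indicator hm]
        congr 1
        ext u
        rw [hT]
        by_cases h : (fun i => s i * u i) ∈ Q
        · rw [indicator_of_mem h, indicator_of_mem (by exact h)]
        · rw [indicator_of_notMem h, indicator_of_notMem (by exact h)]

/-- Jensen's inequality for the exponential on a set of positive finite measure. -/
lemma tl_jensen {ι : Type*} [Fintype ι] (W : Set (ι → ℝ)) (hW : IsCompact W)
    (φ : (ι → ℝ) → ℝ) (hφ : Continuous φ) (hpos : 0 < (volume : Measure (ι → ℝ)).real W) :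
    Real.exp ((∫ u in W, φ u) / (volume : Measure (ι → ℝ)).real W) *
      (volume : Measure (ι → ℝ)).real W ≤ ∫ u in W, Real.exp (φ u) := by
  set V := (volume : Measure (ι → ℝ)).real W with hV
  set a := (∫ u in W, φ u) / V with ha
  have hi1 : IntegrableOn φ W := hφ.continuousOn.integrableOn_compact hW
  have hi2 : IntegrableOn (fun u => Real.exp (φ u)) W :=
    (Real.continuous_exp.comp hφ).continuousOn.integrableOn_compact hW
  have hfin : (volume : Measure (ι → ℝ)) W ≠ ⊤ := hW.measure_lt_top.ne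
  have hi3 : IntegrableOn (fun u => Real.exp a * (1 + (φ u - a))) W :=
    (by fun_prop : Continuous fun u => Real.exp a * (1 + (φ u - a))).continuousOn.integrableOn_compact hW
  have h1 : ∫ u in W, Real.exp a * (1 + (φ u - a)) ≤ ∫ u in W, Real.exp (φ u) := by
    refine setIntegral_mono hi3 hi2 fun u => ?_
    have := Real.add_one_le_exp (φ u - a)
    calc Real.exp a * (1 + (φ u - a)) ≤ Real.exp a * Real.exp (φ u - a) := by
          gcongr
          linarith
      _ = Real.exp (φ u) := by
          rw [← Real.exp_add]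
          ring_nf
  refine le_trans (le_of_eq ?_) h1
  rw [integral_const_mul]
  have : ∫ u in W, (1 + (φ u - a)) = V := by
    have e : (fun u => 1 + (φ u - a)) = fun u => φ u + (1 - a) := by
      ext u
      ring
    rw [e, integral_add hi1 (by
      exact continuous_const.continuousOn.integrableOn_compact hW)]
    rw [setIntegral_const, smul_eq_mul, ← hV]
    have : ∫ u in W, φ u = a * V := by
      rw [ha, div_mul_cancel₀ _ hpos.ne']
    rw [this]
    ring
  rw [this]

/-- M5: lower bound for the tilted integral. -/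
theorem tilt_lower {ι : Type*} [Fintype ι] (Q : Set (ι → ℝ)) (hQ : IsCompact Q)
    (D : ℝ) (hD : 0 < D)
    (hH : ∀ s : ι → ℝ, (∀ i, 0 ≤ s i ∧ s i ≤ 1) →
      (2 : ℝ) ^ Fintype.card ι * Real.exp (-D) ≤
        (volume : Measure (ι → ℝ)).real {u : ι → ℝ | (∀ i, |u i| ≤ 1) ∧
          (fun i => s i * u i) ∈ Q})
    (β : ℝ) (hβ : 0 < β) (θ : ι → ℝ) (hθ : ∀ i, 0 ≤ θ i) :
    (2 : ℝ) ^ Fintype.card ι * Real.exp (-(8 * D / β ^ 2 + D) + β / 2 * ∑ i, θ i) ≤
      ∫ x in Q, Real.exp (∑ i, θ i * (x i + β)) := by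
  set R := ∑ i, θ i with hR
  have hR0 : 0 ≤ R := Finset.sum_nonneg fun i _ => hθ i
  have hQm : MeasurableSet Q := hQ.measurableSet
  have h2m : (0 : ℝ) < 2 ^ Fintype.card ι := by positivity
  rcases eq_or_lt_of_le hR0 with hR1 | hRpos
  · -- all weights vanish
    have hz : ∀ i, θ i = 0 := by
      intro i
      have := (Finset.sum_eq_zero_iff_of_nonneg (fun i _ => hθ i)).mp (hR.symm.trans hR1.symm)
      exact this i (Finset.mem_univ i)
    have h1 := hH (fun _ => 1) (fun _ => ⟨zero_le_one, le_refl _⟩)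
    simp only [one_mul] at h1
    have h3 : ∫ x in Q, Real.exp (∑ i, θ i * (x i + β)) = (volume : Measure (ι → ℝ)).real Q := by
      simp [hz]
    rw [h3, ← hR1, mul_zero, add_zero]
    calc (2 : ℝ) ^ Fintype.card ι * Real.exp (-(8 * D / β ^ 2 + D))
        ≤ (2 : ℝ) ^ Fintype.card ι * Real.exp (-D) := by
          gcongr
          have : 0 ≤ 8 * D / β ^ 2 := by positivity
          linarith
      _ ≤ _ := h1
      _ ≤ (volume : Measure (ι → ℝ)).real Q := by
          refine measureReal_mono (fun u hu => hu.2) hQ.measure_lt_top.ne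
  -- main case
  set τ := β ^ 2 * R / (8 * D) with hτ
  have hτpos : 0 < τ := by positivity
  set s : ι → ℝ := fun i => if θ i ≤ τ then 1 else τ / θ i with hs
  have hs01 : ∀ i, 0 < s i ∧ s i ≤ 1 := by
    intro i
    simp only [hs]
    split_ifs with h
    · exact ⟨one_pos, le_refl _⟩
    · push Not at h
      exact ⟨div_pos hτpos (hτpos.trans h), (div_le_one (hτpos.trans h)).mpr h.le⟩
  have hsθ : ∀ i, (θ i * s i) ^ 2 ≤ τ * θ i := by
    intro i
    simp only [hs]
    split_ifs with h
    · rw [mul_one, sq]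
      exact mul_le_mul_of_nonneg_right h (hθ i)
    · push Not at h
      have hp : 0 < θ i := hτpos.trans h
      rw [mul_div_cancel₀ _ hp.ne', sq]
      exact mul_le_mul_of_nonneg_left h.le hτpos.le
  have hsexp : ∀ i, Real.exp (-(θ i / τ)) ≤ s i := by
    intro i
    simp only [hs]
    split_ifs with h
    · rw [← Real.exp_zero]
      apply Real.exp_le_exp.mpr
      have : 0 ≤ θ i / τ := div_nonneg (hθ i) hτpos.le
      linarith
    · push Not at h
      have hp : 0 < θ i := hτpos.trans h
      rw [Real.exp_neg, ← inv_div (θ i) τ]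
      apply inv_anti₀ (div_pos hp hτpos)
      have := Real.add_one_le_exp (θ i / τ)
      linarith
  have hprod : Real.exp (-(8 * D / β ^ 2)) ≤ ∏ i, s i := by
    calc Real.exp (-(8 * D / β ^ 2)) = ∏ i, Real.exp (-(θ i / τ)) := by
          rw [← Real.exp_sum, Finset.sum_neg_distrib, ← Finset.sum_div, ← hR]
          congr 2
          rw [hτ]
          field_simp
      _ ≤ ∏ i, s i := Finset.prod_le_prod (fun i _ => (Real.exp_pos _).le) fun i _ => hsexp i
  set W : Set (ι → ℝ) := {u : ι → ℝ | (∀ i, |u i| ≤ 1) ∧ (fun i => s i * u i) ∈ Q} with hW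
  have hWeq : W = {u : ι → ℝ | ∀ i, |u i| ≤ 1} ∩ (fun u : ι → ℝ => fun i => s i * u i) ⁻¹' Q := rfl
  have hWc : IsCompact W := by
    rw [hWeq]
    exact tl_cube_compact.inter_right (hQ.isClosed.preimage (by fun_prop))
  have hWm : MeasurableSet W := hWc.measurableSet
  set V := (volume : Measure (ι → ℝ)).real W with hV
  have hVlow : (2 : ℝ) ^ Fintype.card ι * Real.exp (-D) ≤ V :=
    hH s fun i => ⟨(hs01 i).1.le, (hs01 i).2⟩
  have hVpos : 0 < V := lt_of_lt_of_le (by positivity) hVlow
  set φ : (ι → ℝ) → ℝ := fun u => ∑ i, θ i * s i * u i with hφ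
  have hφc : Continuous φ := by fun_prop
  set a := (∫ u in W, φ u) / V with ha
  set r := 4 * D / (β * R) with hr
  have hrpos : 0 < r := by positivity
  -- Jensen for φ
  have hJ1 : Real.exp a * V ≤ ∫ u in W, Real.exp (φ u) := tl_jensen W hWc φ hφc hVpos
  -- Jensen for -r φ
  have hJ2 : Real.exp (-(r * a)) * V ≤ ∫ u in W, Real.exp (-(r * φ u)) := by
    have := tl_jensen W hWc (fun u => -(r * φ u)) (by fun_prop) hVpos
    have e : (∫ u in W, -(r * φ u)) / V = -(r * a) := by
      rw [integral_neg, integral_const_mul, ha]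
      ring
    rw [← hV, e] at this
    exact this
  have hcube : ∫ u in W, Real.exp (-(r * φ u)) ≤
      (2 : ℝ) ^ Fintype.card ι * Real.exp (r ^ 2 * τ * R / 2) := by
    have hcont : Continuous fun u : ι → ℝ => Real.exp (∑ i, -(r * (θ i * s i)) * u i) := by
      fun_prop
    have e : ∀ u : ι → ℝ, Real.exp (-(r * φ u)) = Real.exp (∑ i, -(r * (θ i * s i)) * u i) := by
      intro u
      congr 1
      rw [hφ]
      simp only [Finset.mul_sum, ← Finset.sum_neg_distrib]
      refine Finset.sum_congr rfl fun i _ => ?_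
      ring
    simp_rw [e]
    calc ∫ u in W, Real.exp (∑ i, -(r * (θ i * s i)) * u i)
        ≤ ∫ u in {u : ι → ℝ | ∀ i, |u i| ≤ 1}, Real.exp (∑ i, -(r * (θ i * s i)) * u i) := by
          refine setIntegral_mono_set (hcont.continuousOn.integrableOn_compact tl_cube_compact)
            (Filter.Eventually.of_forall fun u => (Real.exp_pos _).le) ?_
          exact LE.le.eventuallyLE fun u hu => hu.1
      _ ≤ (2 : ℝ) ^ Fintype.card ι * Real.exp (∑ i, (-(r * (θ i * s i))) ^ 2 / 2) := tl_cube _
      _ ≤ (2 : ℝ) ^ Fintype.card ι * Real.exp (r ^ 2 * τ * R / 2) := by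
          gcongr
          calc ∑ i, (-(r * (θ i * s i))) ^ 2 / 2 = ∑ i, r ^ 2 / 2 * (θ i * s i) ^ 2 :=
                Finset.sum_congr rfl fun i _ => by ring
            _ ≤ ∑ i, r ^ 2 / 2 * (τ * θ i) :=
                Finset.sum_le_sum fun i _ => mul_le_mul_of_nonneg_left (hsθ i) (by positivity)
            _ = r ^ 2 * τ * R / 2 := by
                rw [← Finset.mul_sum, ← Finset.mul_sum, ← hR]
                ring
  -- lower bound for the mean
  have hmean : -(β * R / 2) ≤ a := by
    have h1 : Real.exp (-(r * a)) * ((2 : ℝ) ^ Fintype.card ι * Real.exp (-D)) ≤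
        (2 : ℝ) ^ Fintype.card ι * Real.exp (r ^ 2 * τ * R / 2) :=
      (mul_le_mul_of_nonneg_left hVlow (Real.exp_pos _).le).trans (hJ2.trans hcube)
    have h2 : Real.exp (-(r * a) + -D) ≤ Real.exp (r ^ 2 * τ * R / 2) := by
      rw [Real.exp_add]
      refine le_of_mul_le_mul_left ?_ h2m
      calc (2 : ℝ) ^ Fintype.card ι * (Real.exp (-(r * a)) * Real.exp (-D))
          = Real.exp (-(r * a)) * ((2 : ℝ) ^ Fintype.card ι * Real.exp (-D)) := by ring
        _ ≤ _ := h1
    have h3 := Real.exp_le_exp.mp h2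
    have h4 : r ^ 2 * τ * R / 2 = D := by
      rw [hr, hτ]
      field_simp
      ring
    rw [h4] at h3
    have h5 : -(2 * D) ≤ r * a := by linarith
    have h6 : r * (-(β * R / 2)) = -(2 * D) := by
      rw [hr]
      field_simp
      ring
    rw [← h6] at h5
    exact le_of_mul_le_mul_left h5 hrpos
  -- change of variables
  have hchange := tl_change s (fun i => (hs01 i).1) Q hQm
    (fun x => Real.exp (∑ i, θ i * (x i + β))) (by fun_prop)
  rw [hchange]
  have e2 : ∀ u : ι → ℝ, Real.exp (∑ i, θ i * (s i * u i + β)) =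
      Real.exp (β * R) * Real.exp (φ u) := by
    intro u
    rw [← Real.exp_add]
    congr 1
    rw [hφ, hR, Finset.mul_sum, ← Finset.sum_add_distrib]
    refine Finset.sum_congr rfl fun i _ => ?_
    ring
  simp_rw [e2]
  have hbig : IsCompact {u : ι → ℝ | (fun i => s i * u i) ∈ Q} := by
    have hcl : IsClosed {u : ι → ℝ | (fun i => s i * u i) ∈ Q} :=
      hQ.isClosed.preimage (by fun_prop : Continuous fun u : ι → ℝ => fun i => s i * u i)
    have himg : {u : ι → ℝ | (fun i => s i * u i) ∈ Q} ⊆ (fun x : ι → ℝ => fun i => x i / s i) '' Q := by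
      intro u hu
      refine ⟨_, hu, ?_⟩
      ext i
      have := (hs01 i).1.ne'
      field_simp
    exact (hQ.image (by fun_prop)).of_isClosed_subset hcl himg
  have hint : IntegrableOn (fun u => Real.exp (β * R) * Real.exp (φ u))
      {u : ι → ℝ | (fun i => s i * u i) ∈ Q} :=
    (by fun_prop : Continuous fun u => Real.exp (β * R) * Real.exp (φ u)).continuousOn.integrableOn_compact hbig
  calc (2 : ℝ) ^ Fintype.card ι * Real.exp (-(8 * D / β ^ 2 + D) + β / 2 * R)
      = Real.exp (-(8 * D / β ^ 2)) * (Real.exp (β * R) * (Real.exp (-(β * R / 2)) *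
          ((2 : ℝ) ^ Fintype.card ι * Real.exp (-D)))) := by
        have : Real.exp (-(8 * D / β ^ 2 + D) + β / 2 * R) = Real.exp (-(8 * D / β ^ 2)) *
            Real.exp (β * R) * Real.exp (-(β * R / 2)) * Real.exp (-D) := by
          rw [← Real.exp_add, ← Real.exp_add, ← Real.exp_add]
          congr 1
          ring
        rw [this]
        ring
    _ ≤ (∏ i, s i) * (Real.exp (β * R) * (Real.exp a * V)) := by
        have h0 : 0 ≤ ∏ i, s i := Finset.prod_nonneg fun i _ => (hs01 i).1.le
        gcongr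
    _ ≤ (∏ i, s i) * (Real.exp (β * R) * ∫ u in W, Real.exp (φ u)) := by
        have : 0 ≤ ∏ i, s i := Finset.prod_nonneg fun i _ => (hs01 i).1.le
        gcongr
    _ = (∏ i, s i) * ∫ u in W, Real.exp (β * R) * Real.exp (φ u) := by
        rw [integral_const_mul]
    _ ≤ (∏ i, s i) * ∫ u in {u : ι → ℝ | (fun i => s i * u i) ∈ Q},
          Real.exp (β * R) * Real.exp (φ u) := by
        have : 0 ≤ ∏ i, s i := Finset.prod_nonneg fun i _ => (hs01 i).1.le
        refine mul_le_mul_of_nonneg_left ?_ this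
        refine setIntegral_mono_set hint
          (Filter.Eventually.of_forall fun u => by positivity) ?_
        exact LE.le.eventuallyLE fun u hu => hu.2

end ZonoLin
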