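import Mathlib
import Pool.Agent.Wills.BM

/-! The Prékopa–Leindler inequality on `ι → ℝ`. -/

open MeasureTheory Set

namespace ZonoLin

/-- M7a: Prékopa–Leindler. -/
theorem prekopa_leindler {ι : Type*} [Fintype ι] (f g h : (ι → ℝ) → ENNReal)
    (hf : Measurable f) (hg : Measurable g) (hh : Measurable h)
    (l : ℝ) (hl0 : 0 < l) (hl1 : l < 1)
    (hyp : ∀ x y : ι → ℝ, f x ^ (1 - l) * g y ^ l ≤ h ((1 - l) • x + l • y)) :
    (∫⁻ x, f x) ^ (1 - l) * (∫⁻ x, g x) ^ l ≤ ∫⁻ x, h x := by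
  classical
  have hpl : Pool.Agent.Wills.PL (volume : Measure (ι → ℝ)) := by
    refine Pool.Agent.Wills.PL.of_equiv
      (MeasurableEquiv.piCongrLeft (fun _ : Fin (Fintype.card ι) => ℝ) (Fintype.equivFin ι))
      (volume_measurePreserving_piCongrLeft (fun _ : Fin (Fintype.card ι) => ℝ)
        (Fintype.equivFin ι)) ?_
      (Pool.Agent.Wills.pl_pi (Fintype.card ι))
    intro a b x y
    ext i
    obtain ⟨j, rfl⟩ := (Fintype.equivFin ι).surjective i
    simp [MeasurableEquiv.piCongrLeft, Equiv.piCongrLeft_apply_apply]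
  exact hpl l hl0 hl1 f g h hf hg hh hyp

end ZonoLin
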