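import Mathlib

open MeasureTheory Set

namespace ZonoLin

theorem logconcave_concaveOn {ι : Type*} [Fintype ι] (O : Set (ι → ℝ))
    (hconv : Convex ℝ O) (ψ : (ι → ℝ) → ℝ) (hpos : ∀ w ∈ O, 0 < ψ w)
    (hlc : ∀ x ∈ O, ∀ y ∈ O, ∀ l : ℝ, 0 < l → l < 1 →
      ψ x ^ (1 - l) * ψ y ^ l ≤ ψ ((1 - l) • x + l • y)) :
    ConcaveOn ℝ O (fun w => Real.log (ψ w)) := by
  refine ⟨hconv, ?_⟩
  intro x hx y hy s t hs ht hst
  rcases hs.eq_or_lt with h0 | hs0
  · subst h0
    have : t = 1 := by linarith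
    subst this
    simp
  rcases ht.eq_or_lt with h0 | ht0
  · subst h0
    have : s = 1 := by linarith
    subst this
    simp
  have hs1 : s = 1 - t := by linarith
  subst hs1
  have h := hlc x hx y hy t ht0 (by linarith)
  have hx' := hpos x hx
  have hy' := hpos y hy
  have h2 := Real.log_le_log (by positivity) h
  rw [Real.log_mul (by positivity) (by positivity), Real.log_rpow hx', Real.log_rpow hy'] at h2
  simpa using h2

/-- M7b: a log-concave function on an open convex set `O` is bounded by an exponential supporting function at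
any point `b` of `O`. -/
theorem logconcave_support {ι : Type*} [Fintype ι] (O : Set (ι → ℝ)) (hO : IsOpen O)
    (hconv : Convex ℝ O) (ψ : (ι → ℝ) → ℝ) (hpos : ∀ w ∈ O, 0 < ψ w)
    (hlc : ∀ x ∈ O, ∀ y ∈ O, ∀ l : ℝ, 0 < l → l < 1 →
      ψ x ^ (1 - l) * ψ y ^ l ≤ ψ ((1 - l) • x + l • y))
    (b : ι → ℝ) (hb : b ∈ O) :
    ∃ p : ι → ℝ, ∀ w ∈ O, ψ w ≤ ψ b * Real.exp (∑ i, p i * (w i - b i)) := by
  classical
  have hcc := logconcave_concaveOn O hconv ψ hpos hlc
  have hcont : ContinuousOn (fun w => Real.log (ψ w)) O := hcc.continuousOn hO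
  set φ : (ι → ℝ) → ℝ := fun w => Real.log (ψ w) with hφ
  let S : Set ((ι → ℝ) × ℝ) := {q | q.1 ∈ O ∧ q.2 < φ q.1}
  have hSo : IsOpen S := by
    have h1 : ContinuousOn (fun q : (ι → ℝ) × ℝ => φ q.1 - q.2) (Prod.fst ⁻¹' O) :=
      (hcont.comp continuousOn_fst (fun q hq => hq)).sub continuousOn_snd
    have h2 := h1.isOpen_inter_preimage (hO.preimage continuous_fst) (isOpen_Ioi (a := (0 : ℝ)))
    convert h2 using 1
    ext q
    simp [S]
  have hSc : Convex ℝ S := by
    intro p hp q hq s t hs ht hst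
    refine ⟨hconv hp.1 hq.1 hs ht hst, ?_⟩
    have h1 := hcc.2 hp.1 hq.1 hs ht hst
    refine lt_of_lt_of_le ?_ h1
    rcases hs.eq_or_lt with h0 | hs0
    · subst h0
      have : t = 1 := by linarith
      subst this
      simpa using hq.2
    · have h3 : s * p.2 < s * φ p.1 := mul_lt_mul_of_pos_left hp.2 hs0
      have h4 : t * q.2 ≤ t * φ q.1 := mul_le_mul_of_nonneg_left hq.2.le ht
      simp only [Prod.snd_add, Prod.smul_snd, smul_eq_mul]
      linarith
  have hbS : (b, φ b) ∉ S := fun h => lt_irrefl _ h.2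
  obtain ⟨f, hf⟩ := geometric_hahn_banach_open_point hSc hSo hbS
  -- split the functional
  let L : (ι → ℝ) →ₗ[ℝ] ℝ := (f : (ι → ℝ) × ℝ →ₗ[ℝ] ℝ).comp (LinearMap.inl ℝ (ι → ℝ) ℝ)
  let c : ℝ := f (0, 1)
  have hfs : ∀ w s, f (w, s) = L w + c * s := by
    intro w s
    have h1 : ((w, s) : (ι → ℝ) × ℝ) = (w, 0) + s • ((0 : ι → ℝ), (1 : ℝ)) := by
      simp
    rw [h1, map_add, map_smul]
    simp [L, c, mul_comm]
  have hc : 0 < c := by
    have h1 := hf (b, φ b - 1) ⟨hb, by simp⟩
    rw [hfs, hfs] at h1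
    linarith
  have hle : ∀ w ∈ O, L w + c * φ w ≤ L b + c * φ b := by
    intro w hw
    by_contra hcon
    push Not at hcon
    have h1 := hf (w, φ w - (L w + c * φ w - (L b + c * φ b)) / c) ⟨hw, by
      simp only [sub_lt_self_iff]
      exact div_pos (by linarith) hc⟩
    rw [hfs, hfs] at h1
    have h2 : c * (φ w - (L w + c * φ w - (L b + c * φ b)) / c) =
        c * φ w - (L w + c * φ w - (L b + c * φ b)) := by
      field_simp
    linarith
  have hLe : ∀ w : ι → ℝ, L w = ∑ i, w i * L (Pi.single i 1) := by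
    intro w
    conv_lhs => rw [← Finset.univ_sum_single w]
    rw [map_sum]
    refine Finset.sum_congr rfl fun i _ => ?_
    have : (Pi.single i (w i) : ι → ℝ) = w i • Pi.single i (1 : ℝ) := by
      rw [← Pi.single_smul]; simp
    rw [this, map_smul, smul_eq_mul]
  refine ⟨fun i => -(L (Pi.single i 1)) / c, fun w hw => ?_⟩
  have h1 := hle w hw
  have h3 : ∑ i, -(L (Pi.single i 1)) / c * (w i - b i) = (L b - L w) / c := by
    rw [hLe b, hLe w, ← Finset.sum_sub_distrib, Finset.sum_div]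
    refine Finset.sum_congr rfl fun i _ => ?_
    ring
  have h4 : φ w ≤ φ b + (L b - L w) / c := by
    have : c * φ w ≤ c * (φ b + (L b - L w) / c) := by
      have h5 : c * (φ b + (L b - L w) / c) = c * φ b + (L b - L w) := by
        field_simp
      linarith
    exact le_of_mul_le_mul_left this hc
  rw [h3]
  calc ψ w = Real.exp (φ w) := (Real.exp_log (hpos w hw)).symm
    _ ≤ Real.exp (φ b + (L b - L w) / c) := Real.exp_le_exp.2 h4
    _ = ψ b * Real.exp ((L b - L w) / c) := by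
      rw [Real.exp_add, Real.exp_log (hpos b hb)]

end ZonoLin
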