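import Mathlib
import Pool.Agent.ZonoLin.PL
import Pool.Agent.ZonoLin.Support

open MeasureTheory Set

namespace ZonoLin

/-- The tilted indicator of `Q`. -/
noncomputable def tsf {ι : Type*} [Fintype ι] (Q : Set (ι → ℝ)) (θ : ι → ℝ) (x : ι → ℝ) : ℝ :=
  Q.indicator (fun x => Real.exp (∑ j, θ j * x j)) x

/-- The reflected point. -/
noncomputable def tsT {ι : Type*} (t : ℝ) (w x : ι → ℝ) : ι → ℝ :=
  fun i => ((1 + t) * w i - x i) / t

section
variable {ι : Type*} [Fintype ι]

lemma tsf_nonneg (Q : Set (ι → ℝ)) (θ x : ι → ℝ) : 0 ≤ tsf Q θ x :=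
  Set.indicator_nonneg (fun _ _ => (Real.exp_pos _).le) x

lemma tsf_of_mem {Q : Set (ι → ℝ)} {θ x : ι → ℝ} (h : x ∈ Q) :
    tsf Q θ x = Real.exp (∑ j, θ j * x j) := Set.indicator_of_mem h _

lemma tsf_of_notMem {Q : Set (ι → ℝ)} {θ x : ι → ℝ} (h : x ∉ Q) :
    tsf Q θ x = 0 := Set.indicator_of_notMem h _

lemma tsf_measurable {Q : Set (ι → ℝ)} (hQ : MeasurableSet Q) (θ : ι → ℝ) :
    Measurable (tsf Q θ) := by
  unfold tsf
  apply Measurable.indicator _ hQ
  fun_prop

lemma tsf_le {Q : Set (ι → ℝ)} (hQc : ∀ x ∈ Q, ∀ i, |x i| ≤ 1) (θ x : ι → ℝ) :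
    tsf Q θ x ≤ Real.exp (∑ j, |θ j|) := by
  by_cases h : x ∈ Q
  · rw [tsf_of_mem h]
    apply Real.exp_le_exp.mpr
    apply Finset.sum_le_sum
    intro j _
    calc θ j * x j ≤ |θ j * x j| := le_abs_self _
      _ = |θ j| * |x j| := abs_mul _ _
      _ ≤ |θ j| * 1 := by
          apply mul_le_mul_of_nonneg_left (hQc x h j) (abs_nonneg _)
      _ = |θ j| := mul_one _
  · rw [tsf_of_notMem h]; exact (Real.exp_pos _).le

lemma tsf_logconcave {Q : Set (ι → ℝ)} (hconv : Convex ℝ Q) (θ x y : ι → ℝ) {l : ℝ}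
    (hl0 : 0 < l) (hl1 : l < 1) :
    tsf Q θ x ^ (1 - l) * tsf Q θ y ^ l ≤ tsf Q θ ((1 - l) • x + l • y) := by
  by_cases hx : x ∈ Q
  · by_cases hy : y ∈ Q
    · have hz : (1 - l) • x + l • y ∈ Q := hconv hx hy (by linarith) hl0.le (by ring)
      rw [tsf_of_mem hx, tsf_of_mem hy, tsf_of_mem hz, ← Real.exp_mul, ← Real.exp_mul,
        ← Real.exp_add]
      apply le_of_eq
      congr 1
      rw [Finset.sum_mul, Finset.sum_mul, ← Finset.sum_add_distrib]
      apply Finset.sum_congr rfl
      intro j _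
      simp only [Pi.add_apply, Pi.smul_apply, smul_eq_mul]
      ring
    · rw [tsf_of_notMem hy, Real.zero_rpow hl0.ne', mul_zero]
      exact tsf_nonneg _ _ _
  · rw [tsf_of_notMem hx, Real.zero_rpow (by linarith : (1 - l) ≠ 0), zero_mul]
    exact tsf_nonneg _ _ _

omit [Fintype ι] in
lemma tsT_mem_imp {Q : Set (ι → ℝ)} (hconv : Convex ℝ Q) {t : ℝ} (ht : 0 < t) {w x : ι → ℝ}
    (hx : x ∈ Q) (hy : tsT t w x ∈ Q) : w ∈ Q := by
  have h := hconv hx hy (a := 1 / (1 + t)) (b := t / (1 + t)) (by positivity) (by positivity)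
    (by field_simp)
  convert h using 1
  funext i
  simp only [Pi.add_apply, Pi.smul_apply, smul_eq_mul, tsT]
  field_simp
  ring

omit [Fintype ι] in
lemma tsT_convex (t : ℝ) (x y w z : ι → ℝ) (l : ℝ) :
    tsT t ((1 - l) • x + l • y) ((1 - l) • w + l • z) =
      (1 - l) • tsT t x w + l • tsT t y z := by
  funext i
  simp only [Pi.add_apply, Pi.smul_apply, smul_eq_mul, tsT]
  ring

omit [Fintype ι] in
lemma tsT_continuous (t : ℝ) : Continuous (fun p : (ι → ℝ) × (ι → ℝ) => tsT t p.1 p.2) := by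
  unfold tsT
  fun_prop

/-- the convolution -/
noncomputable def tsψ (Q : Set (ι → ℝ)) (θ : ι → ℝ) (t : ℝ) (w : ι → ℝ) : ℝ :=
  ∫ x, tsf Q θ x * tsf Q θ (tsT t w x)

lemma tsψ_nonneg (Q : Set (ι → ℝ)) (θ : ι → ℝ) (t : ℝ) (w : ι → ℝ) : 0 ≤ tsψ Q θ t w :=
  integral_nonneg fun _ => mul_nonneg (tsf_nonneg _ _ _) (tsf_nonneg _ _ _)

lemma tsψ_of_notMem {Q : Set (ι → ℝ)} (hconv : Convex ℝ Q) (θ : ι → ℝ) {t : ℝ} (ht : 0 < t)
    {w : ι → ℝ} (hw : w ∉ Q) : tsψ Q θ t w = 0 := by
  unfold tsψ
  have : (fun x => tsf Q θ x * tsf Q θ (tsT t w x)) = fun _ => 0 := by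
    funext x
    by_cases hx : x ∈ Q
    · by_cases hy : tsT t w x ∈ Q
      · exact absurd (tsT_mem_imp hconv ht hx hy) hw
      · rw [tsf_of_notMem hy, mul_zero]
    · rw [tsf_of_notMem hx, zero_mul]
  rw [this, integral_zero]

lemma ts_meas {Q : Set (ι → ℝ)} (hQ : MeasurableSet Q) (θ : ι → ℝ) (t : ℝ) :
    Measurable (fun p : (ι → ℝ) × (ι → ℝ) => tsf Q θ p.2 * tsf Q θ (tsT t p.1 p.2)) :=
  ((tsf_measurable hQ θ).comp measurable_snd).mul
    ((tsf_measurable hQ θ).comp (tsT_continuous t).measurable)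

/-- integrability on the product -/
lemma ts_integrable_prod {Q : Set (ι → ℝ)} (hQ : IsCompact Q) (hconv : Convex ℝ Q)
    (hQc : ∀ x ∈ Q, ∀ i, |x i| ≤ 1) (θ : ι → ℝ) {t : ℝ} (ht : 0 < t)
    (g : (ι → ℝ) → ℝ) (hg : Measurable g) (C : ℝ) (hC : ∀ w ∈ Q, |g w| ≤ C) (hC0 : 0 ≤ C) :
    Integrable (fun p : (ι → ℝ) × (ι → ℝ) =>
      tsf Q θ p.2 * tsf Q θ (tsT t p.1 p.2) * g p.1) (volume.prod volume) := by
  set K : ℝ := Real.exp (∑ j, |θ j|) with hK
  have hKpos : 0 < K := Real.exp_pos _
  have hmeasQ : MeasurableSet Q := hQ.isClosed.measurableSet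
  have hint : Integrable ((Q ×ˢ Q).indicator (fun _ : (ι → ℝ) × (ι → ℝ) => K * K * C))
      (volume.prod volume) := by
    rw [integrable_indicator_iff (hmeasQ.prod hmeasQ)]
    apply integrableOn_const
    · rw [Measure.prod_prod]
      exact (ENNReal.mul_lt_top hQ.measure_lt_top hQ.measure_lt_top).ne
    · exact enorm_ne_top
  refine hint.mono' ?_ ?_
  · exact ((ts_meas hmeasQ θ t).mul (hg.comp measurable_fst)).aestronglyMeasurable
  · refine Filter.Eventually.of_forall fun p => ?_
    by_cases hx : p.2 ∈ Q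
    · by_cases hy : tsT t p.1 p.2 ∈ Q
      · have hw : p.1 ∈ Q := tsT_mem_imp hconv ht hx hy
        rw [Set.indicator_of_mem (Set.mk_mem_prod hw hx : p ∈ Q ×ˢ Q), Real.norm_eq_abs, abs_mul,
          abs_mul, abs_of_nonneg (tsf_nonneg _ _ _), abs_of_nonneg (tsf_nonneg _ _ _)]
        exact mul_le_mul (mul_le_mul (tsf_le hQc _ _) (tsf_le hQc _ _) (tsf_nonneg _ _ _) hKpos.le)
          (hC _ hw) (abs_nonneg _) (by positivity)
      · rw [tsf_of_notMem hy, mul_zero, zero_mul, norm_zero]
        exact Set.indicator_nonneg (fun _ _ => by positivity) _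
    · rw [tsf_of_notMem hx, zero_mul, zero_mul, norm_zero]
      exact Set.indicator_nonneg (fun _ _ => by positivity) _

lemma ts_integrable_slice {Q : Set (ι → ℝ)} (hQ : IsCompact Q)
    (hQc : ∀ x ∈ Q, ∀ i, |x i| ≤ 1) (θ : ι → ℝ) (t : ℝ) (w : ι → ℝ) :
    Integrable (fun x => tsf Q θ x * tsf Q θ (tsT t w x)) := by
  set K : ℝ := Real.exp (∑ j, |θ j|) with hK
  have hKpos : 0 < K := Real.exp_pos _
  have hmeasQ : MeasurableSet Q := hQ.isClosed.measurableSet
  have hint : Integrable (Q.indicator (fun _ : (ι → ℝ) => K * K)) volume := by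
    rw [integrable_indicator_iff hmeasQ]
    apply integrableOn_const
    · exact hQ.measure_lt_top.ne
    · exact enorm_ne_top
  refine hint.mono' ?_ ?_
  · exact ((ts_meas hmeasQ θ t).comp (measurable_const.prodMk measurable_id)).aestronglyMeasurable
  · refine Filter.Eventually.of_forall fun x => ?_
    by_cases hx : x ∈ Q
    · rw [Set.indicator_of_mem hx, Real.norm_eq_abs,
          abs_mul, abs_of_nonneg (tsf_nonneg _ _ _), abs_of_nonneg (tsf_nonneg _ _ _)]
      exact mul_le_mul (tsf_le hQc _ _) (tsf_le hQc _ _) (tsf_nonneg _ _ _) hKpos.le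
    · rw [tsf_of_notMem hx, zero_mul, norm_zero]
      exact Set.indicator_nonneg (fun _ _ => by positivity) _

/-- positivity of the convolution on the interior -/
lemma tsψ_pos {Q : Set (ι → ℝ)} (hQ : IsCompact Q)
    (hQc : ∀ x ∈ Q, ∀ i, |x i| ≤ 1) (θ : ι → ℝ) {t : ℝ} (ht : 0 < t) {w : ι → ℝ}
    (hw : w ∈ interior Q) : 0 < tsψ Q θ t w := by
  unfold tsψ
  rw [integral_pos_iff_support_of_nonneg
    (fun _ => mul_nonneg (tsf_nonneg _ _ _) (tsf_nonneg _ _ _)) (ts_integrable_slice hQ hQc θ t w)]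
  set U : Set (ι → ℝ) := interior Q ∩ (fun x => tsT t w x) ⁻¹' interior Q with hU
  have hUo : IsOpen U := by
    apply isOpen_interior.inter
    exact isOpen_interior.preimage
      ((tsT_continuous t).comp (continuous_const.prodMk continuous_id))
  have hTw : tsT t w w = w := by
    funext i; simp only [tsT]; field_simp; ring
  have hwU : w ∈ U := ⟨hw, by simpa [hTw] using hw⟩
  have hsub : U ⊆ Function.support (fun x => tsf Q θ x * tsf Q θ (tsT t w x)) := by
    intro x hx
    rw [Function.mem_support, tsf_of_mem (interior_subset hx.1),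
      tsf_of_mem (interior_subset hx.2)]
    positivity
  exact lt_of_lt_of_le (hUo.measure_pos volume ⟨w, hwU⟩) (measure_mono hsub)

/-- log-concavity of the convolution -/
lemma tsψ_logconcave {Q : Set (ι → ℝ)} (hQ : IsCompact Q) (hconv : Convex ℝ Q)
    (hQc : ∀ x ∈ Q, ∀ i, |x i| ≤ 1) (θ : ι → ℝ) (t : ℝ) (x y : ι → ℝ)
    {l : ℝ} (hl0 : 0 < l) (hl1 : l < 1) :
    tsψ Q θ t x ^ (1 - l) * tsψ Q θ t y ^ l ≤ tsψ Q θ t ((1 - l) • x + l • y) := by
  have hmeasQ : MeasurableSet Q := hQ.isClosed.measurableSet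
  have hml : ∀ w, Measurable (fun x => ENNReal.ofReal (tsf Q θ x * tsf Q θ (tsT t w x))) :=
    fun w => ENNReal.measurable_ofReal.comp
      ((ts_meas hmeasQ θ t).comp (measurable_const.prodMk measurable_id))
  have hli : ∀ w, ∫⁻ x, ENNReal.ofReal (tsf Q θ x * tsf Q θ (tsT t w x)) =
      ENNReal.ofReal (tsψ Q θ t w) := fun w =>
    (ofReal_integral_eq_lintegral_ofReal (ts_integrable_slice hQ hQc θ t w)
      (Filter.Eventually.of_forall fun _ =>
        mul_nonneg (tsf_nonneg _ _ _) (tsf_nonneg _ _ _))).symm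
  have hpl := prekopa_leindler
    (fun z => ENNReal.ofReal (tsf Q θ z * tsf Q θ (tsT t x z)))
    (fun z => ENNReal.ofReal (tsf Q θ z * tsf Q θ (tsT t y z)))
    (fun z => ENNReal.ofReal (tsf Q θ z * tsf Q θ (tsT t ((1 - l) • x + l • y) z)))
    (hml x) (hml y) (hml _) l hl0 hl1 (by
      intro u v
      rw [ENNReal.ofReal_rpow_of_nonneg (mul_nonneg (tsf_nonneg _ _ _) (tsf_nonneg _ _ _))
        (by linarith), ENNReal.ofReal_rpow_of_nonneg
        (mul_nonneg (tsf_nonneg _ _ _) (tsf_nonneg _ _ _)) hl0.le,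
        ← ENNReal.ofReal_mul (Real.rpow_nonneg
          (mul_nonneg (tsf_nonneg _ _ _) (tsf_nonneg _ _ _)) _)]
      apply ENNReal.ofReal_le_ofReal
      rw [tsT_convex, Real.mul_rpow (tsf_nonneg _ _ _) (tsf_nonneg _ _ _),
        Real.mul_rpow (tsf_nonneg _ _ _) (tsf_nonneg _ _ _)]
      have h1 := tsf_logconcave hconv θ u v hl0 hl1
      have h2 := tsf_logconcave hconv θ (tsT t x u) (tsT t y v) hl0 hl1
      calc _ = (tsf Q θ u ^ (1 - l) * tsf Q θ v ^ l) *
            (tsf Q θ (tsT t x u) ^ (1 - l) * tsf Q θ (tsT t y v) ^ l) := by ring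
        _ ≤ _ := by
          apply mul_le_mul h1 h2 _ (tsf_nonneg _ _ _)
          exact mul_nonneg (Real.rpow_nonneg (tsf_nonneg _ _ _) _)
            (Real.rpow_nonneg (tsf_nonneg _ _ _) _))
  rw [hli, hli, hli, ENNReal.ofReal_rpow_of_nonneg (tsψ_nonneg _ _ _ _) (by linarith),
    ENNReal.ofReal_rpow_of_nonneg (tsψ_nonneg _ _ _ _) hl0.le,
    ← ENNReal.ofReal_mul (Real.rpow_nonneg (tsψ_nonneg _ _ _ _) _)] at hpl
  exact (ENNReal.ofReal_le_ofReal_iff (tsψ_nonneg _ _ _ _)).mp hpl

/-- Fubini -/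
lemma ts_fubini {Q : Set (ι → ℝ)} (hQ : IsCompact Q) (hconv : Convex ℝ Q)
    (hQc : ∀ x ∈ Q, ∀ i, |x i| ≤ 1) (θ : ι → ℝ) {t : ℝ} (ht : 0 < t)
    (g : (ι → ℝ) → ℝ) (hg : Measurable g) (C : ℝ) (hC : ∀ w ∈ Q, |g w| ≤ C) (hC0 : 0 ≤ C) :
    ∫ w, tsψ Q θ t w * g w =
      (t / (1 + t)) ^ Fintype.card ι *
        ∫ x, tsf Q θ x * ∫ y, tsf Q θ y * g ((1 / (1 + t)) • x + (t / (1 + t)) • y) := by
  have h1 : ∫ w, tsψ Q θ t w * g w =
      ∫ w, ∫ x, tsf Q θ x * tsf Q θ (tsT t w x) * g w := by
    congr 1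
    funext w
    rw [tsψ, integral_mul_const]
  rw [h1, integral_integral_swap (ts_integrable_prod hQ hconv hQc θ ht g hg C hC hC0),
    ← integral_const_mul]
  congr 1
  funext x
  have h2 : ∀ w, tsf Q θ x * tsf Q θ (tsT t w x) * g w =
      tsf Q θ x * (fun z => (fun y => tsf Q θ y *
        g ((1 / (1 + t)) • x + (t / (1 + t)) • y)) (z - (1 / t) • x)) (((1 + t) / t) • w) := by
    intro w
    have e1 : ((1 + t) / t) • w - (1 / t) • x = tsT t w x := by
      funext i
      simp only [Pi.sub_apply, Pi.smul_apply, smul_eq_mul, tsT]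
      field_simp
    have e2 : (1 / (1 + t)) • x + (t / (1 + t)) • tsT t w x = w := by
      funext i
      simp only [Pi.add_apply, Pi.smul_apply, smul_eq_mul, tsT]
      field_simp
      ring
    simp only [e1, e2]
    ring
  rw [integral_congr_ae (Filter.Eventually.of_forall h2), integral_const_mul,
    Measure.integral_comp_smul volume (fun z => (fun y => tsf Q θ y *
        g ((1 / (1 + t)) • x + (t / (1 + t)) • y)) (z - (1 / t) • x)) ((1 + t) / t),
    integral_sub_right_eq_self (fun y => tsf Q θ y *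
        g ((1 / (1 + t)) • x + (t / (1 + t)) • y))]
  rw [Module.finrank_fintype_fun_eq_card, smul_eq_mul, abs_of_pos (by positivity), ← inv_pow,
    inv_div]
  ring

lemma tsf_integrable_mul {Q : Set (ι → ℝ)} (hQ : IsCompact Q) (θ : ι → ℝ)
    (g : (ι → ℝ) → ℝ) (hg : Continuous g) : Integrable (fun y => tsf Q θ y * g y) := by
  have : (fun y => tsf Q θ y * g y) =
      Q.indicator (fun y => Real.exp (∑ j, θ j * y j) * g y) := by
    funext y
    by_cases hy : y ∈ Q
    · rw [tsf_of_mem hy, Set.indicator_of_mem hy]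
    · rw [tsf_of_notMem hy, Set.indicator_of_notMem hy, zero_mul]
  rw [this, integrable_indicator_iff hQ.isClosed.measurableSet]
  apply ContinuousOn.integrableOn_compact hQ
  fun_prop

lemma tsf_integral_mul {Q : Set (ι → ℝ)} (hQ : MeasurableSet Q) (θ : ι → ℝ)
    (g : (ι → ℝ) → ℝ) :
    ∫ y, tsf Q θ y * g y = ∫ y in Q, Real.exp (∑ j, θ j * y j) * g y := by
  rw [← integral_indicator hQ]
  congr 1
  funext y
  by_cases hy : y ∈ Q
  · rw [tsf_of_mem hy, Set.indicator_of_mem hy]
  · rw [tsf_of_notMem hy, Set.indicator_of_notMem hy, zero_mul]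

/-- The barycentre lies in the interior. -/
lemma ts_bary_mem {Q : Set (ι → ℝ)} (hQ : IsCompact Q) (hconv : Convex ℝ Q)
    (hint : (interior Q).Nonempty) (θ b : ι → ℝ)
    (hb : ∀ i, ∫ x in Q, Real.exp (∑ j, θ j * x j) * (x i - b i) = 0) :
    b ∈ interior Q := by
  by_contra hbn
  obtain ⟨φ, hφ⟩ := geometric_hahn_banach_open_point hconv.interior isOpen_interior hbn
  classical
  have hmeasQ : MeasurableSet Q := hQ.isClosed.measurableSet
  -- φ as a sum
  have hφsum : ∀ x : ι → ℝ, φ x = ∑ i, x i * φ (Pi.single i 1) := by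
    intro x
    conv_lhs => rw [pi_eq_sum_univ' x]
    rw [map_sum]
    apply Finset.sum_congr rfl
    intro i _
    rw [map_smul, smul_eq_mul]
  have hzero : ∫ x in Q, Real.exp (∑ j, θ j * x j) * (φ b - φ x) = 0 := by
    have e : ∀ x : ι → ℝ, Real.exp (∑ j, θ j * x j) * (φ b - φ x) =
        ∑ i, -(φ (Pi.single i 1)) * (Real.exp (∑ j, θ j * x j) * (x i - b i)) := by
      intro x
      rw [hφsum x, hφsum b, ← Finset.sum_sub_distrib, Finset.mul_sum]
      apply Finset.sum_congr rfl
      intro i _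
      ring
    simp_rw [e]
    rw [integral_finsetSum]
    · apply Finset.sum_eq_zero
      intro i _
      rw [integral_const_mul, hb i, mul_zero]
    · intro i _
      apply Integrable.const_mul
      apply ContinuousOn.integrableOn_compact hQ
      fun_prop
  have hpos : 0 < ∫ x in Q, Real.exp (∑ j, θ j * x j) * (φ b - φ x) := by
    have hae : (interior Q : Set (ι → ℝ)) =ᵐ[volume] Q := by
      have hfr : volume (frontier Q) = 0 := hconv.addHaar_frontier volume
      exact interior_ae_eq_of_null_frontier hfr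
    rw [← setIntegral_congr_set hae]
    have hio : IntegrableOn (fun x => Real.exp (∑ j, θ j * x j) * (φ b - φ x))
        (interior Q) volume := by
      apply IntegrableOn.mono_set _ interior_subset
      apply ContinuousOn.integrableOn_compact hQ
      fun_prop
    rw [setIntegral_pos_iff_support_of_nonneg_ae _ hio]
    · have hsub : interior Q ⊆ Function.support
          (fun x => Real.exp (∑ j, θ j * x j) * (φ b - φ x)) ∩ interior Q := by
        intro x hx
        refine ⟨?_, hx⟩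
        rw [Function.mem_support]
        have := hφ x hx
        have h2 : 0 < φ b - φ x := by linarith
        positivity
      exact lt_of_lt_of_le (isOpen_interior.measure_pos volume hint) (measure_mono hsub)
    · rw [Filter.EventuallyLE, ae_restrict_iff' isOpen_interior.measurableSet]
      refine Filter.Eventually.of_forall fun x hx => ?_
      have := hφ x hx
      have h2 : 0 < φ b - φ x := by linarith
      simp only [Pi.zero_apply]
      positivity
  linarith

/-- Milman–Pajor type lower bound for the volume of the two-sided intersection. -/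
theorem two_sided_volume {ι : Type*} [Fintype ι] (Q : Set (ι → ℝ)) (hQ : IsCompact Q)
    (hconv : Convex ℝ Q) (hint : (interior Q).Nonempty)
    (hQc : ∀ x ∈ Q, ∀ i, |x i| ≤ 1) (θ b : ι → ℝ)
    (hb : ∀ i, ∫ x in Q, Real.exp (∑ j, θ j * x j) * (x i - b i) = 0)
    (t : ℝ) (ht : 0 < t) :
    (t / (1 + t)) ^ Fintype.card ι * (∫ x in Q, Real.exp (∑ j, θ j * x j)) ^ 2 /
        2 ^ Fintype.card ι ≤
      ∫ x in {x : ι → ℝ | x ∈ Q ∧ (fun i => ((1 + t) * b i - x i) / t) ∈ Q},
        Real.exp (∑ j, θ j * x j + ∑ j, θ j * (((1 + t) * b j - x j) / t)) := by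
  have hmeasQ : MeasurableSet Q := hQ.isClosed.measurableSet
  have hbI : b ∈ interior Q := ts_bary_mem hQ hconv hint θ b hb
  have hbQ : b ∈ Q := interior_subset hbI
  set Z : ℝ := ∫ x in Q, Real.exp (∑ j, θ j * x j) with hZ
  have hZ' : ∫ x, tsf Q θ x = Z := by
    have := tsf_integral_mul hmeasQ θ (fun _ => (1 : ℝ))
    simpa using this
  -- RHS equals ψ b
  have hR : ∫ x in {x : ι → ℝ | x ∈ Q ∧ (fun i => ((1 + t) * b i - x i) / t) ∈ Q},
        Real.exp (∑ j, θ j * x j + ∑ j, θ j * (((1 + t) * b j - x j) / t)) = tsψ Q θ t b := by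
    have hms : MeasurableSet {x : ι → ℝ | x ∈ Q ∧ (fun i => ((1 + t) * b i - x i) / t) ∈ Q} := by
      apply hmeasQ.inter
      have : Measurable (fun x : ι → ℝ => fun i => ((1 + t) * b i - x i) / t) := by fun_prop
      exact this hmeasQ
    rw [← integral_indicator hms]
    unfold tsψ
    congr 1
    funext x
    by_cases hx : x ∈ Q
    · by_cases hy : tsT t b x ∈ Q
      · rw [Set.indicator_of_mem (show x ∈ {x : ι → ℝ | x ∈ Q ∧
          (fun i => ((1 + t) * b i - x i) / t) ∈ Q} from ⟨hx, hy⟩), tsf_of_mem hx, tsf_of_mem hy,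
          ← Real.exp_add]
        rfl
      · rw [Set.indicator_of_notMem (fun h => hy h.2), tsf_of_notMem hy, mul_zero]
    · rw [Set.indicator_of_notMem (fun h => hx h.1), tsf_of_notMem hx, zero_mul]
  rw [hR]
  -- the supporting exponential
  obtain ⟨p, hp⟩ := logconcave_support (interior Q) isOpen_interior hconv.interior
    (tsψ Q θ t) (fun w hw => tsψ_pos hQ hQc θ ht hw)
    (fun x _ y _ l hl0 hl1 => tsψ_logconcave hQ hconv hQc θ t x y hl0 hl1) b hbI
  -- mass of ψ
  have hmass : ∫ w, tsψ Q θ t w = (t / (1 + t)) ^ Fintype.card ι * Z ^ 2 := by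
    have h := ts_fubini hQ hconv hQc θ ht (fun _ => 1) measurable_const 1 (by simp) zero_le_one
    simp only [mul_one] at h
    rw [h, integral_mul_const, hZ']
    ring
  -- the barycentre of ψ
  have hbary : ∀ i, ∫ w, tsψ Q θ t w * (w i - b i) = 0 := by
    intro i
    have h := ts_fubini hQ hconv hQc θ ht (fun w => w i - b i) (by fun_prop) (1 + |b i|)
      (fun w hw => (abs_sub _ _).trans (by linarith [hQc w hw i])) (by positivity)
    rw [h]
    have hi0 : ∫ y, tsf Q θ y * (y i - b i) = 0 := by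
      rw [tsf_integral_mul hmeasQ θ (fun y => y i - b i)]
      exact hb i
    have hin : ∀ x : ι → ℝ, ∫ y, tsf Q θ y *
        (((1 / (1 + t)) • x + (t / (1 + t)) • y) i - b i) = Z * ((1 / (1 + t)) * (x i - b i)) := by
      intro x
      have e : ∀ y : ι → ℝ, tsf Q θ y * (((1 / (1 + t)) • x + (t / (1 + t)) • y) i - b i) =
          tsf Q θ y * ((1 / (1 + t)) * (x i - b i)) +
            (t / (1 + t)) * (tsf Q θ y * (y i - b i)) := by
        intro y
        simp only [Pi.add_apply, Pi.smul_apply, smul_eq_mul]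
        field_simp
        ring
      simp_rw [e]
      rw [integral_add, integral_const_mul, hi0, mul_zero, add_zero, integral_mul_const, hZ']
      · exact tsf_integrable_mul hQ θ (fun _ => _) continuous_const
      · exact (tsf_integrable_mul hQ θ (fun y => y i - b i) (by fun_prop)).const_mul _
    simp_rw [hin]
    have e2 : ∀ x : ι → ℝ, tsf Q θ x * (Z * ((1 / (1 + t)) * (x i - b i))) =
        (Z * (1 / (1 + t))) * (tsf Q θ x * (x i - b i)) := fun x => by ring
    simp_rw [e2]
    rw [integral_const_mul, hi0, mul_zero, mul_zero]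
  -- integrability of ψ times continuous functions
  have hψint : ∀ (g : (ι → ℝ) → ℝ), Measurable g → ∀ C : ℝ, 0 ≤ C → (∀ w ∈ Q, |g w| ≤ C) →
      Integrable (fun w => tsψ Q θ t w * g w) := by
    intro g hg C hC0 hC
    have h := (ts_integrable_prod hQ hconv hQc θ ht g hg C hC hC0).integral_prod_left
    refine h.congr (Filter.Eventually.of_forall fun w => ?_)
    simp only [tsψ]
    rw [integral_mul_const]
  have hψ1 : Integrable (tsψ Q θ t) := by
    have := hψint (fun _ => 1) measurable_const 1 zero_le_one (by simp)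
    simpa using this
  have hψi : ∀ i, Integrable (fun w => tsψ Q θ t w * (w i - b i)) := fun i =>
    hψint (fun w => w i - b i) (by fun_prop) (1 + |b i|) (by positivity)
      (fun w hw => (abs_sub _ _).trans (by linarith [hQc w hw i]))
  have hae : (interior Q : Set (ι → ℝ)) =ᵐ[volume] Q :=
    interior_ae_eq_of_null_frontier (hconv.addHaar_frontier volume)
  -- key inequality
  have hlin : ∫ w, tsψ Q θ t w * (1 - ∑ i, p i * (w i - b i)) =
      (t / (1 + t)) ^ Fintype.card ι * Z ^ 2 := by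
    have e : ∀ w : ι → ℝ, tsψ Q θ t w * (1 - ∑ i, p i * (w i - b i)) =
        tsψ Q θ t w - ∑ i, p i * (tsψ Q θ t w * (w i - b i)) := by
      intro w
      rw [mul_sub, mul_one, Finset.mul_sum]
      congr 1
      apply Finset.sum_congr rfl
      intro i _
      ring
    simp_rw [e]
    rw [integral_sub hψ1 (integrable_finsetSum _ fun i _ => (hψi i).const_mul _),
      integral_finsetSum _ fun i _ => (hψi i).const_mul _, hmass]
    have : ∑ i, ∫ w, p i * (tsψ Q θ t w * (w i - b i)) = 0 := by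
      apply Finset.sum_eq_zero
      intro i _
      rw [integral_const_mul, hbary i, mul_zero]
    rw [this, sub_zero]
  have hlinint : Integrable (fun w => tsψ Q θ t w * (1 - ∑ i, p i * (w i - b i))) := by
    have e : (fun w : ι → ℝ => tsψ Q θ t w * (1 - ∑ i, p i * (w i - b i))) = fun w =>
        tsψ Q θ t w - ∑ i, p i * (tsψ Q θ t w * (w i - b i)) := by
      funext w
      rw [mul_sub, mul_one, Finset.mul_sum]
      congr 1
      apply Finset.sum_congr rfl
      intro i _
      ring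
    rw [e]
    exact hψ1.sub (integrable_finsetSum _ fun i _ => (hψi i).const_mul _)
  have hset : ∫ w, tsψ Q θ t w * (1 - ∑ i, p i * (w i - b i)) =
      ∫ w in interior Q, tsψ Q θ t w * (1 - ∑ i, p i * (w i - b i)) := by
    rw [setIntegral_congr_set hae]
    symm
    apply setIntegral_eq_integral_of_forall_compl_eq_zero
    intro w hw
    rw [tsψ_of_notMem hconv θ ht hw, zero_mul]
  have hle : ∫ w in interior Q, tsψ Q θ t w * (1 - ∑ i, p i * (w i - b i)) ≤
      ∫ w in interior Q, tsψ Q θ t b := by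
    apply setIntegral_mono_on hlinint.integrableOn _ isOpen_interior.measurableSet
    · intro w hw
      have h1 := hp w hw
      have h2 : 1 - ∑ i, p i * (w i - b i) ≤ Real.exp (-(∑ i, p i * (w i - b i))) := by
        have := Real.add_one_le_exp (-(∑ i, p i * (w i - b i)))
        linarith
      calc tsψ Q θ t w * (1 - ∑ i, p i * (w i - b i))
          ≤ tsψ Q θ t w * Real.exp (-(∑ i, p i * (w i - b i))) :=
            mul_le_mul_of_nonneg_left h2 (tsψ_nonneg _ _ _ _)
        _ ≤ (tsψ Q θ t b * Real.exp (∑ i, p i * (w i - b i))) *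
              Real.exp (-(∑ i, p i * (w i - b i))) :=
            mul_le_mul_of_nonneg_right h1 (Real.exp_pos _).le
        _ = tsψ Q θ t b := by
            rw [mul_assoc, ← Real.exp_add, add_neg_cancel, Real.exp_zero, mul_one]
    · apply integrableOn_const
      · exact (lt_of_le_of_lt (measure_mono interior_subset) hQ.measure_lt_top).ne
      · exact enorm_ne_top
  have hvol : (volume (interior Q)).toReal ≤ 2 ^ Fintype.card ι := by
    have hsub : interior Q ⊆ Set.Icc (fun _ => (-1 : ℝ)) (fun _ => 1) := by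
      intro x hx
      have := hQc x (interior_subset hx)
      exact ⟨fun i => (abs_le.mp (this i)).1, fun i => (abs_le.mp (this i)).2⟩
    have hv : volume (Set.Icc (fun _ : ι => (-1 : ℝ)) (fun _ => 1)) =
        ENNReal.ofReal (2 ^ Fintype.card ι) := by
      rw [Real.volume_Icc_pi]
      simp only [sub_neg_eq_add, Finset.prod_const, Finset.card_univ]
      rw [ENNReal.ofReal_pow (by norm_num)]
      norm_num
    have := measure_mono (μ := volume) hsub
    rw [hv] at this
    exact ENNReal.toReal_le_of_le_ofReal (by positivity) this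
  rw [setIntegral_const, smul_eq_mul] at hle
  have hfin : (t / (1 + t)) ^ Fintype.card ι * Z ^ 2 ≤ 2 ^ Fintype.card ι * tsψ Q θ t b := by
    rw [← hlin, hset]
    refine hle.trans ?_
    exact mul_le_mul_of_nonneg_right hvol (tsψ_nonneg _ _ _ _)
  rw [div_le_iff₀ (by positivity)]
  linarith

end

end ZonoLin
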