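import Mathlib

/-!
# A zonotope in Lewis position has volume at least `2^d`

If `v i` are non-zero vectors of `ℝ^d` with `∑ ⟨v i, z⟩² / ‖v i‖ = ‖z‖²` then the zonotope
`{∑ ξ i v i : |ξ i| ≤ 1}` has volume at least `2^d` (transport of the Gaussian measure).
-/

open MeasureTheory Set

namespace ZonoLin

/-- The density `√(2/π) exp(-r²/2)`. -/
noncomputable def gden (r : ℝ) : ℝ :=
  Real.sqrt (2 / Real.pi) * Real.exp (-(1 / 2) * r ^ 2)

/-- Its primitive. -/
noncomputable def gphi (s : ℝ) : ℝ := ∫ r in (0 : ℝ)..s, gden r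

lemma gden_pos (r : ℝ) : 0 < gden r := by
  unfold gden
  have := Real.pi_pos
  positivity

lemma gden_cont : Continuous gden := by
  unfold gden
  fun_prop

lemma gden_even (r : ℝ) : gden (-r) = gden r := by
  unfold gden
  simp

lemma gphi_hasDerivAt (s : ℝ) : HasDerivAt gphi (gden s) s :=
  intervalIntegral.integral_hasDerivAt_right (gden_cont.intervalIntegrable _ _)
    (gden_cont.stronglyMeasurableAtFilter _ _) gden_cont.continuousAt

lemma gphi_strictMono : StrictMono gphi := by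
  apply strictMono_of_deriv_pos
  intro x
  rw [(gphi_hasDerivAt x).deriv]
  exact gden_pos x

lemma gphi_neg (s : ℝ) : gphi (-s) = - gphi s := by
  unfold gphi
  have h := intervalIntegral.integral_comp_neg (a := 0) (b := s) gden
  simp only [gden_even, neg_zero] at h
  rw [h, intervalIntegral.integral_symm]

lemma gden_integrable : Integrable gden := by
  unfold gden
  exact (integrable_exp_neg_mul_sq (by norm_num : (0 : ℝ) < 1 / 2)).const_mul _

lemma gden_integral : ∫ r in Ioi (0 : ℝ), gden r = 1 := by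
  unfold gden
  rw [integral_const_mul, integral_gaussian_Ioi, mul_div_assoc', ← Real.sqrt_mul (by positivity)]
  have hpi := Real.pi_pos
  have : 2 / Real.pi * (Real.pi / (1 / 2)) = 2 ^ 2 := by
    field_simp
  rw [this, Real.sqrt_sq (by norm_num)]
  norm_num

lemma gphi_le_one (s : ℝ) (hs : 0 ≤ s) : gphi s ≤ 1 := by
  unfold gphi
  rw [intervalIntegral.integral_of_le hs, ← gden_integral]
  exact setIntegral_mono_set gden_integrable.integrableOn
    (Filter.Eventually.of_forall fun r => (gden_pos r).le)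
    (Filter.Eventually.of_forall fun r hr => hr.1)

lemma abs_gphi_le (s : ℝ) : |gphi s| ≤ 1 := by
  have h0 : gphi 0 = 0 := by simp [gphi]
  rcases le_total 0 s with hs | hs
  · have h1 := gphi_strictMono.monotone hs
    rw [h0] at h1
    rw [abs_of_nonneg h1]
    exact gphi_le_one s hs
  · have h1 : 0 ≤ -s := by linarith
    have h2 := gphi_strictMono.monotone h1
    rw [h0, gphi_neg] at h2
    have h3 := gphi_le_one (-s) h1
    rw [gphi_neg] at h3
    rw [abs_le]
    constructor <;> linarith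

variable {d : ℕ} {ι : Type*} [Fintype ι]

/-- The transport map. -/
noncomputable def tmap (v : ι → EuclideanSpace ℝ (Fin d)) (z : EuclideanSpace ℝ (Fin d)) :
    EuclideanSpace ℝ (Fin d) :=
  ∑ i, gphi (inner ℝ (v i) z / ‖v i‖) • v i

/-- Its derivative. -/
noncomputable def tder (v : ι → EuclideanSpace ℝ (Fin d)) (z : EuclideanSpace ℝ (Fin d)) :
    EuclideanSpace ℝ (Fin d) →L[ℝ] EuclideanSpace ℝ (Fin d) :=
  ∑ i, (gden (inner ℝ (v i) z / ‖v i‖) / ‖v i‖) • (innerSL ℝ (v i)).smulRight (v i)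

lemma tmap_hasFDerivAt (v : ι → EuclideanSpace ℝ (Fin d)) (z : EuclideanSpace ℝ (Fin d)) :
    HasFDerivAt (tmap v) (tder v z) z := by
  unfold tmap tder
  apply HasFDerivAt.fun_sum
  intro i _
  have h1 : HasFDerivAt (fun z : EuclideanSpace ℝ (Fin d) => inner ℝ (v i) z / ‖v i‖)
      ((‖v i‖)⁻¹ • innerSL ℝ (v i)) z := by
    have := ((innerSL ℝ (v i)).hasFDerivAt (x := z)).const_mul ((‖v i‖)⁻¹)
    refine this.congr_of_eventuallyEq (Filter.Eventually.of_forall fun y => ?_)
    simp [div_eq_inv_mul]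
  have h2 := (gphi_hasDerivAt (inner ℝ (v i) z / ‖v i‖)).comp_hasFDerivAt z h1
  have h3 := h2.smul_const (v i)
  refine h3.congr_fderiv ?_
  ext y
  simp [smul_smul, div_eq_mul_inv]

lemma tder_apply (v : ι → EuclideanSpace ℝ (Fin d)) (z x : EuclideanSpace ℝ (Fin d)) :
    tder v z x = ∑ i, (gden (inner ℝ (v i) z / ‖v i‖) / ‖v i‖ * inner ℝ (v i) x) • v i := by
  unfold tder
  simp [smul_smul]

lemma inner_tder (v : ι → EuclideanSpace ℝ (Fin d)) (z x y : EuclideanSpace ℝ (Fin d)) :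
    inner ℝ (tder v z x) y =
      ∑ i, gden (inner ℝ (v i) z / ‖v i‖) / ‖v i‖ * inner ℝ (v i) x * inner ℝ (v i) y := by
  rw [tder_apply, sum_inner]
  apply Finset.sum_congr rfl
  intro i _
  rw [real_inner_smul_left]

lemma tder_symm (v : ι → EuclideanSpace ℝ (Fin d)) (z : EuclideanSpace ℝ (Fin d)) :
    (tder v z : EuclideanSpace ℝ (Fin d) →ₗ[ℝ] EuclideanSpace ℝ (Fin d)).IsSymmetric := by
  intro x y
  simp only [ContinuousLinearMap.coe_coe]
  rw [inner_tder, real_inner_comm, inner_tder]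
  apply Finset.sum_congr rfl
  intro i _
  ring

omit [Fintype ι] in
lemma sum_norm_eq (v : ι → EuclideanSpace ℝ (Fin d)) (hv : ∀ i, v i ≠ 0)
    (b : OrthonormalBasis (Fin d) ℝ (EuclideanSpace ℝ (Fin d))) (i : ι) :
    ∑ k, (inner ℝ (v i) (b k)) ^ 2 / ‖v i‖ = ‖v i‖ := by
  rw [← Finset.sum_div]
  have h : ∑ k, (inner ℝ (v i) (b k)) ^ 2 = ‖v i‖ ^ 2 := by
    have := b.sum_sq_norm_inner_left (v i)
    simpa using this
  have h0 : ‖v i‖ ≠ 0 := norm_ne_zero_iff.2 (hv i)
  rw [h]
  field_simp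

lemma sum_norm (v : ι → EuclideanSpace ℝ (Fin d)) (hv : ∀ i, v i ≠ 0)
    (hL : ∀ z : EuclideanSpace ℝ (Fin d), ∑ i, (inner ℝ (v i) z) ^ 2 / ‖v i‖ = ‖z‖ ^ 2) :
    ∑ i, ‖v i‖ = d := by
  set b := EuclideanSpace.basisFun (Fin d) ℝ with hb
  have h1 : ∑ i, ‖v i‖ = ∑ i, ∑ k, (inner ℝ (v i) (b k)) ^ 2 / ‖v i‖ :=
    Finset.sum_congr rfl fun i _ => (sum_norm_eq v hv b i).symm
  rw [h1, Finset.sum_comm]
  simp only [hL]
  simp

lemma log_gden (s : ℝ) :
    Real.log (gden s) = (1 / 2) * Real.log (2 / Real.pi) - (1 / 2) * s ^ 2 := by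
  unfold gden
  have hpi := Real.pi_pos
  rw [Real.log_mul (by positivity) (by positivity), Real.log_exp, Real.log_sqrt (by positivity)]
  ring

lemma det_lower (v : ι → EuclideanSpace ℝ (Fin d)) (hv : ∀ i, v i ≠ 0)
    (hL : ∀ z : EuclideanSpace ℝ (Fin d), ∑ i, (inner ℝ (v i) z) ^ 2 / ‖v i‖ = ‖z‖ ^ 2)
    (z : EuclideanSpace ℝ (Fin d)) :
    Real.exp ((d / 2) * Real.log (2 / Real.pi)) * Real.exp (-(1 / 2) * ‖z‖ ^ 2)
      ≤ |(tder v z).det| := by
  have hT := tder_symm v z
  have hn : Module.finrank ℝ (EuclideanSpace ℝ (Fin d)) = d := by simp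
  set e := hT.eigenvectorBasis hn with he
  set m := hT.eigenvalues hn with hm
  set s : ι → ℝ := fun i => inner ℝ (v i) z / ‖v i‖ with hs
  have hdet : (tder v z).det = ∏ k, m k := by
    have := hT.det_eq_prod_eigenvalues hn
    simpa using this
  have hmk : ∀ k, m k = ∑ i, (inner ℝ (v i) (e k)) ^ 2 / ‖v i‖ * gden (s i) := by
    intro k
    have h1 : (tder v z) (e k) = m k • e k := by
      exact hT.apply_eigenvectorBasis hn k
    have h2 : inner ℝ (tder v z (e k)) (e k) = m k := by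
      rw [h1, real_inner_smul_left, real_inner_self_eq_norm_sq, e.norm_eq_one]
      simp
    rw [← h2, inner_tder]
    apply Finset.sum_congr rfl
    intro i _
    simp only [hs]
    ring
  have hlow : ∀ k, Real.exp (∑ i, (inner ℝ (v i) (e k)) ^ 2 / ‖v i‖ * Real.log (gden (s i)))
      ≤ m k := by
    intro k
    have hw0 : ∀ i ∈ (Finset.univ : Finset ι), 0 ≤ (inner ℝ (v i) (e k)) ^ 2 / ‖v i‖ :=
      fun i _ => by positivity
    have hw1 : ∑ i, (inner ℝ (v i) (e k)) ^ 2 / ‖v i‖ = 1 := by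
      rw [hL, e.norm_eq_one]
      norm_num
    have := convexOn_exp.map_sum_le (p := fun i => Real.log (gden (s i))) hw0 hw1
      (fun i _ => Set.mem_univ _)
    simp only [smul_eq_mul, Real.exp_log (gden_pos _)] at this
    rw [hmk k]
    exact this
  rw [hdet]
  refine le_trans ?_ (le_abs_self _)
  calc Real.exp ((d / 2) * Real.log (2 / Real.pi)) * Real.exp (-(1 / 2) * ‖z‖ ^ 2)
      = ∏ k, Real.exp (∑ i, (inner ℝ (v i) (e k)) ^ 2 / ‖v i‖ * Real.log (gden (s i))) := by
        rw [← Real.exp_sum, ← Real.exp_add, Finset.sum_comm]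
        congr 1
        have h3 : ∀ i, ∑ k, (inner ℝ (v i) (e k)) ^ 2 / ‖v i‖ * Real.log (gden (s i))
            = ‖v i‖ * ((1 / 2) * Real.log (2 / Real.pi))
              - (1 / 2) * ((inner ℝ (v i) z) ^ 2 / ‖v i‖) := by
          intro i
          have h0 : ‖v i‖ ≠ 0 := norm_ne_zero_iff.2 (hv i)
          rw [← Finset.sum_mul, sum_norm_eq v hv e i, log_gden]
          simp only [hs]
          field_simp
        simp only [h3]
        rw [Finset.sum_sub_distrib, ← Finset.sum_mul, ← Finset.mul_sum, hL, sum_norm v hv hL]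
        ring
    _ ≤ ∏ k, m k := Finset.prod_le_prod (fun k _ => (Real.exp_pos _).le) (fun k _ => hlow k)

lemma tmap_injective (v : ι → EuclideanSpace ℝ (Fin d)) (hv : ∀ i, v i ≠ 0)
    (hL : ∀ z : EuclideanSpace ℝ (Fin d), ∑ i, (inner ℝ (v i) z) ^ 2 / ‖v i‖ = ‖z‖ ^ 2) :
    Function.Injective (tmap v) := by
  intro z z' h
  have h1 : inner ℝ (tmap v z - tmap v z') (z - z') = 0 := by
    rw [h, sub_self, inner_zero_left]
  have h2 : inner ℝ (tmap v z - tmap v z') (z - z') =
      ∑ i, (gphi (inner ℝ (v i) z / ‖v i‖) - gphi (inner ℝ (v i) z' / ‖v i‖)) *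
        inner ℝ (v i) (z - z') := by
    unfold tmap
    rw [← Finset.sum_sub_distrib, sum_inner]
    apply Finset.sum_congr rfl
    intro i _
    rw [← sub_smul, real_inner_smul_left]
  rw [h2] at h1
  have hnn : ∀ i ∈ (Finset.univ : Finset ι),
      0 ≤ (gphi (inner ℝ (v i) z / ‖v i‖) - gphi (inner ℝ (v i) z' / ‖v i‖)) *
        inner ℝ (v i) (z - z') := by
    intro i _
    have h0 : 0 < ‖v i‖ := norm_pos_iff.2 (hv i)
    rw [inner_sub_right]
    rcases le_total (inner ℝ (v i) z) (inner ℝ (v i) z') with hle | hle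
    · have := gphi_strictMono.monotone (div_le_div_of_nonneg_right hle h0.le)
      nlinarith
    · have := gphi_strictMono.monotone (div_le_div_of_nonneg_right hle h0.le)
      nlinarith
  have hz := (Finset.sum_eq_zero_iff_of_nonneg hnn).1 h1
  have hin : ∀ i, inner ℝ (v i) (z - z') = 0 := by
    intro i
    have h0 : ‖v i‖ ≠ 0 := norm_ne_zero_iff.2 (hv i)
    rcases mul_eq_zero.1 (hz i (Finset.mem_univ i)) with h3 | h3
    · have h4 := gphi_strictMono.injective (sub_eq_zero.1 h3)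
      rw [inner_sub_right]
      field_simp at h4
      rw [h4, sub_self]
    · exact h3
  have h5 := hL (z - z')
  simp only [hin] at h5
  have h6 : ‖z - z'‖ = 0 := by
    have : ‖z - z'‖ ^ 2 = 0 := by rw [← h5]; simp
    exact pow_eq_zero_iff (two_ne_zero) |>.1 this
  exact sub_eq_zero.1 (norm_eq_zero.1 h6)

lemma gauss_integrable : Integrable
    (fun z : EuclideanSpace ℝ (Fin d) => Real.exp (-(1 / 2) * ‖z‖ ^ 2)) := by
  have h := GaussianFourier.integrable_cexp_neg_mul_sq_norm_add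
    (V := EuclideanSpace ℝ (Fin d)) (b := (1 / 2 : ℂ)) (by norm_num) 0 0
  have h2 := h.norm
  refine h2.congr (Filter.Eventually.of_forall fun z => ?_)
  simp only [Complex.norm_exp]
  congr 1
  simp [← Complex.ofReal_pow]

theorem zonotope_volume {d : ℕ} {ι : Type*} [Fintype ι] (v : ι → EuclideanSpace ℝ (Fin d))
    (hv : ∀ i, v i ≠ 0)
    (hL : ∀ z : EuclideanSpace ℝ (Fin d), ∑ i, (inner ℝ (v i) z) ^ 2 / ‖v i‖ = ‖z‖ ^ 2) :
    ENNReal.ofReal (2 ^ d) ≤
      volume {z : EuclideanSpace ℝ (Fin d) | ∃ ξ : ι → ℝ, (∀ i, |ξ i| ≤ 1) ∧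
        z = ∑ i, ξ i • v i} := by
  have h1 := lintegral_abs_det_fderiv_eq_addHaar_image
    (volume : Measure (EuclideanSpace ℝ (Fin d))) (s := Set.univ) MeasurableSet.univ
    (fun x _ => (tmap_hasFDerivAt v x).hasFDerivWithinAt) (tmap_injective v hv hL).injOn
  have h2 : volume (tmap v '' Set.univ) ≤
      volume {z : EuclideanSpace ℝ (Fin d) | ∃ ξ : ι → ℝ, (∀ i, |ξ i| ≤ 1) ∧
        z = ∑ i, ξ i • v i} := by
    apply measure_mono
    rintro _ ⟨z, _, rfl⟩
    exact ⟨fun i => gphi (inner ℝ (v i) z / ‖v i‖), fun i => abs_gphi_le _, rfl⟩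
  refine le_trans ?_ h2
  rw [← h1, Measure.restrict_univ]
  have h3 : ∫⁻ z : EuclideanSpace ℝ (Fin d), ENNReal.ofReal
      (Real.exp ((d / 2) * Real.log (2 / Real.pi)) * Real.exp (-(1 / 2) * ‖z‖ ^ 2)) ≤
      ∫⁻ z, ENNReal.ofReal |(tder v z).det| :=
    lintegral_mono fun z => ENNReal.ofReal_le_ofReal (det_lower v hv hL z)
  refine le_trans ?_ h3
  rw [← ofReal_integral_eq_lintegral_ofReal (gauss_integrable.const_mul _)
    (Filter.Eventually.of_forall fun z => by positivity)]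
  apply ENNReal.ofReal_le_ofReal
  rw [integral_const_mul, GaussianFourier.integral_rexp_neg_mul_sq_norm (by norm_num)]
  have hpi := Real.pi_pos
  apply le_of_eq
  rw [mul_comm ((d : ℝ) / 2), Real.exp_mul, Real.exp_log (by positivity)]
  simp only [finrank_euclideanSpace, Fintype.card_fin]
  rw [← Real.mul_rpow (by positivity) (by positivity)]
  have h4 : 2 / Real.pi * (Real.pi / (1 / 2)) = (2 : ℝ) ^ (2 : ℝ) := by
    rw [Real.rpow_two]
    field_simp
    try norm_num
  rw [h4, ← Real.rpow_mul (by norm_num)]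
  rw [← Real.rpow_natCast]
  congr 1
  ring

end ZonoLin
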