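import Pool.Agent.ZonoLin.Lewis
import Pool.Agent.ZonoLin.Vol
import Pool.Agent.ZonoLin.Signed
import Pool.Agent.ZonoLin.OneSided
import Pool.Agent.ZonoLin.TiltLower
import Pool.Agent.ZonoLin.OptTilt
import Pool.Agent.ZonoLin.TwoSided
import Pool.Agent.ZonoLin.Pigeon

open MeasureTheory Set

namespace ZonoLin

/-- The down-set convex body `Q`. -/
def bodyQ {d : ℕ} {ι : Type*} [Fintype ι] (v : ι → EuclideanSpace ℝ (Fin d)) (lam : ℝ) :
    Set (ι → ℝ) :=
  {x | (∀ i, |x i| ≤ 1) ∧ ∀ z : EuclideanSpace ℝ (Fin d),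
    ∑ i, x i * |(inner ℝ (v i) z : ℝ)| ≤ lam * ∑ i, |(inner ℝ (v i) z : ℝ)|}

lemma cube_eq {ι : Type*} [Fintype ι] :
    {u : ι → ℝ | ∀ i, |u i| ≤ 1} = Set.Icc (fun _ => (-1 : ℝ)) (fun _ => 1) := by
  ext u
  simp only [Set.mem_ofPred_eq, mem_Icc, Pi.le_def, abs_le]
  exact ⟨fun h => ⟨fun i => (h i).1, fun i => (h i).2⟩, fun h i => ⟨h.1 i, h.2 i⟩⟩

lemma cube_compact {ι : Type*} [Fintype ι] :
    IsCompact {u : ι → ℝ | ∀ i, |u i| ≤ 1} := by
  rw [cube_eq]; exact isCompact_Icc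

lemma cube_subset_volume_ne_top {ι : Type*} [Fintype ι] {S : Set (ι → ℝ)}
    (hS : S ⊆ {u : ι → ℝ | ∀ i, |u i| ≤ 1}) : (volume : Measure (ι → ℝ)) S ≠ ⊤ :=
  (lt_of_le_of_lt (measure_mono hS) cube_compact.measure_lt_top).ne

lemma bodyQ_closed {d : ℕ} {ι : Type*} [Fintype ι] (v : ι → EuclideanSpace ℝ (Fin d)) (lam : ℝ) :
    IsClosed (bodyQ v lam) := by
  have h1 : bodyQ v lam = {u : ι → ℝ | ∀ i, |u i| ≤ 1} ∩
      ⋂ z : EuclideanSpace ℝ (Fin d), {x : ι → ℝ |
        ∑ i, x i * |(inner ℝ (v i) z : ℝ)| ≤ lam * ∑ i, |(inner ℝ (v i) z : ℝ)|} := by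
    ext x; simp [bodyQ]
  rw [h1]
  refine cube_compact.isClosed.inter (isClosed_iInter fun z => isClosed_le ?_ continuous_const)
  fun_prop

lemma bodyQ_compact {d : ℕ} {ι : Type*} [Fintype ι] (v : ι → EuclideanSpace ℝ (Fin d)) (lam : ℝ) :
    IsCompact (bodyQ v lam) :=
  cube_compact.of_isClosed_subset (bodyQ_closed v lam) (fun _ hx => hx.1)

lemma bodyQ_convex {d : ℕ} {ι : Type*} [Fintype ι] (v : ι → EuclideanSpace ℝ (Fin d)) (lam : ℝ) :
    Convex ℝ (bodyQ v lam) := by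
  intro x hx y hy a b ha hb hab
  refine ⟨fun i => ?_, fun z => ?_⟩
  · have h1 := hx.1 i
    have h2 := hy.1 i
    rw [abs_le] at h1 h2 ⊢
    simp only [Pi.add_apply, Pi.smul_apply, smul_eq_mul]
    constructor <;> nlinarith
  · have h1 := hx.2 z
    have h2 := hy.2 z
    have : ∑ i, (a • x + b • y) i * |(inner ℝ (v i) z : ℝ)| =
        a * ∑ i, x i * |(inner ℝ (v i) z : ℝ)| + b * ∑ i, y i * |(inner ℝ (v i) z : ℝ)| := by
      rw [Finset.mul_sum, Finset.mul_sum, ← Finset.sum_add_distrib]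
      refine Finset.sum_congr rfl fun i _ => ?_
      simp only [Pi.add_apply, Pi.smul_apply, smul_eq_mul]
      ring
    rw [this]
    calc _ ≤ a * (lam * ∑ i, |(inner ℝ (v i) z : ℝ)|) + b * (lam * ∑ i, |(inner ℝ (v i) z : ℝ)|) := by
          gcongr
      _ = (a + b) * (lam * ∑ i, |(inner ℝ (v i) z : ℝ)|) := by ring
      _ = _ := by rw [hab, one_mul]

lemma bodyQ_interior {d : ℕ} {ι : Type*} [Fintype ι] (v : ι → EuclideanSpace ℝ (Fin d))
    (lam : ℝ) (hlam : 0 < lam) : (interior (bodyQ v lam)).Nonempty := by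
  refine ⟨0, ?_⟩
  rw [mem_interior]
  refine ⟨{x | ∀ i, |x i| < min lam 1}, ?_, ?_, ?_⟩
  · intro x hx
    refine ⟨fun i => ((hx i).trans_le (min_le_right _ _)).le, fun z => ?_⟩
    rw [Finset.mul_sum]
    refine Finset.sum_le_sum fun i _ => ?_
    exact mul_le_mul_of_nonneg_right ((le_abs_self _).trans ((hx i).trans_le (min_le_left _ _)).le)
      (abs_nonneg _)
  · have : {x : ι → ℝ | ∀ i, |x i| < min lam 1} = ⋂ i, {x : ι → ℝ | |x i| < min lam 1} := by
      ext x; simp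
    rw [this]
    refine isOpen_iInter_of_finite fun i => isOpen_lt ?_ continuous_const
    exact (continuous_apply i).abs
  · intro i
    simp [hlam]

/-- Hypothesis (H). -/
lemma body_measure {d : ℕ} (hd : 0 < d) {ι : Type*} [Fintype ι]
    (v : ι → EuclideanSpace ℝ (Fin d)) (hv : ∀ i, v i ≠ 0)
    (hL : ∀ z : EuclideanSpace ℝ (Fin d), ∑ i, (inner ℝ (v i) z) ^ 2 / ‖v i‖ = ‖z‖ ^ 2)
    (h : ℝ) (hh : 0 < h) (hvh : ∀ i, ‖v i‖ ≤ h)
    (s : ι → ℝ) (hs : ∀ i, 0 ≤ s i ∧ s i ≤ 1) :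
    (2 : ℝ) ^ Fintype.card ι * Real.exp (-(2 * (d : ℝ))) ≤
        (volume : Measure (ι → ℝ)).real {u : ι → ℝ | (∀ i, |u i| ≤ 1) ∧
          (fun i => s i * u i) ∈ bodyQ v (Real.sqrt h)} := by
  obtain ⟨z0, hz0⟩ := signed_event hd v hv hL (lewis_sum v hv hL) (zonotope_volume v hv hL) h hh hvh
    s hs
  refine hz0.trans ?_
  have hstep := one_sided (ι := ι) (Y := EuclideanSpace ℝ (Fin d))
    (fun i z => s i * (inner ℝ (v i) z : ℝ))
    (fun z => (inner ℝ z0 z : ℝ) + Real.sqrt h * ∑ i, |(inner ℝ (v i) z : ℝ)|)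
  refine le_trans (measureReal_mono ?_ (cube_subset_volume_ne_top fun _ hx => hx.1))
    (hstep.trans (measureReal_mono ?_ (cube_subset_volume_ne_top fun _ hx => hx.1)))
  · rintro u ⟨hu, ξ, hξ, hsum⟩
    refine ⟨hu, fun z => ?_⟩
    have h1 : ∑ i, u i * (s i * (inner ℝ (v i) z : ℝ)) =
        (inner ℝ (∑ i, (s i * u i) • v i) z : ℝ) := by
      rw [sum_inner]
      refine Finset.sum_congr rfl fun i _ => ?_
      rw [real_inner_smul_left]; ring
    rw [h1, hsum, inner_add_left, sum_inner, Finset.mul_sum]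
    gcongr with i _
    rw [real_inner_smul_left]
    calc ξ i * (inner ℝ (v i) z : ℝ) ≤ |ξ i * (inner ℝ (v i) z : ℝ)| := le_abs_self _
      _ = |ξ i| * |(inner ℝ (v i) z : ℝ)| := abs_mul _ _
      _ ≤ _ := mul_le_mul_of_nonneg_right (hξ i) (abs_nonneg _)
  · rintro u ⟨hu, hy⟩
    refine ⟨hu, fun i => ?_, fun z => ?_⟩
    · rw [abs_mul, abs_of_nonneg (hs i).1]
      calc s i * |u i| ≤ 1 * 1 := mul_le_mul (hs i).2 (hu i) (abs_nonneg _) zero_le_one
        _ = 1 := one_mul 1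
    · have h1 := hy z
      have h2 := hy (-z)
      have e1 : ∀ i, u i * |s i * (inner ℝ (v i) z : ℝ)| = s i * u i * |(inner ℝ (v i) z : ℝ)| := by
        intro i
        rw [abs_mul, abs_of_nonneg (hs i).1]; ring
      simp only [inner_neg_right, mul_neg, abs_neg] at h2
      simp only [e1] at h1 h2
      linarith

set_option maxHeartbeats 4000000 in
theorem main_prop {d : ℕ} (hd : 0 < d) {ι : Type*} [Fintype ι]
    (v : ι → EuclideanSpace ℝ (Fin d)) (hv : ∀ i, v i ≠ 0)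
    (hL : ∀ z : EuclideanSpace ℝ (Fin d), ∑ i, (inner ℝ (v i) z) ^ 2 / ‖v i‖ = ‖z‖ ^ 2)
    (hm : 400 * (d : ℝ) ≤ Fintype.card ι)
    (hvh : ∀ i, ‖v i‖ ≤ 33 * (d : ℝ) / Fintype.card ι) :
    ∃ y : ι → ℤ, (∀ i, y i = -1 ∨ y i = 0 ∨ y i = 1) ∧
      (Fintype.card ι : ℝ) / 16 ≤ ((Finset.univ.filter (fun i => y i = -1)).card : ℝ) ∧
      ∀ z : EuclideanSpace ℝ (Fin d),
        |∑ i, (y i : ℝ) * abs (inner ℝ (v i) z : ℝ)| ≤
          7000 * Real.sqrt ((d : ℝ) / Fintype.card ι) * ∑ i, abs (inner ℝ (v i) z : ℝ) := by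
  set m : ℝ := (Fintype.card ι : ℝ) with hmdef
  have hd' : (1 : ℝ) ≤ d := by exact_mod_cast hd
  have hmpos : 0 < m := by linarith
  have hcard : 0 < Fintype.card ι := by
    have : (0 : ℝ) < (Fintype.card ι : ℝ) := hmpos
    exact_mod_cast this
  set h : ℝ := 33 * (d : ℝ) / m with hhdef
  have hh : 0 < h := by positivity
  set lam : ℝ := Real.sqrt h with hlamdef
  have hlam : 0 < lam := Real.sqrt_pos.mpr hh
  set β : ℝ := Real.sqrt (3200 * (d : ℝ) / m) with hβdef
  have hβ : 0 < β := Real.sqrt_pos.mpr (by positivity)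
  have hlb : lam ≤ β := Real.sqrt_le_sqrt (by
    rw [hhdef]; gcongr; norm_num)
  set Q := bodyQ v lam with hQdef
  have hQc : IsCompact Q := bodyQ_compact v lam
  have hQm : MeasurableSet Q := hQc.isClosed.measurableSet
  have hQ1 : ∀ x ∈ Q, ∀ i, |x i| ≤ 1 := fun x hx => hx.1
  set D : ℝ := 2 * (d : ℝ) with hDdef
  have hD : 0 < D := by positivity
  have hH := body_measure hd v hv hL h hh hvh
  set A : ℝ := 8 * D / β ^ 2 + D with hAdef
  have hA : A ≤ m / 100 := by
    have hβ2 : β ^ 2 = 3200 * (d : ℝ) / m := Real.sq_sqrt (by positivity)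
    have : 8 * D / β ^ 2 = m / 200 := by
      rw [hβ2, hDdef]; field_simp; norm_num
    rw [hAdef, this, hDdef]; linarith
  have hF := fun θ hθ => tilt_lower Q hQc D hD hH β hβ θ hθ
  set G : Set (ι → ℝ) := {g | ∃ z : EuclideanSpace ℝ (Fin d), g = fun i => |(inner ℝ (v i) z : ℝ)|}
    with hGdef
  have hG : ∀ g ∈ G, ∀ i, 0 ≤ g i := by
    rintro g ⟨z, rfl⟩ i; exact abs_nonneg _
  have hGQ : ∀ g ∈ G, ∀ x ∈ Q, ∑ i, g i * x i ≤ lam * ∑ i, g i := by
    rintro g ⟨z, rfl⟩ x hx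
    have := hx.2 z
    refine le_trans (le_of_eq ?_) this
    exact Finset.sum_congr rfl fun i _ => mul_comm _ _
  obtain ⟨θ, hθ0, hθpol, hθA, hZ, hθG⟩ := optimal_tilt Q hQc hQ1 G hG A β hβ hF
  set Z : ℝ := ∫ x in Q, Real.exp (∑ i, θ i * x i) with hZdef
  have hZpos : 0 < Z := lt_of_lt_of_le (by positivity) hZ
  -- integrability
  have hint : ∀ F : (ι → ℝ) → ℝ, Continuous F → IntegrableOn F Q volume := fun F hFc =>
    hFc.continuousOn.integrableOn_compact hQc
  set b : ι → ℝ := fun i => (∫ x in Q, Real.exp (∑ j, θ j * x j) * x i) / Z with hbdef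
  have hb : ∀ i, ∫ x in Q, Real.exp (∑ j, θ j * x j) * (x i - b i) = 0 := by
    intro i
    have h1 : ∫ x in Q, Real.exp (∑ j, θ j * x j) * (x i - b i) =
        (∫ x in Q, Real.exp (∑ j, θ j * x j) * x i) - (∫ x in Q, Real.exp (∑ j, θ j * x j)) * b i := by
      rw [← integral_mul_const, ← integral_sub]
      · refine integral_congr_ae (Filter.Eventually.of_forall fun x => ?_)
        simp only; ring
      · exact hint _ (by fun_prop)
      · exact hint _ (by fun_prop)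
    rw [h1, hbdef]
    simp only
    field_simp
    simp [hZdef]
  have hbG : ∀ g ∈ G, -(β * ∑ i, g i) ≤ ∑ i, g i * b i := by
    intro g hg
    have h1 := hθG g hg
    have h2 : ∫ x in Q, Real.exp (∑ i, θ i * x i) * ∑ i, g i * (x i + β) =
        Z * (∑ i, g i * b i + β * ∑ i, g i) := by
      have e1 : ∀ x : ι → ℝ, Real.exp (∑ i, θ i * x i) * ∑ i, g i * (x i + β) =
          ∑ i, (g i * (Real.exp (∑ i, θ i * x i) * x i)) +
            Real.exp (∑ i, θ i * x i) * (β * ∑ i, g i) := by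
        intro x
        rw [Finset.mul_sum, Finset.mul_sum, Finset.mul_sum, ← Finset.sum_add_distrib]
        exact Finset.sum_congr rfl fun i _ => by ring
      simp only [e1]
      rw [integral_add, integral_finsetSum, integral_mul_const]
      · simp only [integral_const_mul]
        have : ∀ i, (∫ x in Q, Real.exp (∑ j, θ j * x j) * x i) = Z * b i := by
          intro i
          rw [hbdef]; field_simp
        simp only [this]
        have e2 : ∑ i, g i * (Z * b i) = Z * ∑ i, g i * b i := by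
          rw [Finset.mul_sum]
          exact Finset.sum_congr rfl fun i _ => by ring
        rw [e2]; ring
      · intro i _
        exact hint _ (by fun_prop)
      · refine hint _ ?_
        fun_prop
      · refine hint _ ?_
        fun_prop
    rw [h2] at h1
    have := nonneg_of_mul_nonneg_right h1 hZpos
    linarith
  have hMP := two_sided_volume Q hQc (bodyQ_convex v lam) (bodyQ_interior v lam hlam) hQ1 θ b hb 10
    (by norm_num)
  set M : Set (ι → ℝ) := {x : ι → ℝ | x ∈ Q ∧ (fun i => ((1 + 10) * b i - x i) / 10) ∈ Q} with hMdef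
  have hMm : MeasurableSet M := by
    refine hQm.inter ?_
    exact (hQc.isClosed.preimage (f := fun (x : ι → ℝ) => (fun i => ((1 + 10) * b i - x i) / 10))
      (by fun_prop)).measurableSet
  have hM1 : ∀ x ∈ M, ∀ i, |x i| ≤ 1 := fun x hx => hQ1 x hx.1
  have hθQ : ∀ x ∈ Q, ∑ i, θ i * x i ≤ lam * ∑ i, θ i := by
    intro x hx
    have := hθpol (fun i => x i - lam) (fun g hg => by
      have := hGQ g hg x hx
      simp only [mul_sub, Finset.sum_sub_distrib, ← Finset.sum_mul]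
      linarith)
    simp only [mul_sub, Finset.sum_sub_distrib, ← Finset.sum_mul] at this
    linarith
  set T : ℝ := ∑ i, θ i with hTdef
  have hT0 : 0 ≤ T := Finset.sum_nonneg fun i _ => hθ0 i
  have hlT : lam * T ≤ 2 * A := by
    calc lam * T ≤ β * T := mul_le_mul_of_nonneg_right hlb hT0
      _ ≤ 2 * A := by linarith
  have hMvol : (∫ x in M, Real.exp (∑ j, θ j * x j + ∑ j, θ j * (((1 + 10) * b j - x j) / 10))) ≤
      Real.exp (4 * A) * (volume : Measure (ι → ℝ)).real M := by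
    have hfin : (volume : Measure (ι → ℝ)) M ≠ ⊤ := cube_subset_volume_ne_top fun x hx => hM1 x hx
    have : ∫ x in M, Real.exp (4 * A) = Real.exp (4 * A) * (volume : Measure (ι → ℝ)).real M := by
      rw [setIntegral_const, smul_eq_mul, mul_comm]
    rw [← this]
    refine setIntegral_mono_on ?_ ?_ hMm ?_
    · refine (hint _ ?_).mono_set (fun x hx => hx.1)
      fun_prop
    · exact integrableOn_const hfin
    · intro x hx
      refine Real.exp_le_exp.mpr ?_
      have h1 := hθQ x hx.1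
      have h2 := hθQ _ hx.2
      linarith
  have hvolM : (2 : ℝ) ^ Fintype.card ι * (10 / 11) ^ Fintype.card ι *
      Real.exp (-(8 / 100) * Fintype.card ι) ≤ (volume : Measure (ι → ℝ)).real M := by
    have h1 := hMP.trans hMvol
    have h2 : (2 : ℝ) ^ Fintype.card ι * (10 / 11) ^ Fintype.card ι * Real.exp (-(4 * A)) ≤
        (10 / (1 + 10)) ^ Fintype.card ι * Z ^ 2 / 2 ^ Fintype.card ι := by
      have hZ2 : ((2 : ℝ) ^ Fintype.card ι * Real.exp (-(2 * A))) ^ 2 ≤ Z ^ 2 := by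
        gcongr
      have e : (2 : ℝ) ^ Fintype.card ι * (10 / 11) ^ Fintype.card ι * Real.exp (-(4 * A)) =
          (10 / (1 + 10)) ^ Fintype.card ι * ((2 : ℝ) ^ Fintype.card ι * Real.exp (-(2 * A))) ^ 2 /
            2 ^ Fintype.card ι := by
        have : Real.exp (-(4 * A)) = Real.exp (-(2 * A)) ^ 2 := by
          rw [← Real.exp_nat_mul]; congr 1; push_cast; ring
        rw [this, show (1 + 10 : ℝ) = 11 by norm_num]
        field_simp
      rw [e]
      gcongr
    have h3 := h2.trans h1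
    have h4 : (2 : ℝ) ^ Fintype.card ι * (10 / 11) ^ Fintype.card ι * Real.exp (-(8 * A)) ≤
        (volume : Measure (ι → ℝ)).real M := by
      have e2 : Real.exp (-(8 * A)) = Real.exp (-(4 * A)) * Real.exp (-(4 * A)) := by
        rw [← Real.exp_add]; congr 1; ring
      rw [e2, ← mul_assoc]
      calc _ ≤ (Real.exp (4 * A) * (volume : Measure (ι → ℝ)).real M) * Real.exp (-(4 * A)) := by
            gcongr
        _ = (volume : Measure (ι → ℝ)).real M := by
            rw [mul_right_comm, ← Real.exp_add]; simp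
    refine le_trans ?_ h4
    gcongr
    have : (Fintype.card ι : ℝ) = m := rfl
    rw [this]; linarith
  obtain ⟨y, hy1, hy2, x, hx, x', hx', hyx⟩ := pigeonhole_colouring hcard M hMm hM1 hvolM
  refine ⟨y, hy1, hy2, fun z => ?_⟩
  set g : ι → ℝ := fun i => |(inner ℝ (v i) z : ℝ)| with hgdef
  have hgG : g ∈ G := ⟨z, rfl⟩
  set S : ℝ := ∑ i, g i with hSdef
  have hS0 : 0 ≤ S := Finset.sum_nonneg fun i _ => abs_nonneg _
  have hup : ∀ x ∈ M, ∑ i, g i * x i ≤ lam * S := fun x hx => hGQ g hgG x hx.1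
  have hlow : ∀ x ∈ M, -((11 * β + 10 * lam) * S) ≤ ∑ i, g i * x i := by
    intro x hx
    have h1 := hGQ g hgG _ hx.2
    have h2 : ∑ i, g i * (((1 + 10) * b i - x i) / 10) =
        (11 * ∑ i, g i * b i - ∑ i, g i * x i) / 10 := by
      rw [Finset.mul_sum, ← Finset.sum_sub_distrib, Finset.sum_div]
      exact Finset.sum_congr rfl fun i _ => by ring
    simp only [h2] at h1
    have h3 := hbG g hgG
    rw [div_le_iff₀ (by norm_num)] at h1
    nlinarith
  have hsum : ∑ i, (y i : ℝ) * abs (inner ℝ (v i) z : ℝ) =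
      10 * (∑ i, g i * x' i - ∑ i, g i * x i) := by
    rw [← Finset.sum_sub_distrib, Finset.mul_sum]
    refine Finset.sum_congr rfl fun i _ => ?_
    rw [hyx i]; simp only [hgdef]; ring
  rw [hsum]
  have hr0 : 0 ≤ Real.sqrt ((d : ℝ) / m) := Real.sqrt_nonneg _
  have hlam2 : lam ≤ 6 * Real.sqrt ((d : ℝ) / m) := by
    rw [hlamdef, hhdef, mul_div_assoc, Real.sqrt_mul (by norm_num)]
    gcongr
    rw [Real.sqrt_le_left (by norm_num)]; norm_num
  have hβ2 : β ≤ 57 * Real.sqrt ((d : ℝ) / m) := by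
    rw [hβdef, mul_div_assoc, Real.sqrt_mul (by norm_num)]
    gcongr
    rw [Real.sqrt_le_left (by norm_num)]; norm_num
  have hfinal : |10 * (∑ i, g i * x' i - ∑ i, g i * x i)| ≤ 110 * (lam + β) * S := by
    rw [abs_le]
    have a1 := hup x hx
    have a2 := hup x' hx'
    have a3 := hlow x hx
    have a4 := hlow x' hx'
    constructor <;> nlinarith
  have hr : 110 * (lam + β) ≤ 7000 * Real.sqrt ((d : ℝ) / m) := by
    linarith
  exact hfinal.trans (mul_le_mul_of_nonneg_right hr hS0)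

end ZonoLin
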