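import Pool.Agent.ZonoLin.Lewis
import Pool.Agent.ZonoLin.Main

open MeasureTheory Set

namespace ZonoLin

/-- number of copies used in the splitting step. -/
noncomputable def splitNum (x m d : ℝ) : ℕ := max 1 ⌈x * m / (32 * d)⌉₊

theorem splitNum_pos (x m d : ℝ) : 0 < splitNum x m d := by
  unfold splitNum; exact lt_of_lt_of_le Nat.one_pos (le_max_left _ _)

theorem splitNum_le {x m d : ℝ} (hx : 0 ≤ x) (hm : 0 ≤ m) (hd : 0 < d) :
    (splitNum x m d : ℝ) ≤ 1 + x * m / (32 * d) := by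
  unfold splitNum
  have h0 : 0 ≤ x * m / (32 * d) := by positivity
  rw [Nat.cast_max]
  apply max_le
  · simp [h0]
  · have := Nat.ceil_lt_add_one h0
    linarith

theorem le_splitNum {x m d : ℝ} :
    x * m / (32 * d) ≤ (splitNum x m d : ℝ) := by
  unfold splitNum
  rw [Nat.cast_max]
  exact le_max_of_le_right (Nat.le_ceil _)

theorem round_spanning {d : ℕ} (hd : 0 < d) {ι : Type*} [Fintype ι]
    (a : ι → EuclideanSpace ℝ (Fin d)) (ha : ∀ i, a i ≠ 0)
    (hspan : Submodule.span ℝ (Set.range a) = ⊤)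
    (hm : 400 * (d : ℝ) ≤ Fintype.card ι) :
    ∃ (n : ℕ) (b : Fin n → EuclideanSpace ℝ (Fin d)),
      (n : ℝ) ≤ 495 / 512 * Fintype.card ι ∧
      ∀ z : EuclideanSpace ℝ (Fin d),
        |∑ j, abs (inner ℝ (b j) z : ℝ) - ∑ i, abs (inner ℝ (a i) z : ℝ)| ≤
          7000 * Real.sqrt ((d : ℝ) / Fintype.card ι) * ∑ i, abs (inner ℝ (a i) z : ℝ) := by
  classical
  obtain ⟨U, hU⟩ := exists_lewis a ha hspan
  have hv : ∀ i, U (a i) ≠ 0 := fun i h => ha i (by simpa using h)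
  have hsum := lewis_sum (fun i => U (a i)) hv hU
  have hd' : (0 : ℝ) < d := by exact_mod_cast hd
  set m : ℝ := (Fintype.card ι : ℝ) with hmdef
  have hmpos : 0 < m := by nlinarith
  let N : ι → ℕ := fun i => splitNum ‖U (a i)‖ m d
  have hN : ∀ i, 0 < N i := fun i => splitNum_pos _ _ _
  have hN' : ∀ i, (0 : ℝ) < N i := fun i => by exact_mod_cast hN i
  let w : (Σ i, Fin (N i)) → EuclideanSpace ℝ (Fin d) := fun j => ((N j.1 : ℝ)⁻¹) • U (a j.1)
  let w' : (Σ i, Fin (N i)) → EuclideanSpace ℝ (Fin d) := fun j => ((N j.1 : ℝ)⁻¹) • a j.1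
  have hw : ∀ j, w j ≠ 0 := fun j =>
    smul_ne_zero (inv_ne_zero (hN' j.1).ne') (hv j.1)
  have hcard : (Fintype.card (Σ i, Fin (N i)) : ℝ) = ∑ i, (N i : ℝ) := by
    simp [Fintype.card_sigma]
  have hnw : ∀ j, ‖w j‖ = (N j.1 : ℝ)⁻¹ * ‖U (a j.1)‖ := by
    intro j
    simp only [w]
    rw [norm_smul, Real.norm_of_nonneg (inv_nonneg.2 (hN' j.1).le)]
  have hL : ∀ z : EuclideanSpace ℝ (Fin d),
      ∑ j, (inner ℝ (w j) z) ^ 2 / ‖w j‖ = ‖z‖ ^ 2 := by
    intro z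
    rw [← hU z, Fintype.sum_sigma]
    refine Finset.sum_congr rfl fun i _ => ?_
    have h1 : ∀ k : Fin (N i), (inner ℝ (w ⟨i, k⟩) z) ^ 2 / ‖w ⟨i, k⟩‖ =
        (N i : ℝ)⁻¹ * ((inner ℝ (U (a i)) z) ^ 2 / ‖U (a i)‖) := by
      intro k
      rw [hnw]
      simp only [w, inner_smul_left, RCLike.conj_to_real]
      have h2 := (hN' i).ne'
      have h3 : ‖U (a i)‖ ≠ 0 := norm_ne_zero_iff.2 (hv i)
      field_simp
    simp only [h1]
    rw [Finset.sum_const, Finset.card_univ, Fintype.card_fin, nsmul_eq_mul, ← mul_assoc,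
      mul_inv_cancel₀ (hN' i).ne', one_mul]
  have hm1 : m ≤ (Fintype.card (Σ i, Fin (N i)) : ℝ) := by
    rw [hcard]
    calc m = ∑ _i : ι, (1 : ℝ) := by simp [hmdef]
      _ ≤ ∑ i, (N i : ℝ) := Finset.sum_le_sum fun i _ => by exact_mod_cast hN i
  have hm2 : (Fintype.card (Σ i, Fin (N i)) : ℝ) ≤ 33 / 32 * m := by
    rw [hcard]
    calc ∑ i, (N i : ℝ) ≤ ∑ i, (1 + ‖U (a i)‖ * m / (32 * d)) :=
          Finset.sum_le_sum fun i _ => splitNum_le (norm_nonneg _) hmpos.le hd'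
      _ = m + (∑ i, ‖U (a i)‖) * m / (32 * d) := by
          rw [Finset.sum_add_distrib, ← Finset.sum_div, ← Finset.sum_mul]
          simp [hmdef]
      _ = 33 / 32 * m := by
          rw [hsum]; field_simp; ring
  set m' : ℝ := (Fintype.card (Σ i, Fin (N i)) : ℝ) with hm'def
  have hm'pos : 0 < m' := lt_of_lt_of_le hmpos hm1
  have hvh : ∀ j, ‖w j‖ ≤ 33 * (d : ℝ) / m' := by
    intro j
    rw [hnw]
    have h1 : ‖U (a j.1)‖ * m / (32 * d) ≤ (N j.1 : ℝ) := le_splitNum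
    have h2 : (N j.1 : ℝ)⁻¹ * ‖U (a j.1)‖ ≤ 32 * d / m := by
      rw [inv_mul_le_iff₀ (hN' j.1)]
      rw [div_le_iff₀ (by positivity)] at h1
      rw [← mul_div_assoc, le_div_iff₀ hmpos]
      linarith
    refine h2.trans ?_
    rw [div_le_div_iff₀ hmpos hm'pos]
    nlinarith
  obtain ⟨y, hy, hyc, hyz⟩ := main_prop hd w hw hL (hm.trans hm1) hvh
  -- the new rows
  let s : Finset (Σ i, Fin (N i)) := Finset.univ.filter (fun j => y j ≠ -1)
  have hs : (s.card : ℝ) ≤ 15 / 16 * m' := by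
    have h1 := Finset.card_filter_add_card_filter_not (s := (Finset.univ : Finset (Σ i, Fin (N i))))
      (p := fun j => y j = -1)
    rw [Finset.card_univ] at h1
    have h2 : ((Finset.univ.filter (fun j => y j = -1)).card : ℝ) + (s.card : ℝ) = m' := by
      rw [hm'def, ← h1]; push_cast; rfl
    linarith
  refine ⟨s.card, fun k => (1 + (y (s.equivFin.symm k).1 : ℝ)) • w' (s.equivFin.symm k).1, ?_, ?_⟩
  · linarith
  intro z
  have e1 : ∑ k : Fin s.card,
      abs (inner ℝ ((1 + (y (s.equivFin.symm k).1 : ℝ)) • w' (s.equivFin.symm k).1) z : ℝ) =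
      ∑ j ∈ s, (1 + (y j : ℝ)) * abs (inner ℝ (w' j) z : ℝ) := by
    rw [← Finset.sum_coe_sort s]
    rw [← Equiv.sum_comp s.equivFin.symm]
    refine Finset.sum_congr rfl fun k _ => ?_
    rw [inner_smul_left, RCLike.conj_to_real, abs_mul, abs_of_nonneg]
    rcases hy (s.equivFin.symm k).1 with h | h | h <;> rw [h] <;> norm_num
  have e2 : ∑ j ∈ s, (1 + (y j : ℝ)) * abs (inner ℝ (w' j) z : ℝ) =
      ∑ j, (1 + (y j : ℝ)) * abs (inner ℝ (w' j) z : ℝ) := by
    refine Finset.sum_subset (Finset.subset_univ _) fun j _ hj => ?_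
    have : y j = -1 := by
      by_contra h
      exact hj (Finset.mem_filter.2 ⟨Finset.mem_univ _, h⟩)
    rw [this]; norm_num
  have e3 : ∑ j, abs (inner ℝ (w' j) z : ℝ) = ∑ i, abs (inner ℝ (a i) z : ℝ) := by
    rw [Fintype.sum_sigma]
    refine Finset.sum_congr rfl fun i _ => ?_
    have h1 : ∀ k : Fin (N i), abs (inner ℝ (w' ⟨i, k⟩) z : ℝ) =
        (N i : ℝ)⁻¹ * abs (inner ℝ (a i) z : ℝ) := by
      intro k
      simp only [w', inner_smul_left, RCLike.conj_to_real]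
      rw [abs_mul, abs_of_nonneg (inv_nonneg.2 (hN' i).le)]
    simp only [h1]
    rw [Finset.sum_const, Finset.card_univ, Fintype.card_fin, nsmul_eq_mul, ← mul_assoc,
      mul_inv_cancel₀ (hN' i).ne', one_mul]
  have e4 : ∀ j, (inner ℝ (w j) ((LinearMap.adjoint
      (U.symm : EuclideanSpace ℝ (Fin d) →ₗ[ℝ] EuclideanSpace ℝ (Fin d))) z) : ℝ) =
      inner ℝ (w' j) z := by
    intro j
    rw [LinearMap.adjoint_inner_right]
    simp [w, w', inner_smul_left]
  have h5 := hyz ((LinearMap.adjoint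
      (U.symm : EuclideanSpace ℝ (Fin d) →ₗ[ℝ] EuclideanSpace ℝ (Fin d))) z)
  simp only [e4] at h5
  rw [e3] at h5
  have e6 : ∑ j, (1 + (y j : ℝ)) * abs (inner ℝ (w' j) z : ℝ) =
      ∑ i, abs (inner ℝ (a i) z : ℝ) + ∑ j, (y j : ℝ) * abs (inner ℝ (w' j) z : ℝ) := by
    rw [← e3, ← Finset.sum_add_distrib]
    refine Finset.sum_congr rfl fun j _ => by ring
  rw [e1, e2, e6, add_sub_cancel_left]
  refine h5.trans ?_
  have h7 : Real.sqrt ((d : ℝ) / m') ≤ Real.sqrt ((d : ℝ) / m) := by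
    apply Real.sqrt_le_sqrt
    exact div_le_div_of_nonneg_left hd'.le hmpos hm1
  have h8 : 0 ≤ ∑ i, abs (inner ℝ (a i) z : ℝ) := Finset.sum_nonneg fun i _ => abs_nonneg _
  exact mul_le_mul_of_nonneg_right (by linarith) h8

end ZonoLin
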