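import Mathlib
import Pool.Agent.ZonoLin.Round1

/-! MP_971d29_gt (S13611): one round for general rows, from the spanning case. -/

open MeasureTheory Set

namespace ZonoLin

theorem round_general {d : ℕ} (hd : 0 < d) (m : ℕ)
    (a : Fin m → EuclideanSpace ℝ (Fin d)) (hm : 500 * (d : ℝ) ≤ m) :
    ∃ (n : ℕ) (b : Fin n → EuclideanSpace ℝ (Fin d)),
      (n : ℝ) ≤ 495 / 512 * m ∧
      ∀ z : EuclideanSpace ℝ (Fin d),
        |∑ j, abs (inner ℝ (b j) z : ℝ) - ∑ i, abs (inner ℝ (a i) z : ℝ)| ≤
          8000 * Real.sqrt ((d : ℝ) / m) * ∑ i, abs (inner ℝ (a i) z : ℝ) := by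
  classical
  have hdR : (1 : ℝ) ≤ d := by exact_mod_cast hd
  have hmpos : (0 : ℝ) < m := by linarith
  set ι := {i : Fin m // a i ≠ 0} with hι
  -- the sum over the nonzero rows
  have hsum : ∀ z : EuclideanSpace ℝ (Fin d),
      ∑ i : ι, abs (inner ℝ (a i.1) z : ℝ) = ∑ i, abs (inner ℝ (a i) z : ℝ) := by
    intro z
    rw [← Finset.sum_subtype (Finset.univ.filter (fun i => a i ≠ 0)) (by simp)
      (fun i => abs (inner ℝ (a i) z : ℝ))]
    rw [Finset.sum_filter]
    refine Finset.sum_congr rfl ?_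
    intro i _
    by_cases h : a i = 0
    · simp [h]
    · simp [h]
  have hnn : ∀ z : EuclideanSpace ℝ (Fin d), 0 ≤ ∑ i, abs (inner ℝ (a i) z : ℝ) :=
    fun z => Finset.sum_nonneg (fun i _ => abs_nonneg _)
  by_cases hc : (Fintype.card ι : ℝ) ≤ 495 / 512 * m
  · refine ⟨Fintype.card ι, fun j => a ((Fintype.equivFin ι).symm j).1, hc, ?_⟩
    intro z
    have h1 : ∑ j, abs (inner ℝ (a ((Fintype.equivFin ι).symm j).1) z : ℝ)
        = ∑ i : ι, abs (inner ℝ (a i.1) z : ℝ) :=
      Equiv.sum_comp (Fintype.equivFin ι).symm (fun i : ι => abs (inner ℝ (a i.1) z : ℝ))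
    rw [h1, hsum, sub_self, abs_zero]
    have := hnn z
    positivity
  · push Not at hc
    set S : Submodule ℝ (EuclideanSpace ℝ (Fin d)) := Submodule.span ℝ (Set.range a) with hS
    set d' := Module.finrank ℝ S with hd'
    have hd'd : d' ≤ d := by
      have := Submodule.finrank_le S
      simpa using this
    set e : S ≃ₗᵢ[ℝ] EuclideanSpace ℝ (Fin d') := (stdOrthonormalBasis ℝ S).repr with he
    have hmem : ∀ i, a i ∈ S := fun i => Submodule.subset_span ⟨i, rfl⟩
    set a' : ι → EuclideanSpace ℝ (Fin d') := fun i => e ⟨a i.1, hmem i.1⟩ with ha'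
    have hcard_pos : (0 : ℝ) < Fintype.card ι := by
      have : (0 : ℝ) < 495 / 512 * m := by positivity
      linarith
    have hι0 : 0 < Fintype.card ι := by exact_mod_cast hcard_pos
    obtain ⟨i0⟩ : Nonempty ι := Fintype.card_pos_iff.mp hι0
    have ha'0 : ∀ i, a' i ≠ 0 := by
      intro i h
      have h2 : (⟨a i.1, hmem i.1⟩ : S) = 0 := by
        have := e.injective (a₁ := ⟨a i.1, hmem i.1⟩) (a₂ := 0) (by rw [map_zero]; exact h)
        exact this
      exact i.2 (congrArg Subtype.val h2)
    have hd'0 : 0 < d' := by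
      rcases Nat.eq_zero_or_pos d' with h | h
      · exfalso
        have : (⟨a i0.1, hmem i0.1⟩ : S) = 0 := by
          have : Subsingleton S := Module.finrank_zero_iff.mp h
          exact Subsingleton.elim _ _
        exact i0.2 (congrArg Subtype.val this)
      · exact h
    -- the span
    have hspanS : Submodule.span ℝ (Set.range (fun i : ι => (⟨a i.1, hmem i.1⟩ : S))) = ⊤ := by
      have h1 : Submodule.map S.subtype
          (Submodule.span ℝ (Set.range (fun i : ι => (⟨a i.1, hmem i.1⟩ : S)))) = S := by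
        rw [Submodule.map_span]
        apply le_antisymm
        · rw [Submodule.span_le]
          rintro x ⟨y, ⟨i, rfl⟩, rfl⟩
          exact hmem i.1
        · refine Submodule.span_le.mpr ?_
          rintro x ⟨i, rfl⟩
          by_cases hi : a i = 0
          · simp [hi]
          · exact Submodule.subset_span ⟨⟨a i, hmem i⟩, ⟨⟨i, hi⟩, rfl⟩, rfl⟩
      have h2 : Submodule.map S.subtype ⊤ = S := by simp
      exact Submodule.map_injective_of_injective S.injective_subtype (h1.trans h2.symm)
    have hspan : Submodule.span ℝ (Set.range a') = ⊤ := by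
      have h1 : Set.range a' = (e.toLinearEquiv.toLinearMap : S →ₗ[ℝ] EuclideanSpace ℝ (Fin d')) ''
          Set.range (fun i : ι => (⟨a i.1, hmem i.1⟩ : S)) := by
        rw [← Set.range_comp]
        rfl
      rw [h1, ← Submodule.map_span, hspanS, Submodule.map_top]
      exact LinearMap.range_eq_top.mpr e.surjective
    have hd'R : (d' : ℝ) ≤ d := by exact_mod_cast hd'd
    have hm' : 400 * (d' : ℝ) ≤ Fintype.card ι := by
      have : 495 / 512 * (500 * (d : ℝ)) ≤ 495 / 512 * m := by
        apply mul_le_mul_of_nonneg_left hm (by norm_num)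
      linarith
    obtain ⟨n, b', hn, hb'⟩ := round_spanning hd'0 a' ha'0 hspan hm'
    have hcardm : (Fintype.card ι : ℝ) ≤ m := by
      have := Fintype.card_subtype_le (fun i : Fin m => a i ≠ 0)
      rw [Fintype.card_fin] at this
      exact_mod_cast this
    refine ⟨n, fun j => ((e.symm (b' j) : S) : EuclideanSpace ℝ (Fin d)), ?_, ?_⟩
    · linarith
    · intro z
      -- projection of z
      set w : S := S.orthogonalProjectionOnto z with hw
      have hproj : ∀ x : S, inner ℝ (x : EuclideanSpace ℝ (Fin d)) z = inner ℝ (e x) (e w) := by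
        intro x
        rw [LinearIsometryEquiv.inner_map_map, hw]
        simp
      have hA : ∀ i : ι, (inner ℝ (a i.1) z : ℝ) = inner ℝ (a' i) (e w) := by
        intro i
        exact hproj ⟨a i.1, hmem i.1⟩
      have hB : ∀ j, (inner ℝ ((e.symm (b' j) : S) : EuclideanSpace ℝ (Fin d)) z : ℝ)
          = inner ℝ (b' j) (e w) := by
        intro j
        rw [hproj, LinearIsometryEquiv.apply_symm_apply]
      have h := hb' (e w)
      have h1 : ∑ j, abs (inner ℝ ((e.symm (b' j) : S) : EuclideanSpace ℝ (Fin d)) z : ℝ)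
          = ∑ j, abs (inner ℝ (b' j) (e w) : ℝ) :=
        Finset.sum_congr rfl (fun j _ => by rw [hB])
      have h2 : ∑ i, abs (inner ℝ (a i) z : ℝ) = ∑ i, abs (inner ℝ (a' i) (e w) : ℝ) := by
        rw [← hsum]
        exact Finset.sum_congr rfl (fun i _ => by rw [hA])
      have hnnz := hnn z
      rw [← h2] at h
      rw [h1]
      refine h.trans ?_
      apply mul_le_mul_of_nonneg_right _ hnnz
      have h3 : (d' : ℝ) / Fintype.card ι ≤ (8 / 7) ^ 2 * ((d : ℝ) / m) := by
        rw [div_le_iff₀ hcard_pos]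
        have h4 : (8 / 7 : ℝ) ^ 2 * ((d : ℝ) / m) * Fintype.card ι
            ≥ (8 / 7 : ℝ) ^ 2 * ((d : ℝ) / m) * (495 / 512 * m) := by
          apply mul_le_mul_of_nonneg_left hc.le
          positivity
        have h5 : (8 / 7 : ℝ) ^ 2 * ((d : ℝ) / m) * (495 / 512 * m)
            = (8 / 7 : ℝ) ^ 2 * (495 / 512) * d := by
          field_simp
        have h6 : (8 / 7 : ℝ) ^ 2 * (495 / 512) * d ≥ d := by
          have : (8 / 7 : ℝ) ^ 2 * (495 / 512) ≥ 1 := by norm_num
          nlinarith
        linarith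
      have h7 : Real.sqrt ((d' : ℝ) / Fintype.card ι) ≤ 8 / 7 * Real.sqrt ((d : ℝ) / m) := by
        calc Real.sqrt ((d' : ℝ) / Fintype.card ι)
            ≤ Real.sqrt ((8 / 7) ^ 2 * ((d : ℝ) / m)) := Real.sqrt_le_sqrt h3
          _ = 8 / 7 * Real.sqrt ((d : ℝ) / m) := by
            rw [Real.sqrt_mul (by positivity), Real.sqrt_sq (by norm_num)]
      linarith

end ZonoLin
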