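import Mathlib

/-! Lewis position (module LEWIS of MP_971d29_gt). -/

open MeasureTheory Set

namespace ZonoLin

/-- Second order norm inequality: `‖v + c • z‖ ≤ ‖v‖ + (2c⟨v,z⟩ + c²‖z‖²)/(2‖v‖)`. -/
theorem lw_norm_le {E : Type*} [NormedAddCommGroup E] [InnerProductSpace ℝ E] (v z : E) (hv : v ≠ 0)
    (t : ℝ) :
    ‖v + (t * inner ℝ v z) • z‖ ≤
      ‖v‖ + t * ((inner ℝ v z : ℝ) ^ 2 / ‖v‖) + t ^ 2 * (‖z‖ ^ 2 / 2 * ((inner ℝ v z : ℝ) ^ 2 / ‖v‖)) := by
  have hv0 : 0 < ‖v‖ := norm_pos_iff.mpr hv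
  have hsq : ‖v + (t * inner ℝ v z) • z‖ ^ 2
      = ‖v‖ ^ 2 + 2 * t * (inner ℝ v z) ^ 2 + t ^ 2 * (inner ℝ v z) ^ 2 * ‖z‖ ^ 2 := by
    rw [norm_add_sq_real, inner_smul_right, norm_smul, mul_pow, Real.norm_eq_abs, sq_abs]
    ring
  set A : ℝ := ‖v + (t * inner ℝ v z) • z‖ with hA
  have h2 : 2 * A * ‖v‖ ≤ A ^ 2 + ‖v‖ ^ 2 := by nlinarith [sq_nonneg (A - ‖v‖)]
  have h3 : A ≤ (A ^ 2 + ‖v‖ ^ 2) / (2 * ‖v‖) := by
    rw [le_div_iff₀ (by positivity)]
    nlinarith
  refine h3.trans (le_of_eq ?_)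
  rw [hsq]
  field_simp
  ring

theorem exists_lewis {d : ℕ} {ι : Type*} [Fintype ι] (a : ι → EuclideanSpace ℝ (Fin d))
    (ha : ∀ i, a i ≠ 0) (hspan : Submodule.span ℝ (Set.range a) = ⊤) :
    ∃ U : EuclideanSpace ℝ (Fin d) ≃ₗ[ℝ] EuclideanSpace ℝ (Fin d),
      ∀ z : EuclideanSpace ℝ (Fin d),
        ∑ i, (inner ℝ (U (a i)) z) ^ 2 / ‖U (a i)‖ = ‖z‖ ^ 2 := by
  classical
  rcases Nat.eq_zero_or_pos d with hd | hd
  · subst hd
    refine ⟨LinearEquiv.refl ℝ _, fun z => ?_⟩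
    have : z = 0 := Subsingleton.elim _ _
    simp [this]
  have hdR : (0 : ℝ) < d := by exact_mod_cast hd
  let N : (EuclideanSpace ℝ (Fin d) →L[ℝ] EuclideanSpace ℝ (Fin d)) → ℝ := fun U => ∑ i, ‖U (a i)‖
  have hNdef : ∀ U, N U = ∑ i, ‖U (a i)‖ := fun _ => rfl
  have hNc : Continuous N := by
    refine continuous_finsetSum _ (fun i _ => ?_)
    exact (ContinuousLinearMap.apply ℝ (EuclideanSpace ℝ (Fin d)) (a i)).continuous.norm
  have hNsmul : ∀ (c : ℝ) U, 0 ≤ c → N (c • U) = c * N U := by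
    intro c U hc
    simp only [hNdef, smul_apply, norm_smul, Real.norm_eq_abs, abs_of_nonneg hc,
      Finset.mul_sum]
  let T : (EuclideanSpace ℝ (Fin d) →L[ℝ] EuclideanSpace ℝ (Fin d)) →ₗ[ℝ]
      (ι → EuclideanSpace ℝ (Fin d)) :=
    { toFun := fun U i => U (a i)
      map_add' := fun U V => by ext; simp
      map_smul' := fun c U => by ext; simp }
  have hext : ∀ U V : EuclideanSpace ℝ (Fin d) →L[ℝ] EuclideanSpace ℝ (Fin d),
      (∀ i, U (a i) = V (a i)) → U = V := by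
    intro U V h
    have h1 : (U : EuclideanSpace ℝ (Fin d) →ₗ[ℝ] EuclideanSpace ℝ (Fin d)) = V := by
      refine LinearMap.ext_on hspan ?_
      rintro _ ⟨i, rfl⟩
      exact h i
    exact ContinuousLinearMap.coe_injective h1
  have hT : LinearMap.ker T = ⊥ := by
    rw [LinearMap.ker_eq_bot']
    intro U hU
    refine hext U 0 (fun i => ?_)
    have := congrFun hU i
    simpa [T] using this
  obtain ⟨c, hc0, hc⟩ := T.exists_antilipschitzWith hT
  let K : Set (EuclideanSpace ℝ (Fin d) →L[ℝ] EuclideanSpace ℝ (Fin d)) := {U | N U ≤ d}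
  have hKcl : IsClosed K := isClosed_le hNc continuous_const
  have hKb : Bornology.IsBounded K := by
    refine (Metric.isBounded_iff_subset_closedBall 0).mpr ⟨c * d, ?_⟩
    intro U hU
    rw [mem_closedBall_zero_iff]
    have h1 : ‖U‖ ≤ c * ‖T U‖ := by
      have := hc.le_mul_dist U 0
      simpa [dist_eq_norm] using this
    have h2 : ‖T U‖ ≤ N U := by
      rw [pi_norm_le_iff_of_nonneg (by rw [hNdef]; positivity)]
      intro i
      exact Finset.single_le_sum (f := fun i => ‖U (a i)‖) (fun i _ => norm_nonneg _)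
        (Finset.mem_univ i)
    calc ‖U‖ ≤ c * ‖T U‖ := h1
      _ ≤ c * d := by
        refine mul_le_mul_of_nonneg_left (h2.trans hU) ?_
        exact c.coe_nonneg
  have hKcomp : IsCompact K := Metric.isCompact_of_isClosed_isBounded hKcl hKb
  obtain ⟨U, hUK, hUmax⟩ := hKcomp.exists_isMaxOn
    ⟨0, by show N 0 ≤ d; rw [hNdef]; simp⟩
    (f := fun U => |U.det|) (ContinuousLinearMap.continuous_det.abs.continuousOn)
  have hmax : ∀ V, N V ≤ d → |V.det| ≤ |U.det| := fun V hV => hUmax hV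
  have hdetsmul : ∀ (c : ℝ) (V : EuclideanSpace ℝ (Fin d) →L[ℝ] EuclideanSpace ℝ (Fin d)),
      (c • V).det = c ^ d * V.det := by
    intro c V
    have := LinearMap.det_smul c (V : EuclideanSpace ℝ (Fin d) →ₗ[ℝ] EuclideanSpace ℝ (Fin d))
    rw [finrank_euclideanSpace, Fintype.card_fin] at this
    exact this
  have hUdet : 0 < |U.det| := by
    set S : ℝ := 1 + N (ContinuousLinearMap.id ℝ _) with hS
    have hN0 : 0 ≤ N (ContinuousLinearMap.id ℝ _) := by rw [hNdef]; positivity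
    have hS0 : 0 < S := by positivity
    have h1 := hmax (((d : ℝ) / S) • ContinuousLinearMap.id ℝ _) (by
      rw [hNsmul _ _ (by positivity), div_mul_eq_mul_div, div_le_iff₀ hS0]
      refine mul_le_mul_of_nonneg_left ?_ hdR.le
      rw [hS]; linarith)
    refine lt_of_lt_of_le ?_ h1
    rw [hdetsmul]
    have : (ContinuousLinearMap.id ℝ (EuclideanSpace ℝ (Fin d))).det = 1 := by
      simp [ContinuousLinearMap.det]
    rw [this]
    positivity
  have hUdet' : LinearMap.det (U : EuclideanSpace ℝ (Fin d) →ₗ[ℝ] EuclideanSpace ℝ (Fin d)) ≠ 0 := by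
    exact abs_pos.mp hUdet
  let Ue : EuclideanSpace ℝ (Fin d) ≃ₗ[ℝ] EuclideanSpace ℝ (Fin d) :=
    LinearMap.equivOfDetNeZero _ hUdet'
  have hUe : ∀ x, Ue x = U x := fun x => rfl
  refine ⟨Ue, fun z => ?_⟩
  have hv : ∀ i, U (a i) ≠ 0 := by
    intro i h
    have h2 : Ue (a i) = 0 := h
    exact ha i ((LinearEquiv.map_eq_zero_iff Ue).mp h2)
  simp only [hUe]
  set q : ℝ := ∑ i, (inner ℝ (U (a i)) z) ^ 2 / ‖U (a i)‖ with hq
  have hq0 : 0 ≤ q := by rw [hq]; positivity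
  have hNle : N U ≤ d := hUK
  -- the key inequality
  have key : ∀ t : ℝ, 0 < 1 + t * ‖z‖ ^ 2 →
      Real.log (1 + t * ‖z‖ ^ 2) ≤ t * q + t ^ 2 * (‖z‖ ^ 2 / 2 * q) := by
    intro t ht
    let R : EuclideanSpace ℝ (Fin d) →ₗ[ℝ] EuclideanSpace ℝ (Fin d) :=
      LinearMap.transvection (t • (innerSL ℝ z : EuclideanSpace ℝ (Fin d) →L[ℝ] ℝ).toLinearMap) z
    have hR : ∀ x, R x = x + (t * inner ℝ x z) • z := by
      intro x
      simp [R, LinearMap.transvection, real_inner_comm]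
    have hRdet : LinearMap.det R = 1 + t * ‖z‖ ^ 2 := by
      simp only [R]
      rw [LinearMap.transvection.det]
      simp
    let V : EuclideanSpace ℝ (Fin d) →L[ℝ] EuclideanSpace ℝ (Fin d) :=
      (LinearMap.toContinuousLinearMap R).comp U
    have hV : ∀ x, V x = R (U x) := fun x => rfl
    have hVdet : V.det = (1 + t * ‖z‖ ^ 2) * U.det := by
      have : (V : EuclideanSpace ℝ (Fin d) →ₗ[ℝ] EuclideanSpace ℝ (Fin d)) =
          R ∘ₗ (U : EuclideanSpace ℝ (Fin d) →ₗ[ℝ] EuclideanSpace ℝ (Fin d)) := by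
        ext x; rfl
      show LinearMap.det (V : EuclideanSpace ℝ (Fin d) →ₗ[ℝ] EuclideanSpace ℝ (Fin d)) = _
      rw [this, LinearMap.det_comp, hRdet]
    have hNV : N V ≤ N U + (t * q + t ^ 2 * (‖z‖ ^ 2 / 2 * q)) := by
      rw [hNdef, hNdef, hq, Finset.mul_sum, Finset.mul_sum, Finset.mul_sum, ← Finset.sum_add_distrib,
        ← Finset.sum_add_distrib]
      refine Finset.sum_le_sum (fun i _ => ?_)
      rw [hV, hR]
      have := lw_norm_le (U (a i)) z (hv i) t
      linarith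
    have hVdet0 : V.det ≠ 0 := by
      rw [hVdet]
      exact mul_ne_zero ht.ne' (abs_pos.mp hUdet)
    have hNVpos : 0 < N V := by
      by_contra hcon
      have h0 : N V = 0 := le_antisymm (not_lt.mp hcon) (by rw [hNdef]; positivity)
      have h1 : V = 0 := by
        refine hext V 0 (fun i => ?_)
        have h2 := (Finset.sum_eq_zero_iff_of_nonneg (fun i _ => norm_nonneg (V (a i)))).mp h0 i
          (Finset.mem_univ i)
        simpa using h2
      apply hVdet0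
      rw [h1]
      show LinearMap.det (0 : EuclideanSpace ℝ (Fin d) →ₗ[ℝ] EuclideanSpace ℝ (Fin d)) = 0
      rw [LinearMap.det_zero, finrank_euclideanSpace, Fintype.card_fin]
      exact zero_pow hd.ne'
    have h1 := hmax (((d : ℝ) / N V) • V) (by
      rw [hNsmul _ _ (by positivity), div_mul_cancel₀ _ hNVpos.ne'])
    rw [hdetsmul, hVdet, abs_mul, abs_mul, abs_of_pos ht, abs_of_pos (show 0 < ((d : ℝ) / N V) ^ d by positivity)] at h1
    have h2 : ((d : ℝ) / N V) ^ d * (1 + t * ‖z‖ ^ 2) ≤ 1 := by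
      have h3 : (((d : ℝ) / N V) ^ d * (1 + t * ‖z‖ ^ 2)) * |U.det| ≤ 1 * |U.det| := by
        rw [one_mul, mul_assoc]; exact h1
      exact le_of_mul_le_mul_right h3 hUdet
    have h3 : 1 + t * ‖z‖ ^ 2 ≤ (N V / d) ^ d := by
      rw [div_pow] at h2 ⊢
      rw [div_mul_eq_mul_div, div_le_one (by positivity)] at h2
      rw [le_div_iff₀ (by positivity)]
      linarith
    have h4 : Real.log (1 + t * ‖z‖ ^ 2) ≤ d * Real.log (N V / d) := by
      rw [← Real.log_pow]
      exact Real.log_le_log ht h3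
    have h5 : Real.log (N V / d) ≤ N V / d - 1 := Real.log_le_sub_one_of_pos (by positivity)
    have h6 : d * Real.log (N V / d) ≤ N V - d := by
      have := mul_le_mul_of_nonneg_left h5 hdR.le
      have h7 : (d : ℝ) * (N V / d - 1) = N V - d := by field_simp
      linarith
    linarith
  -- conclusion
  have hlow : ∀ t : ℝ, 0 < 1 + t * ‖z‖ ^ 2 →
      t * ‖z‖ ^ 2 / (1 + t * ‖z‖ ^ 2) ≤ t * q + t ^ 2 * (‖z‖ ^ 2 / 2 * q) := by
    intro t ht
    refine le_trans ?_ (key t ht)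
    have := Real.one_sub_inv_le_log_of_pos ht
    refine le_trans (le_of_eq ?_) this
    field_simp
    ring
  rcases eq_or_ne z 0 with hz | hz
  · rw [hq, hz]
    simp
  have hw : 0 < ‖z‖ ^ 2 := by positivity
  set w : ℝ := ‖z‖ ^ 2 with hwdef
  have hlow2 : ∀ t : ℝ, |t| ≤ 1 / (2 * w) → t * (w - q) ≤ t ^ 2 * (w / 2 * q + 2 * w ^ 2) := by
    intro t ht
    have h1 : |t * w| ≤ 1 / 2 := by
      rw [abs_mul, abs_of_pos hw]
      calc |t| * w ≤ 1 / (2 * w) * w := mul_le_mul_of_nonneg_right ht hw.le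
        _ = 1 / 2 := by field_simp
    have h2 := abs_le.mp h1
    have h3 : 1 / 2 ≤ 1 + t * w := by linarith [h2.1]
    have h4 := hlow t (by linarith)
    have h5 : t * w - 2 * (t * w) ^ 2 ≤ t * w / (1 + t * w) := by
      rw [le_div_iff₀ (by linarith)]
      nlinarith [sq_nonneg (t * w), mul_nonneg (sq_nonneg (t * w)) (by linarith : 0 ≤ 1 + t * w - 1 / 2)]
    nlinarith
  set C : ℝ := w / 2 * q + 2 * w ^ 2 with hC
  have hC0 : 0 < C := by positivity
  have hsmall : ∀ ε : ℝ, 0 < ε → |w - q| ≤ ε := by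
    intro ε hε
    set t : ℝ := min (1 / (2 * w)) (ε / C) with ht
    have ht0 : 0 < t := lt_min (by positivity) (by positivity)
    have ht1 : t ≤ 1 / (2 * w) := min_le_left _ _
    have ht2 : t * C ≤ ε := by
      have : t ≤ ε / C := min_le_right _ _
      rwa [le_div_iff₀ hC0] at this
    have h1 := hlow2 t (by rwa [abs_of_pos ht0])
    have h2 := hlow2 (-t) (by rwa [abs_neg, abs_of_pos ht0])
    rw [abs_le]
    constructor
    · have h3 : t * (q - w) ≤ t * (t * C) := by nlinarith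
      have := le_of_mul_le_mul_left h3 ht0
      linarith
    · have h3 : t * (w - q) ≤ t * (t * C) := by nlinarith
      have := le_of_mul_le_mul_left h3 ht0
      linarith
  have h0 : |w - q| ≤ 0 := le_of_forall_pos_le_add (fun ε hε => by simpa using hsmall ε hε)
  have h1 := abs_eq_zero.mp (le_antisymm h0 (abs_nonneg _))
  linarith

/-- M1b: in Lewis position the norms sum to `d`. -/
theorem lewis_sum {d : ℕ} {ι : Type*} [Fintype ι] (v : ι → EuclideanSpace ℝ (Fin d))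
    (hv : ∀ i, v i ≠ 0)
    (hL : ∀ z : EuclideanSpace ℝ (Fin d), ∑ i, (inner ℝ (v i) z) ^ 2 / ‖v i‖ = ‖z‖ ^ 2) :
    ∑ i, ‖v i‖ = (d : ℝ) := by
  let b := EuclideanSpace.basisFun (Fin d) ℝ
  have h1 : ∑ j, ∑ i, (inner ℝ (v i) (b j)) ^ 2 / ‖v i‖ = ∑ j : Fin d, ‖b j‖ ^ 2 :=
    Finset.sum_congr rfl (fun j _ => hL _)
  rw [Finset.sum_comm] at h1
  have h2 : ∀ i, ∑ j, (inner ℝ (v i) (b j)) ^ 2 / ‖v i‖ = ‖v i‖ := by
    intro i
    have h3 := b.sum_sq_norm_inner_left (v i)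
    simp only [Real.norm_eq_abs, sq_abs] at h3
    rw [← Finset.sum_div, h3]
    have : ‖v i‖ ≠ 0 := norm_ne_zero_iff.mpr (hv i)
    field_simp
  simp only [h2] at h1
  rw [h1]
  simp [b]

end ZonoLin
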